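import Mathlib
import Pool.Agent.Lib.MP_8f66f0_al_Wald.GrDefs

/-! Group actions on trees, given by nested families of cuts.

A tree with an action of `G` is given by a `G`-set `V` (the vertices, several elements of `V` may
be the same vertex) and a family `𝓗` of subsets of `V` (the half trees: one side of an edge). -/

set_option autoImplicit false

namespace Pool.Agent.TreeC

open Pool.Agent.Wald Pointwise

/-- The family `𝓗` of cuts of the `G`-set `V`: closed under complements and translates, nested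
(one of the four corners of two cuts is empty), finitely many cuts separate two points, no
inversions, and every cut `h` has an adjacent pair `x ∈ h`, `y ∉ h`, separated only by `h`. -/
structure CutSys (G V : Type) [Group G] [MulAction G V] (𝓗 : Set (Set V)) : Prop where
  compl : ∀ h ∈ 𝓗, hᶜ ∈ 𝓗
  smul : ∀ (g : G), ∀ h ∈ 𝓗, g • h ∈ 𝓗
  nest : ∀ h ∈ 𝓗, ∀ k ∈ 𝓗, h ⊆ k ∨ h ⊆ kᶜ ∨ hᶜ ⊆ k ∨ hᶜ ⊆ kᶜ
  fin : ∀ x y : V, {h | h ∈ 𝓗 ∧ x ∈ h ∧ y ∉ h}.Finite
  noinv : ∀ (g : G), ∀ h ∈ 𝓗, g • h ≠ hᶜ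
  adj : ∀ h ∈ 𝓗, ∃ x y : V, x ∈ h ∧ y ∉ h ∧ ∀ k ∈ 𝓗, x ∈ k → y ∉ k → k = h

/-- `x` and `y` are the same vertex: no cut separates them. -/
def Eqv {V : Type} (𝓗 : Set (Set V)) (x y : V) : Prop := ∀ h ∈ 𝓗, x ∈ h ↔ y ∈ h

/-- `(x, y)` is an edge which crosses exactly the cut `h`. -/
def Adj {V : Type} (𝓗 : Set (Set V)) (h : Set V) (x y : V) : Prop :=
  x ∈ h ∧ y ∉ h ∧ ∀ k ∈ 𝓗, x ∈ k → y ∉ k → k = h

/-- The number of cuts which separate `x` from `y`. -/
noncomputable def dist {V : Type} (𝓗 : Set (Set V)) (x y : V) : ℕ :=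
  {h | h ∈ 𝓗 ∧ x ∈ h ∧ y ∉ h}.ncard

/-- The stabilizer of the vertex `x` (the group of all `g` which do not move `x` across a cut). -/
def stV (G : Type) {V : Type} [Group G] [MulAction G V] {𝓗 : Set (Set V)} (hH : CutSys G V 𝓗)
    (x : V) : Subgroup G where
  carrier := {g | Eqv 𝓗 (g • x) x}
  one_mem' := fun h _ => by rw [one_smul]
  mul_mem' := by
    intro a b ha hb h hh
    have h1 := hb (a⁻¹ • h) (hH.smul a⁻¹ h hh)
    rw [Set.mem_inv_smul_set_iff, Set.mem_inv_smul_set_iff] at h1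
    rw [mul_smul]
    exact h1.trans (ha h hh)
  inv_mem' := by
    intro a ha h hh
    have h1 := ha (a • h) (hH.smul a h hh)
    rw [Set.smul_mem_smul_set_iff, Set.mem_smul_set_iff_inv_smul_mem] at h1
    exact h1.symm

theorem mem_stV {G V : Type} [Group G] [MulAction G V] {𝓗 : Set (Set V)} {hH : CutSys G V 𝓗}
    {x : V} {g : G} : g ∈ stV G hH x ↔ Eqv 𝓗 (g • x) x := Iff.rfl

/-- The stabilizer of a cut (of an edge). -/
abbrev stE (G : Type) {V : Type} [Group G] [MulAction G V] (h : Set V) : Subgroup G :=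
  MulAction.stabilizer G h

end Pool.Agent.TreeC
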