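import Mathlib
import Pool.Agent.Lib.MP_8f66f0_al_Tree.Defs

/-! Basic facts on cut systems. -/

set_option autoImplicit false

namespace Pool.Agent.TreeC

open Pool.Agent.Wald Pointwise

section Eqv

variable {V : Type} {𝓗 : Set (Set V)}

theorem Eqv.refl (x : V) : Eqv 𝓗 x x := fun _ _ => Iff.rfl

theorem Eqv.symm {x y : V} (h : Eqv 𝓗 x y) : Eqv 𝓗 y x := fun k hk => (h k hk).symm

theorem Eqv.trans {x y z : V} (h : Eqv 𝓗 x y) (h' : Eqv 𝓗 y z) : Eqv 𝓗 x z :=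
  fun k hk => (h k hk).trans (h' k hk)

theorem Eqv.mono {𝓗' : Set (Set V)} (hs : 𝓗' ⊆ 𝓗) {x y : V} (h : Eqv 𝓗 x y) : Eqv 𝓗' x y :=
  fun k hk => h k (hs hk)

theorem dist_congr {x x' y y' : V} (hx : Eqv 𝓗 x x') (hy : Eqv 𝓗 y y') :
    dist 𝓗 x y = dist 𝓗 x' y' := by
  unfold dist
  congr 1
  ext k
  constructor
  · rintro ⟨h1, h2, h3⟩
    exact ⟨h1, (hx k h1).1 h2, fun h => h3 ((hy k h1).2 h)⟩
  · rintro ⟨h1, h2, h3⟩
    exact ⟨h1, (hx k h1).2 h2, fun h => h3 ((hy k h1).1 h)⟩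

theorem dist_of_eqv {x y : V} (h : Eqv 𝓗 x y) : dist 𝓗 x y = 0 := by
  have h1 : {k | k ∈ 𝓗 ∧ x ∈ k ∧ y ∉ k} = ∅ := by
    ext k
    constructor
    · rintro ⟨h1, h2, h3⟩
      exact h3 ((h k h1).1 h2)
    · intro h
      exact h.elim
  unfold dist
  rw [h1, Set.ncard_empty]

end Eqv

section Act

variable {G V : Type} [Group G] [MulAction G V] {𝓗 : Set (Set V)}

theorem CutSys.sub (hH : CutSys G V 𝓗) {𝓗' : Set (Set V)} (hs : 𝓗' ⊆ 𝓗)
    (hc : ∀ h ∈ 𝓗', hᶜ ∈ 𝓗') (hg : ∀ (g : G), ∀ h ∈ 𝓗', g • h ∈ 𝓗') : CutSys G V 𝓗' where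
  compl := hc
  smul := hg
  nest := fun h hh k hk => hH.nest h (hs hh) k (hs hk)
  fin := fun x y => (hH.fin x y).subset fun k hk => ⟨hs hk.1, hk.2⟩
  noinv := fun g h hh => hH.noinv g h (hs hh)
  adj := fun h hh => by
    obtain ⟨x, y, hx, hy, hk⟩ := hH.adj h (hs hh)
    exact ⟨x, y, hx, hy, fun k hk' => hk k (hs hk')⟩

theorem CutSys.exists_adj (hH : CutSys G V 𝓗) {h : Set V} (hh : h ∈ 𝓗) : ∃ x y, Adj 𝓗 h x y :=
  hH.adj h hh

theorem Eqv.smul (hH : CutSys G V 𝓗) {x y : V} (h : Eqv 𝓗 x y) (g : G) :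
    Eqv 𝓗 (g • x) (g • y) := by
  intro k hk
  have h1 := h (g⁻¹ • k) (hH.smul g⁻¹ k hk)
  rw [Set.mem_inv_smul_set_iff, Set.mem_inv_smul_set_iff] at h1
  exact h1

theorem eqv_smul_iff (hH : CutSys G V 𝓗) {x y : V} (g : G) :
    Eqv 𝓗 (g • x) (g • y) ↔ Eqv 𝓗 x y := by
  constructor
  · intro h
    have h1 := h.smul hH g⁻¹
    rwa [inv_smul_smul, inv_smul_smul] at h1
  · intro h
    exact h.smul hH g

theorem dist_smul (hH : CutSys G V 𝓗) (g : G) (x y : V) :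
    dist 𝓗 (g • x) (g • y) = dist 𝓗 x y := by
  have h1 : {k | k ∈ 𝓗 ∧ g • x ∈ k ∧ g • y ∉ k} =
      (fun k : Set V => g • k) '' {k | k ∈ 𝓗 ∧ x ∈ k ∧ y ∉ k} := by
    ext k
    constructor
    · rintro ⟨h1, h2, h3⟩
      refine ⟨g⁻¹ • k, ⟨hH.smul _ _ h1, ?_, ?_⟩, smul_inv_smul g k⟩
      · rw [Set.mem_inv_smul_set_iff]
        exact h2
      · rw [Set.mem_inv_smul_set_iff]
        exact h3
    · rintro ⟨k', ⟨h1, h2, h3⟩, rfl⟩
      refine ⟨hH.smul _ _ h1, ?_, ?_⟩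
      · change g • x ∈ g • k'
        rw [Set.smul_mem_smul_set_iff]
        exact h2
      · change g • y ∉ g • k'
        rw [Set.smul_mem_smul_set_iff]
        exact h3
  unfold dist
  rw [h1]
  exact Set.ncard_image_of_injective _ (MulAction.injective g)

theorem dist_pos (hH : CutSys G V 𝓗) {x y : V} (h : ¬ Eqv 𝓗 x y) : 0 < dist 𝓗 x y := by
  unfold dist
  rw [Set.ncard_pos (hH.fin x y)]
  by_contra hne
  rw [Set.not_nonempty_iff_eq_empty] at hne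
  apply h
  intro k hk
  constructor
  · intro hx
    by_contra hy
    have : k ∈ {k | k ∈ 𝓗 ∧ x ∈ k ∧ y ∉ k} := ⟨hk, hx, hy⟩
    rw [hne] at this
    exact this
  · intro hy
    by_contra hx
    have : kᶜ ∈ {k | k ∈ 𝓗 ∧ x ∈ k ∧ y ∉ k} := ⟨hH.compl k hk, hx, fun h' => h' hy⟩
    rw [hne] at this
    exact this

theorem Adj.compl (hH : CutSys G V 𝓗) {h : Set V} {x y : V} (hxy : Adj 𝓗 h x y) :
    Adj 𝓗 hᶜ y x := by
  obtain ⟨hx, hy, hk⟩ := hxy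
  refine ⟨hy, fun h' => h' hx, ?_⟩
  intro k hk' hyk hxk
  have h1 := hk kᶜ (hH.compl k hk') hxk (fun h' => h' hyk)
  rw [← h1, compl_compl]

theorem Adj.smul (hH : CutSys G V 𝓗) {h : Set V} {x y : V} (hxy : Adj 𝓗 h x y) (g : G) :
    Adj 𝓗 (g • h) (g • x) (g • y) := by
  obtain ⟨hx, hy, hk⟩ := hxy
  refine ⟨by rwa [Set.smul_mem_smul_set_iff], by rwa [Set.smul_mem_smul_set_iff], ?_⟩
  intro k hk' h1 h2
  have h3 := hk (g⁻¹ • k) (hH.smul _ _ hk') (by rwa [Set.mem_inv_smul_set_iff])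
    (by rwa [Set.mem_inv_smul_set_iff])
  rw [← h3, smul_inv_smul]

theorem Adj.congr {h : Set V} (hh : h ∈ 𝓗) {x y x' y' : V} (hxy : Adj 𝓗 h x y)
    (hx : Eqv 𝓗 x x') (hy : Eqv 𝓗 y y') : Adj 𝓗 h x' y' :=
  ⟨(hx h hh).1 hxy.1, fun h' => hxy.2.1 ((hy h hh).2 h'), fun k hk h1 h2 =>
    hxy.2.2 k hk ((hx k hk).2 h1) fun h' => h2 ((hy k hk).1 h')⟩

/-- The end points of an edge are unique vertices. -/
theorem Adj.eqv_left (hH : CutSys G V 𝓗) {h : Set V} (hh : h ∈ 𝓗) {x y x' y' : V}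
    (hxy : Adj 𝓗 h x y) (hxy' : Adj 𝓗 h x' y') : Eqv 𝓗 x x' := by
  -- a cut with `x` on one side and `x'` on the other
  have key : ∀ {a b a' b' : V}, Adj 𝓗 h a b → Adj 𝓗 h a' b' → ∀ k ∈ 𝓗, a ∈ k → a' ∈ k := by
    intro a b a' b' hab hab' k hk hak
    by_contra hak'
    have hne : k ≠ h := fun h1 => hak' (h1 ▸ hab'.1)
    have hb : b ∈ k := by
      by_contra hb
      exact hne (hab.2.2 k hk hak hb)
    have hb' : b' ∉ k := by
      intro hb'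
      have h1 := hab'.2.2 kᶜ (hH.compl k hk) hak' (fun h' => h' hb')
      have h2 : k = hᶜ := by rw [← h1, compl_compl]
      rw [h2] at hak
      exact hak hab.1
    rcases hH.nest h hh k hk with h1 | h1 | h1 | h1
    · exact hak' (h1 hab'.1)
    · exact h1 hab.1 hak
    · exact hb' (h1 hab'.2.1)
    · exact h1 hab.2.1 hb
  intro k hk
  exact ⟨key hxy hxy' k hk, key hxy' hxy k hk⟩

theorem Adj.eqv_right (hH : CutSys G V 𝓗) {h : Set V} (hh : h ∈ 𝓗) {x y x' y' : V}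
    (hxy : Adj 𝓗 h x y) (hxy' : Adj 𝓗 h x' y') : Eqv 𝓗 y y' :=
  (hxy.compl hH).eqv_left hH (hH.compl h hh) (hxy'.compl hH)

theorem mem_stE_iff (hH : CutSys G V 𝓗) {h : Set V} (hh : h ∈ 𝓗) {x y : V}
    (hxy : Adj 𝓗 h x y) (g : G) :
    g ∈ stE G h ↔ g ∈ stV G hH x ∧ g ∈ stV G hH y := by
  constructor
  · intro hg
    have h1 : g • h = h := MulAction.mem_stabilizer_iff.1 hg
    have h2 := hxy.smul hH g
    rw [h1] at h2
    exact ⟨h2.eqv_left hH hh hxy, h2.eqv_right hH hh hxy⟩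
  · rintro ⟨hx, hy⟩
    rw [MulAction.mem_stabilizer_iff]
    have h1 : g • x ∈ h := (hx h hh).2 hxy.1
    have h2 : g • y ∉ h := fun h' => hxy.2.1 ((hy h hh).1 h')
    exact ((hxy.smul hH g).2.2 h hh h1 h2).symm

/-- The first edge on the way from `u` to `z`. -/
theorem exists_first (hH : CutSys G V 𝓗) {u z : V} (h : ¬ Eqv 𝓗 u z) :
    ∃ k ∈ 𝓗, ∀ a b, Adj 𝓗 k a b → Eqv 𝓗 u a ∧ dist 𝓗 b z < dist 𝓗 u z := by
  have hpos := dist_pos hH h
  unfold dist at hpos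
  rw [Set.ncard_pos (hH.fin u z)] at hpos
  obtain ⟨k, hk⟩ := (hH.fin u z).exists_minimal hpos
  obtain ⟨⟨hk1, hku, hkz⟩, hkmin⟩ := hk
  refine ⟨k, hk1, fun a b hab => ?_⟩
  -- no cut contains `u` and not `a`
  have key1 : ∀ m ∈ 𝓗, u ∈ m → a ∈ m := by
    intro m hm hum
    by_contra ham
    have hbm : b ∉ m := by
      intro hbm
      have h1 := hab.2.2 mᶜ (hH.compl m hm) ham (fun h' => h' hbm)
      have h2 : m = kᶜ := by rw [← h1, compl_compl]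
      rw [h2] at hum
      exact hum hku
    have hmk : m ⊆ k := by
      rcases hH.nest m hm k hk1 with h1 | h1 | h1 | h1
      · exact h1
      · exact absurd hku (h1 hum)
      · exact absurd (h1 hbm) hab.2.1
      · exact absurd hab.1 (h1 ham)
    have h3 : m ∈ {h | h ∈ 𝓗 ∧ u ∈ h ∧ z ∉ h} := ⟨hm, hum, fun h' => hkz (hmk h')⟩
    exact ham (hkmin h3 hmk hab.1)
  have key : Eqv 𝓗 u a := by
    intro m hm
    refine ⟨key1 m hm, fun ham => ?_⟩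
    by_contra hum
    exact key1 mᶜ (hH.compl m hm) hum ham
  refine ⟨key, ?_⟩
  unfold dist
  apply Set.ncard_lt_ncard _ (hH.fin u z)
  refine ⟨?_, fun hsub => ?_⟩
  · rintro m ⟨hm, hbm, hzm⟩
    refine ⟨hm, ?_, hzm⟩
    rw [key m hm]
    by_contra ham
    have h1 := (hab.compl hH).2.2 m hm hbm ham
    rw [h1] at hzm
    exact hzm hkz
  · have h1 := hsub (show k ∈ {h | h ∈ 𝓗 ∧ u ∈ h ∧ z ∉ h} from ⟨hk1, hku, hkz⟩)
    exact hab.2.1 h1.2.1

/-- If `z` is on the side of `y`, then `x` is one edge farther. -/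
theorem dist_far (hH : CutSys G V 𝓗) {h : Set V} (hh : h ∈ 𝓗) {x y : V} (hxy : Adj 𝓗 h x y)
    {z : V} (hz : z ∉ h) : dist 𝓗 x z = dist 𝓗 y z + 1 := by
  have h1 : {k | k ∈ 𝓗 ∧ x ∈ k ∧ z ∉ k} = insert h {k | k ∈ 𝓗 ∧ y ∈ k ∧ z ∉ k} := by
    ext k
    constructor
    · rintro ⟨h1, h2, h3⟩
      by_cases hy : y ∈ k
      · exact Or.inr ⟨h1, hy, h3⟩
      · exact Or.inl (hxy.2.2 k h1 h2 hy)
    · rintro (rfl | ⟨h1, h2, h3⟩)
      · exact ⟨hh, hxy.1, hz⟩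
      · refine ⟨h1, ?_, h3⟩
        by_contra hx
        have h4 := (hxy.compl hH).2.2 k h1 h2 hx
        rw [h4] at h3
        exact h3 hz
  unfold dist
  rw [h1]
  apply Set.ncard_insert_of_notMem _ (hH.fin y z)
  rintro ⟨_, h2, _⟩
  exact hxy.2.1 h2

theorem dist_near (hH : CutSys G V 𝓗) {h : Set V} (hh : h ∈ 𝓗) {x y : V} (hxy : Adj 𝓗 h x y)
    {z : V} (hz : z ∈ h) : dist 𝓗 y z = dist 𝓗 x z + 1 :=
  dist_far hH (hH.compl h hh) (hxy.compl hH) (fun h' => h' hz)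

/-- The end points of a translate of an edge are on the same side of the edge, or the translate
is the edge itself. -/
theorem same_side (hH : CutSys G V 𝓗) {h : Set V} (hh : h ∈ 𝓗) {x y : V} (hxy : Adj 𝓗 h x y)
    (g : G) (hg : g • y ∈ h) : g • x ∈ h := by
  by_contra hx
  have h1 := ((hxy.smul hH g).compl hH).2.2 h hh hg hx
  have h2 : g • h = hᶜ := by rw [← compl_compl (g • h), ← h1]
  exact hH.noinv g h hh h2

theorem same_side' (hH : CutSys G V 𝓗) {h : Set V} (hh : h ∈ 𝓗) {x y : V} (hxy : Adj 𝓗 h x y)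
    (g : G) (hg : g ∉ stE G h) (hx : g • x ∈ h) : g • y ∈ h := by
  by_contra hy
  have h1 := (hxy.smul hH g).2.2 h hh hx hy
  exact hg (MulAction.mem_stabilizer_iff.2 h1.symm)

end Act

end Pool.Agent.TreeC
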