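import Mathlib
import Pool.Agent.Lib.MP_8f66f0_al_Tree.Basic

/-! Statements: the decomposition of a group which acts on a tree. -/

set_option autoImplicit false

namespace Pool.Agent.TreeC

open Pool.Agent.Wald Pointwise

/-- One orbit of edges, two orbits of vertices. `A = stV y`, `B = stV x`,
`SA = {g | g • x ∉ h}`, `SB = {g | g • y ∈ h}`,
`len g = (dist x (g • x) + dist y (g • y)) / 2`. -/
def S_am : Prop :=
  ∀ (G V : Type) [Group G] [MulAction G V] (𝓗 : Set (Set V)) (hH : CutSys G V 𝓗) (h : Set V),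
    h ∈ 𝓗 → (∀ k ∈ 𝓗, ∃ g : G, k = g • h ∨ k = (g • h)ᶜ) →
    ∀ x y : V, Adj 𝓗 h x y → (∀ g : G, ¬ Eqv 𝓗 (g • x) y) →
    ∃ T : AmTree G, T.A = stV G hH y ∧ T.B = stV G hH x ∧ T.A ⊓ T.B = stE G h

/-- One orbit of edges, one orbit of vertices. `H = stV y`, `E = stE h`,
`V = {g | g • y ∈ h}`, `len` as above. -/
def S_hnn : Prop :=
  ∀ (G V : Type) [Group G] [MulAction G V] (𝓗 : Set (Set V)) (hH : CutSys G V 𝓗) (h : Set V),
    h ∈ 𝓗 → (∀ k ∈ 𝓗, ∃ g : G, k = g • h ∨ k = (g • h)ᶜ) →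
    ∀ x y : V, Adj 𝓗 h x y → ∀ t : G, Eqv 𝓗 (t • y) x →
    ∃ T : HnnTree G, T.H = stV G hH y ∧ T.E = stE G h

/-- `c` is a colouring of the cuts with `n` colours; it is invariant, and two cuts of the same
colour are in the same orbit, up to complements. -/
def Cov (G : Type) {V : Type} [Group G] [MulAction G V] (𝓗 : Set (Set V)) (c : Set V → ℕ)
    (n : ℕ) : Prop :=
  (∀ h ∈ 𝓗, c h < n) ∧ (∀ h ∈ 𝓗, c hᶜ = c h) ∧ (∀ (g : G), ∀ h ∈ 𝓗, c (g • h) = c h) ∧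
    ∀ h ∈ 𝓗, ∀ k ∈ 𝓗, c h = c k → ∃ g : G, k = g • h ∨ k = (g • h)ᶜ

/-- The stabilizer of `x` with respect to a part `𝓗₁` of the cuts acts on the set `W` of all `v`
with `Eqv 𝓗₁ v x`, and the remaining cuts which are not trivial on `W` are a cut system. -/
def S_restr : Prop :=
  ∀ (G V : Type) [Group G] [MulAction G V] (𝓗 𝓗₁ 𝓗₂ : Set (Set V)) (hH : CutSys G V 𝓗)
    (h1 : CutSys G V 𝓗₁) (_ : CutSys G V 𝓗₂), 𝓗 = 𝓗₁ ∪ 𝓗₂ → Disjoint 𝓗₁ 𝓗₂ → ∀ x : V,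
    ∃ (W : Type) (_ : MulAction (stV G h1 x) W) (_ : Nonempty W) (𝓚 : Set (Set W))
      (hK : CutSys (stV G h1 x) W 𝓚),
      (∀ z : W, ∃ v : V, Nonempty (stV (stV G h1 x) hK z ≃* stV G hH v)) ∧
      (∀ k ∈ 𝓚, ∃ h ∈ 𝓗, Nonempty (stE (stV G h1 x) k ≃* stE G h)) ∧
      ∀ (c : Set V → ℕ) (n : ℕ), Cov G 𝓗₂ c n →
        ∃ c' : Set W → ℕ, Cov (stV G h1 x) 𝓚 c' n

/-- The closure properties used: `P` is the property of the vertex groups, `Q` the property of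
the edge groups. -/
structure Closed (P Q : (G : Type) → [Group G] → Prop) : Prop where
  isoP : ∀ (G G' : Type) [Group G] [Group G'], (G ≃* G') → P G → P G'
  isoQ : ∀ (G G' : Type) [Group G] [Group G'], (G ≃* G') → Q G → Q G'
  am : ∀ (G : Type) [Group G] (T : AmTree G), P T.A → P T.B →
    Q (T.A ⊓ T.B : Subgroup G) → P G
  hnn : ∀ (G : Type) [Group G] (T : HnnTree G), P T.H → Q T.E → P G
  directed : ∀ (G : Type) [Group G] (S : Set (Subgroup G)), S.Nonempty →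
    DirectedOn (· ≤ ·) S → (∀ g : G, ∃ K ∈ S, g ∈ K) → (∀ K ∈ S, P K) → P G

/-- Finitely many orbits of edges: induction on the number of colours. -/
def S_fin : Prop :=
  ∀ (P Q : (G : Type) → [Group G] → Prop), Closed P Q → ∀ (n : ℕ) (G V : Type) [Group G]
    [MulAction G V] [Nonempty V] (𝓗 : Set (Set V)) (hH : CutSys G V 𝓗) (c : Set V → ℕ),
    Cov G 𝓗 c n → (∀ x : V, P (stV G hH x)) → (∀ h ∈ 𝓗, Q (stE G h)) → P G

/-- The tree theorem. -/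
def S_tree : Prop :=
  ∀ (P Q : (G : Type) → [Group G] → Prop), Closed P Q → ∀ (G V : Type) [Group G]
    [MulAction G V] [Nonempty V] (𝓗 : Set (Set V)) (hH : CutSys G V 𝓗),
    (∀ x : V, P (stV G hH x)) → (∀ h ∈ 𝓗, Q (stE G h)) → P G

end Pool.Agent.TreeC
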