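import Mathlib
import Pool.Agent.Lib.MP_8f66f0_al_Tree.SpecT

/-! One orbit of edges and two orbits of vertices: the combinatorics of an amalgam. -/

set_option autoImplicit false

namespace Pool.Agent.TreeC

open Pool.Agent.Wald Pointwise

section AmAux

variable {G V : Type} [Group G] [MulAction G V] {𝓗 : Set (Set V)}

private theorem am_dist_inv (hH : CutSys G V 𝓗) (a : G) (u v : V) :
    dist 𝓗 u (a • v) = dist 𝓗 (a⁻¹ • u) v := by
  have h1 := dist_smul hH a (a⁻¹ • u) v
  rw [smul_inv_smul] at h1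
  exact h1

private theorem am_inv_eqv (hH : CutSys G V 𝓗) {a : G} {u : V} (h : Eqv 𝓗 (a • u) u) :
    Eqv 𝓗 (a⁻¹ • u) u := by
  have h1 := h.smul hH a⁻¹
  rw [inv_smul_smul] at h1
  exact h1.symm

/-- If `a` fixes `y` and moves the edge, then the half tree is disjoint from its translate. -/
private theorem am_disjoint (hH : CutSys G V 𝓗) {h : Set V} (hh : h ∈ 𝓗) {x y : V}
    (hxy : Adj 𝓗 h x y) {a : G} (ha : Eqv 𝓗 (a • y) y) (hah : a • h ≠ h) {z : V} (hz : z ∈ h) :
    a • z ∉ h := by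
  have hmem : ∀ b : G, Eqv 𝓗 (b • y) y → y ∉ b • h := by
    intro b hb h'
    have h1 := (hb (b • h) (hH.smul b h hh)).2 h'
    rw [Set.smul_mem_smul_set_iff] at h1
    exact hxy.2.1 h1
  have hsub : ∀ b : G, Eqv 𝓗 (b • y) y → h ⊆ b • h → b • h = h := by
    intro b hb hs
    exact hxy.2.2 (b • h) (hH.smul b h hh) (hs hxy.1) (hmem b hb)
  rcases hH.nest h hh (a • h) (hH.smul a h hh) with h1 | h1 | h1 | h1
  · exact absurd (hsub a ha h1) hah
  · intro haz
    exact h1 haz (Set.smul_mem_smul_set hz)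
  · exact absurd (h1 hxy.2.1) (hmem a ha)
  · exfalso
    apply hah
    have h2 : a • h ⊆ h := Set.compl_subset_compl.1 h1
    have h3 : h ⊆ a⁻¹ • h := by
      intro w hw
      rw [Set.mem_inv_smul_set_iff]
      exact h2 (Set.smul_mem_smul_set hw)
    have h4 := hsub a⁻¹ (am_inv_eqv hH ha) h3
    calc a • h = a • (a⁻¹ • h) := by rw [h4]
      _ = h := smul_inv_smul a h

/-- One step of a reduced path. -/
private theorem am_step (hH : CutSys G V 𝓗) {h : Set V} (hh : h ∈ 𝓗) {x y : V}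
    (hxy : Adj 𝓗 h x y) {a : G} (ha : Eqv 𝓗 (a • y) y) (hax : ¬ Eqv 𝓗 (a • x) x) {g : G}
    (hg : g • x ∈ h) : (a * g) • x ∉ h ∧
      dist 𝓗 x ((a * g) • x) + dist 𝓗 y ((a * g) • y) =
        dist 𝓗 x (g • x) + dist 𝓗 y (g • y) + 2 := by
  have hah : a • h ≠ h := by
    intro h1
    exact hax ((mem_stE_iff hH hh hxy a).1 (MulAction.mem_stabilizer_iff.2 h1)).1
  have h1 : (a * g) • x ∉ h := by
    rw [mul_smul]
    exact am_disjoint hH hh hxy ha hah hg
  refine ⟨h1, ?_⟩
  have h2 := dist_far hH hh hxy h1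
  have h3 := dist_near hH hh hxy hg
  have h4 : ∀ w : V, dist 𝓗 y ((a * g) • w) = dist 𝓗 y (g • w) := by
    intro w
    rw [mul_smul, am_dist_inv hH a]
    exact dist_congr (am_inv_eqv hH ha) (Eqv.refl _)
  rw [h4 x] at h2
  rw [h4 y]
  omega

/-- The vertex groups generate. -/
private theorem am_gen (hH : CutSys G V 𝓗) {h : Set V}
    (horb : ∀ k ∈ 𝓗, ∃ g : G, k = g • h ∨ k = (g • h)ᶜ) {x y : V} (hxy : Adj 𝓗 h x y)
    (hne : ∀ g : G, ¬ Eqv 𝓗 (g • x) y) (M : Subgroup G) (hA : stV G hH y ≤ M)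
    (hB : stV G hH x ≤ M) :
    ∀ (n : ℕ) (g : G), dist 𝓗 x (g • x) < n ∨ dist 𝓗 y (g • x) < n → g ∈ M := by
  intro n
  induction n with
  | zero => intro g hg; omega
  | succ n ih =>
    have hback : ∀ c g : G, c ∈ M → c⁻¹ * g ∈ M → g ∈ M := by
      intro c g hc hg
      have h1 := M.mul_mem hc hg
      rwa [mul_inv_cancel_left] at h1
    have hdist : ∀ (c g : G) (u : V), dist 𝓗 (c • u) (g • x) = dist 𝓗 u ((c⁻¹ * g) • x) := by
      intro c g u
      rw [mul_smul, am_dist_inv hH c⁻¹, inv_inv]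
    rintro g (hg | hg)
    · by_cases he : Eqv 𝓗 x (g • x)
      · exact hB he.symm
      · obtain ⟨k, hk, hkk⟩ := exists_first hH he
        obtain ⟨c, hc | hc⟩ := horb k hk
        · have h1 : Adj 𝓗 k (c • x) (c • y) := by
            rw [hc]
            exact hxy.smul hH c
          obtain ⟨h2, h3⟩ := hkk _ _ h1
          rw [hdist c g y] at h3
          exact hback c g (hB h2.symm) (ih _ (Or.inr (by omega)))
        · have h1 : Adj 𝓗 k (c • y) (c • x) := by
            rw [hc]
            exact (hxy.smul hH c).compl hH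
          obtain ⟨h2, h3⟩ := hkk _ _ h1
          exfalso
          apply hne c⁻¹
          have h4 := h2.smul hH c⁻¹
          rw [inv_smul_smul] at h4
          exact h4
    · by_cases he : Eqv 𝓗 y (g • x)
      · exact absurd he.symm (hne g)
      · obtain ⟨k, hk, hkk⟩ := exists_first hH he
        obtain ⟨c, hc | hc⟩ := horb k hk
        · have h1 : Adj 𝓗 k (c • x) (c • y) := by
            rw [hc]
            exact hxy.smul hH c
          obtain ⟨h2, h3⟩ := hkk _ _ h1
          exact absurd h2.symm (hne c)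
        · have h1 : Adj 𝓗 k (c • y) (c • x) := by
            rw [hc]
            exact (hxy.smul hH c).compl hH
          obtain ⟨h2, h3⟩ := hkk _ _ h1
          rw [hdist c g x] at h3
          exact hback c g (hA h2.symm) (ih _ (Or.inl (by omega)))

end AmAux

theorem am : S_am := by
  intro G V _ _ 𝓗 hH h hh horb x y hxy hne
  have hE : stV G hH y ⊓ stV G hH x = stE G h := by
    ext g
    rw [mem_stE_iff hH hh hxy g]
    exact and_comm
  have hE' : ∀ g : G, g ∈ stV G hH y ⊓ stV G hH x ↔ g ∈ stE G h := fun g => by rw [hE]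
  have hside : ∀ e ∈ stV G hH y ⊓ stV G hH x, ∀ (g : G) (u : V),
      (e * g) • u ∈ h ↔ g • u ∈ h := by
    intro e he g u
    have h1 : e • h = h := MulAction.mem_stabilizer_iff.1 ((hE' e).1 he)
    have h2 : (e • (g • u) ∈ e • h) ↔ g • u ∈ h := Set.smul_mem_smul_set_iff
    rw [h1] at h2
    rw [mul_smul]
    exact h2
  have hdE : ∀ e ∈ stV G hH y ⊓ stV G hH x, ∀ g : G,
      dist 𝓗 x ((e * g) • x) + dist 𝓗 y ((e * g) • y) =
        dist 𝓗 x (g • x) + dist 𝓗 y (g • y) := by
    intro e he g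
    rw [mul_smul, mul_smul, am_dist_inv hH e, am_dist_inv hH e]
    rw [dist_congr (am_inv_eqv hH he.2) (Eqv.refl (g • x)),
      dist_congr (am_inv_eqv hH he.1) (Eqv.refl (g • y))]
  refine ⟨{
    A := stV G hH y
    B := stV G hH x
    SA := {g | g • x ∉ h}
    SB := {g | g • y ∈ h}
    len := fun g => (dist 𝓗 x (g • x) + dist 𝓗 y (g • y)) / 2
    gen := ?_
    cover := ?_
    disj := ?_
    disjA := ?_
    disjB := ?_
    leftEA := ?_
    leftEB := ?_
    lenE := ?_
    len_one := ?_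
    leftA := ?_
    leftB := ?_
    rightB := ?_
    rightA := ?_ }, rfl, rfl, hE⟩
  · rw [Subgroup.eq_top_iff']
    intro g
    refine am_gen hH horb hxy hne _ ?_ ?_ (dist 𝓗 x (g • x) + 1) g (Or.inl (by omega))
    · intro a ha
      exact Subgroup.subset_closure (Or.inl ha)
    · intro a ha
      exact Subgroup.subset_closure (Or.inr ha)
  · intro g
    by_cases h1 : g • x ∈ h
    · by_cases h2 : g ∈ stE G h
      · exact Or.inl ((hE' g).2 h2)
      · exact Or.inr (Or.inr (same_side' hH hh hxy g h2 h1))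
    · exact Or.inr (Or.inl h1)
  · intro g h1 h2
    exact h1 (same_side hH hh hxy g h2)
  · intro g h1 h2
    exact h1 ((h2.2 h hh).2 hxy.1)
  · intro g h1 h2
    exact hxy.2.1 ((h2.1 h hh).1 h1)
  · intro e he g hg h1
    exact hg ((hside e he g x).1 h1)
  · intro e he g hg
    exact (hside e he g y).2 hg
  · intro e he g
    change (_ + _) / 2 = (_ + _) / 2
    rw [hdE e he g]
  · change (dist 𝓗 x ((1 : G) • x) + dist 𝓗 y ((1 : G) • y)) / 2 = 0
    rw [one_smul, one_smul, dist_of_eqv (Eqv.refl x), dist_of_eqv (Eqv.refl y)]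
  · intro a ha hab g hg
    have hg' : g • x ∈ h := by
      by_contra h1
      exact hg h1
    obtain ⟨h1, h2⟩ := am_step hH hh hxy ha hab hg'
    refine ⟨h1, ?_⟩
    change (_ + _) / 2 = (_ + _) / 2 + 1
    rw [h2]
    omega
  · intro b hb hba g hg
    obtain ⟨h1, h2⟩ := am_step hH (hH.compl h hh) (hxy.compl hH) hb hba (g := g) hg
    have h1' : (b * g) • y ∈ h := by
      by_contra h3
      exact h1 h3
    refine ⟨h1', ?_⟩
    change (_ + _) / 2 = (_ + _) / 2 + 1
    omega
  · intro g hg b hb h1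
    apply hg
    have h2 := (hb : Eqv 𝓗 (b • x) x).smul hH g
    rw [← mul_smul] at h2
    exact (h2 h hh).1 h1
  · intro g hg a ha
    have h2 := (ha : Eqv 𝓗 (a • y) y).smul hH g
    rw [← mul_smul] at h2
    exact (h2 h hh).2 hg

end Pool.Agent.TreeC
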