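import Mathlib
import Pool.Agent.Lib.MP_8f66f0_al_Tree.Basic

/-! Statements: the tree of `GL_2` over a field with a discrete valuation. -/

set_option autoImplicit false

namespace Pool.Agent.TreeC

open Pool.Agent.Wald Pointwise

/-- A valuation with even integral values, written additively. (It is twice a discrete
valuation; so there are no inversions.) -/
structure EVal (F : Type) [Field F] where
  w : F → WithTop ℤ
  top_iff : ∀ x, w x = ⊤ ↔ x = 0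
  mul : ∀ x y, w (x * y) = w x + w y
  add : ∀ x y, min (w x) (w y) ≤ w (x + y)
  even : ∀ x, x ≠ 0 → ∃ n : ℤ, w x = ((2 * n : ℤ) : WithTop ℤ)

/-- The vertices of the tree (with many names for the same vertex): the norm with the orthogonal
basis given by the matrix `u`, and with weights `a`, `b`. -/
@[ext] structure Vx (F : Type) [Field F] where
  u : Matrix.GeneralLinearGroup (Fin 2) F
  a : ℤ
  b : ℤ

instance (F : Type) [Field F] : MulAction (Matrix.GeneralLinearGroup (Fin 2) F) (Vx F) where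
  smul g x := ⟨g * x.u, x.a, x.b⟩
  one_smul x := by
    change (⟨1 * x.u, x.a, x.b⟩ : Vx F) = x
    rw [one_mul]
  mul_smul g h x := by
    change (⟨g * h * x.u, x.a, x.b⟩ : Vx F) = ⟨g * (h * x.u), x.a, x.b⟩
    rw [mul_assoc]

theorem Vx.smul_def {F : Type} [Field F] (g : Matrix.GeneralLinearGroup (Fin 2) F) (x : Vx F) :
    g • x = ⟨g * x.u, x.a, x.b⟩ := rfl

variable {F : Type} [Field F]

/-- The norm of the row vector `φ` at the vertex `x`:
`min (w ((φ u)_0) + a, w ((φ u)_1) + b)`. -/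
def Nm (w : EVal F) (x : Vx F) (φ : Fin 2 → F) : WithTop ℤ :=
  min (w.w (Matrix.vecMul φ (x.u : Matrix (Fin 2) (Fin 2) F) 0) + (x.a : WithTop ℤ))
    (w.w (Matrix.vecMul φ (x.u : Matrix (Fin 2) (Fin 2) F) 1) + (x.b : WithTop ℤ))

/-- The cut `N(e_0 - s e_1) ≥ N(e_1) + n`. -/
def Ct (w : EVal F) (s : F) (n : ℤ) : Set (Vx F) :=
  {x | Nm w x ![0, 1] + (n : WithTop ℤ) ≤ Nm w x ![1, -s]}

/-- The cuts of the tree. -/
def cuts (w : EVal F) : Set (Set (Vx F)) := {h | ∃ (s : F) (n : ℤ), h = Ct w s n ∨ h = (Ct w s n)ᶜ}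

/-- Properties of the norms: `N(φ + ψ) ≥ min`, `N(c φ) = w(c) + N(φ)`, `N(φ) = ⊤ ↔ φ = 0`,
`N_(g x)(φ) = N_x(φ g)`. -/
def S_nm : Prop :=
  ∀ (F : Type) [Field F] (w : EVal F) (x : Vx F),
    (∀ φ ψ, min (Nm w x φ) (Nm w x ψ) ≤ Nm w x (φ + ψ)) ∧
    (∀ (c : F) φ, Nm w x (c • φ) = w.w c + Nm w x φ) ∧
    (∀ φ, Nm w x φ = ⊤ ↔ φ = 0) ∧
    ∀ (g : Matrix.GeneralLinearGroup (Fin 2) F) φ,
      Nm w (g • x) φ = Nm w x (Matrix.vecMul φ (g : Matrix (Fin 2) (Fin 2) F))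

/-- For independent `φ`, `ψ` the condition `N(φ) + n ≤ N(ψ)` is a cut. -/
def S_cut : Prop :=
  ∀ (F : Type) [Field F] (w : EVal F) (φ ψ : Fin 2 → F) (n : ℤ), φ 0 * ψ 1 - φ 1 * ψ 0 ≠ 0 →
    {x : Vx F | Nm w x φ + (n : WithTop ℤ) ≤ Nm w x ψ} ∈ cuts w

/-- No inversions. -/
def S_noinv : Prop :=
  ∀ (F : Type) [Field F] (w : EVal F) (g : Matrix.GeneralLinearGroup (Fin 2) F) (s : F) (n : ℤ),
    g • Ct w s n ≠ (Ct w s n)ᶜ

/-- Nested. -/
def S_nest : Prop :=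
  ∀ (F : Type) [Field F] (w : EVal F) (s s' : F) (n n' : ℤ),
    Ct w s n ⊆ Ct w s' n' ∨ Ct w s' n' ⊆ Ct w s n ∨ Disjoint (Ct w s n) (Ct w s' n')

/-- Finitely many cuts separate two vertices. -/
def S_cfin : Prop :=
  ∀ (F : Type) [Field F] (w : EVal F) (x y : Vx F),
    {h | (∃ (s : F) (n : ℤ), h = Ct w s n) ∧ x ∈ h ∧ y ∉ h}.Finite

/-- Adjacent pairs: `x = (u_s, n, 0)`, `y = (u_s, n - 1, 0)`, `u_s = [[1, s], [0, 1]]`. -/
def S_cadj : Prop :=
  ∀ (F : Type) [Field F] (w : EVal F) (s : F) (n : ℤ), ∃ x y : Vx F,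
    Adj (cuts w) (Ct w s n) x y

/-- The tree. -/
def S_gl : Prop :=
  ∀ (F : Type) [Field F] (w : EVal F),
    CutSys (Matrix.GeneralLinearGroup (Fin 2) F) (Vx F) (cuts w)

/-- The vertex stabilizers. -/
def S_glst : Prop :=
  ∀ (F : Type) [Field F] (w : EVal F) (g : Matrix.GeneralLinearGroup (Fin 2) F) (x : Vx F),
    Eqv (cuts w) (g • x) x →
    w.w (Matrix.det (g : Matrix (Fin 2) (Fin 2) F)) ≤
      w.w (Matrix.trace (g : Matrix (Fin 2) (Fin 2) F)) +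
        w.w (Matrix.trace (g : Matrix (Fin 2) (Fin 2) F))

end Pool.Agent.TreeC
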