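import Mathlib
import Pool.Agent.Lib.MP_8f66f0_al_Tree.SpecG

/-! Statements: discrete valuations of finitely generated domains of characteristic `p`. -/

set_option autoImplicit false

namespace Pool.Agent.TreeC

/-- The valuation of the total degree on the rational functions in `d` variables:
`v f = exp (totalDegree f)`. -/
def S_vinf : Prop :=
  ∀ (k : Type) [Field k] (d : ℕ),
    ∃ v : Valuation (FractionRing (MvPolynomial (Fin d) k)) (WithZero (Multiplicative ℤ)),
      ∀ f : MvPolynomial (Fin d) k, v (algebraMap _ _ f) ≤ 1 → ∃ c : k, f = MvPolynomial.C c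

/-- The valuation ring is a Dedekind domain (a principal ideal domain, perhaps a field). -/
def S_dvr : Prop :=
  ∀ (K : Type) [Field K] (v : Valuation K (WithZero (Multiplicative ℤ))),
    IsPrincipalIdealRing v.integer

/-- Extensions of a discrete valuation to a finite separable extension: an element which is
integral for all of them is integral over the valuation ring. (The integral closure `B` of the
valuation ring is a Dedekind domain with finitely many maximal ideals.) -/
def S_ext : Prop :=
  ∀ (K L : Type) [Field K] [Field L] [Algebra K L] [FiniteDimensional K L]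
    [Algebra.IsSeparable K L] (v : Valuation K (WithZero (Multiplicative ℤ))),
    ∃ (n : ℕ) (w : Fin n → Valuation L (WithZero (Multiplicative ℤ))),
      ∀ a : L, (∀ i, w i a ≤ 1) → ∃ P : Polynomial K, P.Monic ∧ (∀ j, v (P.coeff j) ≤ 1) ∧
        Polynomial.aeval a P = 0

/-- Finitely many discrete valuations of the fraction field of a finitely generated domain `A`
of characteristic `p` detect the constants. Noether normalization, `S_vinf`, `S_ext` for the
separable closure of `k(x_1, …, x_d)` in `Frac A`, a power of Frobenius maps `Frac A` to it; the
minimal polynomial of `a ^ (p ^ n)` has coefficients in `k[x_1, …, x_d]` and in the valuation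
ring. -/
def S_val : Prop :=
  ∀ (A : Type) [CommRing A] [IsDomain A] (p : ℕ) [Fact p.Prime] [CharP A p],
    Algebra.FiniteType ℤ A →
    ∃ (n : ℕ) (w : Fin n → Valuation (FractionRing A) (WithZero (Multiplicative ℤ))),
      ∀ a : A, (∀ i, w i (algebraMap A (FractionRing A) a) ≤ 1) → IsIntegral ℤ a

/-- Twice a discrete valuation. -/
def S_eval : Prop :=
  ∀ (F : Type) [Field F] (v : Valuation F (WithZero (Multiplicative ℤ))),
    ∃ w : EVal F, ∀ x, 0 ≤ w.w x ↔ v x ≤ 1

end Pool.Agent.TreeC
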