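import Mathlib
import Pool.Agent.Lib.MP_8f66f0_al_Tree.SpecT
import Pool.Agent.Lib.MP_8f66f0_al_Tree.SpecV
import Pool.Agent.Lib.MP_8f66f0_al_Hier.Defs
import Pool.Agent.Lib.MP_8f66f0_al_WaldL.KK

/-! Statements: torsion free subgroups of `GL_2` over rings of positive characteristic. -/

set_option autoImplicit false

namespace Pool.Agent.TreeC

open Pool.Agent.Wald Pool.Agent.Hier Pool.Agent.WaldL Pointwise

/-- The property which is passed from vertex groups to the group. -/
def KS (G : Type) [Group G] : Prop := KK G ∧ SS G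

/-- `am_final_n`, `hnn_final_n`, `kk_projSF`, `nilV_of_SS`, `gam`, `ghnn`, `ss_step`, ... -/
def S_closed : Prop := Closed KS KS

/-- The restriction of an action to a group which maps to `G`. -/
def S_comp : Prop :=
  ∀ (G Γ V : Type) [Group G] [Group Γ] [MulAction G V] (ρ : Γ →* G) (𝓗 : Set (Set V)),
    CutSys G V 𝓗 → @CutSys Γ V _ (MulAction.compHom V ρ) 𝓗

/-- Descent along finitely many trees of `GL_2`. -/
def S_desc : Prop :=
  ∀ (Γ : Type) [Group Γ] (n : ℕ) (F : Fin n → Type) [∀ i, Field (F i)]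
    (ρ : ∀ i, Γ →* Matrix.GeneralLinearGroup (Fin 2) (F i)) (w : ∀ i, EVal (F i)),
    (∀ Δ : Subgroup Γ, (∀ g ∈ Δ, ∀ i,
      (w i).w (Matrix.det (ρ i g : Matrix (Fin 2) (Fin 2) (F i))) ≤
        (w i).w (Matrix.trace (ρ i g : Matrix (Fin 2) (Fin 2) (F i))) +
          (w i).w (Matrix.trace (ρ i g : Matrix (Fin 2) (Fin 2) (F i)))) → KS Δ) →
    KS Γ

/-- Torsion free abelian groups. (Directed unions; a finitely generated one which is not trivial
maps onto `ℤ`; tree theorem for `V = ℤ`, or `hnn` of `Closed` directly.) -/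
def S_ab : Prop :=
  ∀ (G : Type) [Group G], (∀ a b : G, a * b = b * a) →
    (∀ (g : G) (n : ℕ), 0 < n → g ^ n = 1 → g = 1) → KS G

/-- Matrices of determinant one with an integral trace have finite order in positive
characteristic: `c ^ 2 = tr(c) c - 1`, so all powers of `c` are in the finite set of all
`a + b c` with `a`, `b` in the finite ring `ℤ[tr c]`. -/
def S_tr : Prop :=
  ∀ (R : Type) [CommRing R] (m : ℕ), 0 < m → (m : R) = 0 →
    ∀ c : Matrix.GeneralLinearGroup (Fin 2) R, Matrix.det (c : Matrix (Fin 2) (Fin 2) R) = 1 →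
      IsIntegral ℤ (Matrix.trace (c : Matrix (Fin 2) (Fin 2) R)) → ∃ n : ℕ, 0 < n ∧ c ^ n = 1

/-- A finitely generated ring `R` with `m = 0`: finitely many homomorphisms to fields with
discrete valuations detect the elements which are integral over `ℤ` (minimal primes, `S_val`). -/
def S_valR : Prop :=
  ∀ (R : Type) [CommRing R] (m : ℕ), 0 < m → (m : R) = 0 → Algebra.FiniteType ℤ R →
    ∃ (n : ℕ) (F : Fin n → Type) (_ : ∀ i, Field (F i)) (f : ∀ i, R →+* F i)
      (w : ∀ i, EVal (F i)), ∀ a : R, (∀ i, 0 ≤ (w i).w (f i a)) → IsIntegral ℤ a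

/-- The theorem. -/
def S_gl2 : Prop :=
  ∀ (R : Type) [CommRing R] (m : ℕ), 0 < m → (m : R) = 0 →
    ∀ Γ : Subgroup (Matrix.GeneralLinearGroup (Fin 2) R),
      (∀ g ∈ Γ, ∀ n : ℕ, 0 < n → g ^ n = 1 → g = 1) → KS Γ

end Pool.Agent.TreeC
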