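import Mathlib
import Pool.Agent.Lib.MP_8f66f0_al_Tree.SpecD
import Pool.Agent.Lib.MP_8f66f0_al_Hier.Top
import Pool.Agent.Lib.MP_8f66f0_al_WaldP.ClassK

/-! The closure properties of the class of the groups with `KK` and `SS`. -/

set_option autoImplicit false

namespace Pool.Agent.TreeC

open Pool.Agent.Wald Pool.Agent.Hier Pool.Agent.WaldL Pool.Agent.WaldP Pool.Agent.Ind

private theorem cl_one : S_One := fun L _ _ hL G _ _ => whTL_one hL G

private theorem cl_kills {G : Type} [Group G] (A : Subgroup G) (hA : KK A) (L : Type)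
    [CommRing L] [IsDomain L] (hL : IsEuc L) {K : Type} [CommGroup K]
    (κ : K1Fun (MonoidAlgebra L G) K) (hκ : WaldL.KillsUnits κ) : WaldL.Kills κ (A : Set G) := by
  have h := WaldL.kills_range A.subtype A.subtype_injective (whT_of_whTL (hA L hL)) κ hκ
  rwa [Subgroup.range_subtype] at h

theorem closed : S_closed where
  isoP := fun G G' _ _ e h => ⟨kk_iso cl_one e h.1, ss_iso e h.2⟩
  isoQ := fun G G' _ _ e h => ⟨kk_iso cl_one e h.1, ss_iso e h.2⟩
  am := by
    intro G _ T hA hB hQ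
    refine ⟨fun L _ _ hL => whTL_of_whT (cl_one L hL _) ?_, ?_⟩
    · intro K _ κ hκ n _ _ M hM
      exact WaldL.am_final_n T (T.A ⊓ T.B : Subgroup G).subtype
        (T.A ⊓ T.B : Subgroup G).subtype_injective (Subgroup.range_subtype _)
        (nilV_of_SS hQ.2 L hL) (kk_projSF psf_all hQ.1 L hL) κ hκ (cl_kills T.A hA.1 L hL κ hκ)
        (cl_kills T.B hB.1 L hL κ hκ) n M hM
    · obtain ⟨O⟩ := gam G T
      exact ss_step T.A T.B O hA.2 hB.2
  hnn := by
    intro G _ T hH hE
    refine ⟨fun L _ _ hL => whTL_of_whT (cl_one L hL _) ?_, ?_⟩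
    · intro K _ κ hκ n _ _ M hM
      exact WaldL.hnn_final_n T T.E.subtype T.E.subtype_injective (Subgroup.range_subtype _)
        (nilV_of_SS hE.2 L hL) (kk_projSF psf_all hE.1 L hL) κ hκ (cl_kills T.H hH.1 L hL κ hκ)
        n M hM
    · obtain ⟨O⟩ := ghnn G T
      exact ss_step T.H T.H (O.mono fun g hg => ((T.memE g).1 hg).1) hH.2 hH.2
  directed := fun G _ S hne hd hS h =>
    ⟨kk_directed cl_one S hne hd hS fun K hK => (h K hK).1,
      ss_directed S hne hd hS fun K hK => (h K hK).2⟩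

end Pool.Agent.TreeC
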