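import Mathlib
import Pool.Agent.Lib.MP_8f66f0_al_Tree.SpecT

set_option autoImplicit false

namespace Pool.Agent.TreeC

open Pool.Agent.Wald Pointwise

theorem fin (h1 : S_am) (h2 : S_hnn) (h3 : S_restr) : S_fin := by
  intro P Q hPQ n
  induction n with
  | zero =>
    intro G V _ _ hV 𝓗 hH c hc hP hQ
    obtain ⟨x⟩ := hV
    have h4 : stV G hH x = ⊤ := by
      rw [eq_top_iff]
      intro g _
      intro k hk
      exact absurd (hc.1 k hk) (Nat.not_lt_zero _)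
    have h5 := hP x
    rw [h4] at h5
    exact hPQ.isoP _ _ Subgroup.topEquiv h5
  | succ n ih =>
    intro G V _ _ hV 𝓗 hH c hc hP hQ
    obtain ⟨hc1, hc2, hc3, hc4⟩ := hc
    by_cases hempty : ∀ h ∈ 𝓗, c h ≠ n
    · exact ih G V 𝓗 hH c ⟨fun h hh => lt_of_le_of_ne (Nat.lt_succ_iff.1 (hc1 h hh)) (hempty h hh),
        hc2, hc3, hc4⟩ hP hQ
    push Not at hempty
    obtain ⟨h0, hh0, hch0⟩ := hempty
    set H1 : Set (Set V) := {h | h ∈ 𝓗 ∧ c h = n} with hH1
    set H2 : Set (Set V) := {h | h ∈ 𝓗 ∧ c h < n} with hH2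
    have s1 : CutSys G V H1 := hH.sub (fun h hh => hh.1)
      (fun h hh => ⟨hH.compl h hh.1, by rw [hc2 h hh.1]; exact hh.2⟩)
      (fun g h hh => ⟨hH.smul g h hh.1, by rw [hc3 g h hh.1]; exact hh.2⟩)
    have s2 : CutSys G V H2 := hH.sub (fun h hh => hh.1)
      (fun h hh => ⟨hH.compl h hh.1, by rw [hc2 h hh.1]; exact hh.2⟩)
      (fun g h hh => ⟨hH.smul g h hh.1, by rw [hc3 g h hh.1]; exact hh.2⟩)
    have hun : 𝓗 = H1 ∪ H2 := by
      ext h
      constructor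
      · intro hh
        rcases Nat.lt_succ_iff_lt_or_eq.1 (hc1 h hh) with h4 | h4
        · exact Or.inr ⟨hh, h4⟩
        · exact Or.inl ⟨hh, h4⟩
      · rintro (hh | hh)
        · exact hh.1
        · exact hh.1
    have hdis : Disjoint H1 H2 := by
      rw [Set.disjoint_left]
      rintro h ⟨_, h4⟩ ⟨_, h5⟩
      omega
    have hcov : Cov G H2 c n := ⟨fun h hh => hh.2, fun h hh => hc2 h hh.1,
      fun g h hh => hc3 g h hh.1, fun h hh k hk hhk => hc4 h hh.1 k hk.1 hhk⟩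
    have hPx : ∀ x : V, P (stV G s1 x) := by
      intro x
      obtain ⟨W, iW, nW, 𝓚, hK, hv, he, hcol⟩ := h3 G V 𝓗 H1 H2 hH s1 s2 hun hdis x
      obtain ⟨c', hc'⟩ := hcol c n hcov
      refine ih (stV G s1 x) W 𝓚 hK c' hc' ?_ ?_
      · intro z
        obtain ⟨v, ⟨e⟩⟩ := hv z
        exact hPQ.isoP _ _ e.symm (hP v)
      · intro k hk
        obtain ⟨h, hh, ⟨e⟩⟩ := he k hk
        exact hPQ.isoQ _ _ e.symm (hQ h hh)
    have hh0' : h0 ∈ H1 := ⟨hh0, hch0⟩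
    have horb : ∀ k ∈ H1, ∃ g : G, k = g • h0 ∨ k = (g • h0)ᶜ := by
      rintro k ⟨hk, hck⟩
      exact hc4 h0 hh0 k hk (by rw [hch0, hck])
    obtain ⟨x, y, hxy⟩ := s1.exists_adj hh0'
    by_cases ht : ∃ t : G, Eqv H1 (t • y) x
    · obtain ⟨t, ht⟩ := ht
      obtain ⟨T, hT1, hT2⟩ := h2 G V H1 s1 h0 hh0' horb x y hxy t ht
      apply hPQ.hnn G T
      · rw [hT1]
        exact hPx y
      · rw [hT2]
        exact hQ h0 hh0
    · have ht' : ∀ g : G, ¬ Eqv H1 (g • x) y := by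
        intro g hg
        apply ht
        refine ⟨g⁻¹, ?_⟩
        have h4 := hg.smul s1 g⁻¹
        rw [inv_smul_smul] at h4
        exact h4.symm
      obtain ⟨T, hT1, hT2, hT3⟩ := h1 G V H1 s1 h0 hh0' horb x y hxy ht'
      apply hPQ.am G T
      · rw [hT1]
        exact hPx y
      · rw [hT2]
        exact hPx x
      · rw [hT3]
        exact hQ h0 hh0

end Pool.Agent.TreeC
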