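import Mathlib
import Pool.Agent.Lib.MP_8f66f0_al_Tree.SpecT

/-! One orbit of edges and one orbit of vertices: the combinatorics of an HNN extension. -/

set_option autoImplicit false

namespace Pool.Agent.TreeC

open Pool.Agent.Wald Pointwise

section HnnAux

variable {G V : Type} [Group G] [MulAction G V] {𝓗 : Set (Set V)}

private theorem hn_dist_inv (hH : CutSys G V 𝓗) (a : G) (u v : V) :
    dist 𝓗 u (a • v) = dist 𝓗 (a⁻¹ • u) v := by
  have h1 := dist_smul hH a (a⁻¹ • u) v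
  rw [smul_inv_smul] at h1
  exact h1

private theorem hn_inv_eqv (hH : CutSys G V 𝓗) {a : G} {u : V} (h : Eqv 𝓗 (a • u) u) :
    Eqv 𝓗 (a⁻¹ • u) u := by
  have h1 := h.smul hH a⁻¹
  rw [inv_smul_smul] at h1
  exact h1.symm

/-- If `a` fixes `y` and moves the edge, then the half tree is disjoint from its translate. -/
private theorem hn_disjoint (hH : CutSys G V 𝓗) {h : Set V} (hh : h ∈ 𝓗) {x y : V}
    (hxy : Adj 𝓗 h x y) {a : G} (ha : Eqv 𝓗 (a • y) y) (hah : a • h ≠ h) {z : V} (hz : z ∈ h) :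
    a • z ∉ h := by
  have hmem : ∀ b : G, Eqv 𝓗 (b • y) y → y ∉ b • h := by
    intro b hb h'
    have h1 := (hb (b • h) (hH.smul b h hh)).2 h'
    rw [Set.smul_mem_smul_set_iff] at h1
    exact hxy.2.1 h1
  have hsub : ∀ b : G, Eqv 𝓗 (b • y) y → h ⊆ b • h → b • h = h := by
    intro b hb hs
    exact hxy.2.2 (b • h) (hH.smul b h hh) (hs hxy.1) (hmem b hb)
  rcases hH.nest h hh (a • h) (hH.smul a h hh) with h1 | h1 | h1 | h1
  · exact absurd (hsub a ha h1) hah
  · intro haz
    exact h1 haz (Set.smul_mem_smul_set hz)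
  · exact absurd (h1 hxy.2.1) (hmem a ha)
  · exfalso
    apply hah
    have h2 : a • h ⊆ h := Set.compl_subset_compl.1 h1
    have h3 : h ⊆ a⁻¹ • h := by
      intro w hw
      rw [Set.mem_inv_smul_set_iff]
      exact h2 (Set.smul_mem_smul_set hw)
    have h4 := hsub a⁻¹ (hn_inv_eqv hH ha) h3
    calc a • h = a • (a⁻¹ • h) := by rw [h4]
      _ = h := smul_inv_smul a h

/-- One step of a reduced path which turns around at `y`. -/
private theorem hn_step (hH : CutSys G V 𝓗) {h : Set V} (hh : h ∈ 𝓗) {x y : V}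
    (hxy : Adj 𝓗 h x y) {a : G} (ha : Eqv 𝓗 (a • y) y) (hax : a ∉ stE G h) {g : G}
    (hg : g • x ∈ h) : (a * g) • x ∉ h ∧
      dist 𝓗 x ((a * g) • x) + dist 𝓗 y ((a * g) • y) =
        dist 𝓗 x (g • x) + dist 𝓗 y (g • y) + 2 := by
  have hah : a • h ≠ h := fun h1 => hax (MulAction.mem_stabilizer_iff.2 h1)
  have h1 : (a * g) • x ∉ h := by
    rw [mul_smul]
    exact hn_disjoint hH hh hxy ha hah hg
  refine ⟨h1, ?_⟩
  have h2 := dist_far hH hh hxy h1
  have h3 := dist_near hH hh hxy hg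
  have h4 : ∀ w : V, dist 𝓗 y ((a * g) • w) = dist 𝓗 y (g • w) := by
    intro w
    rw [mul_smul, hn_dist_inv hH a]
    exact dist_congr (hn_inv_eqv hH ha) (Eqv.refl _)
  rw [h4 x] at h2
  rw [h4 y]
  omega

/-- A translation along the edge maps the half tree into itself. -/
private theorem hn_sub (hH : CutSys G V 𝓗) {h : Set V} (hh : h ∈ 𝓗) {x y : V}
    (hxy : Adj 𝓗 h x y) {u : G} (hu : Eqv 𝓗 (u • y) x) : u • h ⊆ h := by
  have hx : x ∉ u • h := by
    intro h'
    have h1 := (hu (u • h) (hH.smul u h hh)).2 h'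
    rw [Set.smul_mem_smul_set_iff] at h1
    exact hxy.2.1 h1
  have hy : y ∉ u • h := by
    intro h'
    exact hH.noinv u h hh ((hxy.compl hH).2.2 (u • h) (hH.smul u h hh) h' hx)
  rcases hH.nest (u • h) (hH.smul u h hh) h hh with h1 | h1 | h1 | h1
  · exact h1
  · exfalso
    have h2 : u • y ∈ h := (hu h hh).2 hxy.1
    exact h1 (Set.smul_mem_smul_set hxy.1) (same_side hH hh hxy u h2)
  · exact absurd (h1 hy) hxy.2.1
  · exact absurd hxy.1 (h1 hx)

/-- One step of a reduced path along the translation. -/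
private theorem hn_trans (hH : CutSys G V 𝓗) {h : Set V} (hh : h ∈ 𝓗) {x y : V}
    (hxy : Adj 𝓗 h x y) {u : G} (hu : Eqv 𝓗 (u • y) x) {g : G} (hg : g • x ∈ h)
    (hgy : g ∈ stE G h ∨ g • y ∈ h) :
    (u * g) • x ∈ h ∧ (u * g) • y ∈ h ∧
      dist 𝓗 x ((u * g) • x) + dist 𝓗 y ((u * g) • y) =
        dist 𝓗 x (g • x) + dist 𝓗 y (g • y) + 2 := by
  have hs := hn_sub hH hh hxy hu
  have h1 : (u * g) • x ∈ h := by
    rw [mul_smul]
    exact hs (Set.smul_mem_smul_set hg)
  have h2 : (u * g) • y ∈ h := by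
    rw [mul_smul]
    rcases hgy with he | he
    · have h3 : Eqv 𝓗 (g • y) y := ((mem_stE_iff hH hh hxy g).1 he).2
      exact (((h3.smul hH u).trans hu) h hh).2 hxy.1
    · exact hs (Set.smul_mem_smul_set he)
  refine ⟨h1, h2, ?_⟩
  have h4 := dist_near hH hh hxy h2
  have h5 := dist_near hH hh hxy hg
  have h6 : ∀ w : V, dist 𝓗 x ((u * g) • w) = dist 𝓗 y (g • w) := by
    intro w
    rw [mul_smul, ← dist_congr hu (Eqv.refl (u • (g • w))), dist_smul hH]
  rw [h6 y] at h4
  rw [h6 x]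
  omega

/-- The vertex group and the stable letter generate. -/
private theorem hn_gen (hH : CutSys G V 𝓗) {h : Set V}
    (horb : ∀ k ∈ 𝓗, ∃ g : G, k = g • h ∨ k = (g • h)ᶜ) {x y : V} (hxy : Adj 𝓗 h x y)
    {t : G} (ht : Eqv 𝓗 (t • y) x) (M : Subgroup G) (hA : stV G hH y ≤ M) (htM : t ∈ M) :
    ∀ (n : ℕ) (g : G), dist 𝓗 y (g • y) < n → g ∈ M := by
  intro n
  induction n with
  | zero => intro g hg; omega
  | succ n ih =>
    intro g hg
    have hback : ∀ c : G, c ∈ M → c⁻¹ * g ∈ M → g ∈ M := by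
      intro c hc hg
      have h1 := M.mul_mem hc hg
      rwa [mul_inv_cancel_left] at h1
    have hdist : ∀ c : G, dist 𝓗 (c • y) (g • y) = dist 𝓗 y ((c⁻¹ * g) • y) := by
      intro c
      rw [mul_smul, hn_dist_inv hH c⁻¹, inv_inv]
    have hct : ∀ c : G, Eqv 𝓗 ((c * t) • y) (c • x) := by
      intro c
      rw [mul_smul]
      exact ht.smul hH c
    by_cases he : Eqv 𝓗 y (g • y)
    · exact hA he.symm
    · obtain ⟨k, hk, hkk⟩ := exists_first hH he
      obtain ⟨c, hc | hc⟩ := horb k hk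
      · have h1 : Adj 𝓗 k (c • x) (c • y) := by
          rw [hc]
          exact hxy.smul hH c
        obtain ⟨h2, h3⟩ := hkk _ _ h1
        rw [hdist c] at h3
        have h4 : c * t ∈ M := hA ((hct c).trans h2.symm)
        have h5 : c ∈ M := by
          have h6 := M.mul_mem h4 (M.inv_mem htM)
          rwa [mul_inv_cancel_right] at h6
        exact hback c h5 (ih _ (by omega))
      · have h1 : Adj 𝓗 k (c • y) (c • x) := by
          rw [hc]
          exact (hxy.smul hH c).compl hH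
        obtain ⟨h2, h3⟩ := hkk _ _ h1
        rw [← dist_congr (hct c) (Eqv.refl (g • y)), hdist (c * t)] at h3
        exact hback (c * t) (M.mul_mem (hA h2.symm) htM) (ih _ (by omega))

end HnnAux

theorem hnn : S_hnn := by
  intro G V _ _ 𝓗 hH h hh horb x y hxy t ht
  have hE : ∀ g : G, g ∈ stE G h ↔ g ∈ stV G hH x ∧ g ∈ stV G hH y :=
    fun g => mem_stE_iff hH hh hxy g
  have hside : ∀ e ∈ stE G h, ∀ (g : G) (u : V), (e * g) • u ∈ h ↔ g • u ∈ h := by
    intro e he g u
    have h1 : e • h = h := MulAction.mem_stabilizer_iff.1 he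
    have h2 : (e • (g • u) ∈ e • h) ↔ g • u ∈ h := Set.smul_mem_smul_set_iff
    rw [h1] at h2
    rw [mul_smul]
    exact h2
  have hdE : ∀ e ∈ stE G h, ∀ g : G,
      dist 𝓗 x ((e * g) • x) + dist 𝓗 y ((e * g) • y) =
        dist 𝓗 x (g • x) + dist 𝓗 y (g • y) := by
    intro e he g
    rw [mul_smul, mul_smul, hn_dist_inv hH e, hn_dist_inv hH e]
    rw [dist_congr (hn_inv_eqv hH ((hE e).1 he).1) (Eqv.refl (g • x)),
      dist_congr (hn_inv_eqv hH ((hE e).1 he).2) (Eqv.refl (g • y))]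
  -- an element of `E` or beyond the edge moves `x` into `h`
  have hgx : ∀ g : G, g ∈ stE G h ∨ g • y ∈ h → g • x ∈ h := by
    rintro g (hg | hg)
    · exact (((hE g).1 hg).1 h hh).2 hxy.1
    · exact same_side hH hh hxy g hg
  have hEx : ∀ g : G, g ∈ stE G h → g • x ∈ h := fun g hg => hgx g (Or.inl hg)
  have htx : Eqv 𝓗 (t⁻¹ • x) y := by
    have h1 := ht.smul hH t⁻¹
    rw [inv_smul_smul] at h1
    exact h1.symm
  refine ⟨{
    H := stV G hH y
    E := stE G h
    t := t
    V := {g | g • y ∈ h}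
    len := fun g => (dist 𝓗 x (g • x) + dist 𝓗 y (g • y)) / 2
    gen := ?_
    memE := ?_
    rightH := ?_
    one_notMem := ?_
    t_mem := ?_
    edge := ?_
    leftE := ?_
    lenE := ?_
    len_one := ?_
    pp := ?_
    pm := ?_
    mp := ?_
    mm := ?_ }, rfl, rfl⟩
  · rw [Subgroup.eq_top_iff']
    intro g
    refine hn_gen hH horb hxy ht _ ?_ ?_ (dist 𝓗 y (g • y) + 1) g (by omega)
    · intro a ha
      exact Subgroup.subset_closure (Or.inl ha)
    · exact Subgroup.subset_closure (Or.inr rfl)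
  · intro g
    rw [hE g]
    have h1 : t⁻¹ * g * t ∈ stV G hH y ↔ g ∈ stV G hH x := by
      rw [mem_stV, mem_stV, ← eqv_smul_iff hH t, ← mul_smul]
      have h2 : t * (t⁻¹ * g * t) = g * t := by group
      rw [h2, mul_smul]
      constructor
      · intro h3
        exact ((ht.smul hH g).symm.trans h3).trans ht
      · intro h3
        exact ((ht.smul hH g).trans h3).trans ht.symm
    rw [h1]
    exact and_comm
  · intro g hg k hk
    have h2 := (hk : Eqv 𝓗 (k • y) y).smul hH g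
    rw [← mul_smul] at h2
    exact (h2 h hh).2 hg
  · change (1 : G) • y ∉ h
    rw [one_smul]
    exact hxy.2.1
  · exact (ht h hh).2 hxy.1
  · intro g hg
    have h1 : (g * t) • y ∈ h ↔ g • x ∈ h := by
      rw [mul_smul]
      exact (ht.smul hH g) h hh
    change g • y ∈ h ↔ (g * t) • y ∈ h
    rw [h1]
    exact ⟨same_side hH hh hxy g, same_side' hH hh hxy g hg⟩
  · intro e he g hg
    exact (hside e he g y).2 hg
  · intro e he g
    change (_ + _) / 2 = (_ + _) / 2
    rw [hdE e he g]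
  · change (dist 𝓗 x ((1 : G) • x) + dist 𝓗 y ((1 : G) • y)) / 2 = 0
    rw [one_smul, one_smul, dist_of_eqv (Eqv.refl x), dist_of_eqv (Eqv.refl y)]
  · intro k hk g hg
    have hu : Eqv 𝓗 ((t * k) • y) x := by
      rw [mul_smul]
      exact ((hk : Eqv 𝓗 (k • y) y).smul hH t).trans ht
    obtain ⟨-, h2, h3⟩ := hn_trans hH hh hxy hu (hgx g hg) hg
    refine ⟨h2, ?_⟩
    change (_ + _) / 2 = (_ + _) / 2 + 1
    rw [h3]
    omega
  · intro k hk hkE g hg
    have hu : Eqv 𝓗 ((t * k * t⁻¹) • x) x := by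
      rw [mul_smul, mul_smul]
      exact ((((htx.smul hH k).trans hk).smul hH t)).trans ht
    have hkE' : t * k * t⁻¹ ∉ stE G hᶜ := by
      intro h1
      apply hkE
      rw [MulAction.mem_stabilizer_iff] at h1 ⊢
      rw [← compl_compl h, Set.smul_set_compl, h1]
    obtain ⟨h1, h2⟩ := hn_step hH (hH.compl h hh) (hxy.compl hH) hu hkE' (g := g) hg
    have h1' : (t * k * t⁻¹ * g) • y ∈ h := by
      by_contra h3
      exact h1 h3
    refine ⟨h1', ?_⟩
    change (_ + _) / 2 = (_ + _) / 2 + 1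
    omega
  · intro k hk hkE g hg
    obtain ⟨h1, h2⟩ := hn_step hH hh hxy (hk : Eqv 𝓗 (k • y) y) hkE (hgx g hg)
    refine ⟨fun h3 => h1 (same_side hH hh hxy _ h3), fun h3 => h1 (hEx _ h3), ?_⟩
    change (_ + _) / 2 = (_ + _) / 2 + 1
    rw [h2]
    omega
  · intro k hk g hg
    have hu : Eqv 𝓗 ((k * t⁻¹) • x) y := by
      rw [mul_smul]
      exact (htx.smul hH k).trans hk
    have hgE : g ∈ stE G hᶜ ∨ g • x ∈ hᶜ := by
      by_cases h1 : g ∈ stE G h
      · left
        rw [MulAction.mem_stabilizer_iff] at h1 ⊢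
        rw [Set.smul_set_compl, h1]
      · right
        intro h2
        exact hg (same_side' hH hh hxy g h1 h2)
    obtain ⟨h1, h2, h3⟩ := hn_trans hH (hH.compl h hh) (hxy.compl hH) hu (g := g) hg hgE
    refine ⟨h1, fun h4 => h2 (hEx _ h4), ?_⟩
    change (_ + _) / 2 = (_ + _) / 2 + 1
    omega

end Pool.Agent.TreeC
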