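import Mathlib
import Pool.Agent.Lib.MP_8f66f0_al_Tree.SpecT

/-! Restriction of a cut system to a vertex of a part of it. -/

set_option autoImplicit false

namespace Pool.Agent.TreeC

open Pool.Agent.Wald Pointwise

section

variable {G V : Type} [Group G] [MulAction G V] {𝓗 𝓗₁ 𝓗₂ : Set (Set V)}

/-- The vertices in the class of `x` for the cuts in `𝓗₁`. -/
private abbrev RW (𝓗₁ : Set (Set V)) (x : V) : Type := {v : V // Eqv 𝓗₁ v x}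

@[reducible] private def rAct (h1 : CutSys G V 𝓗₁) (x : V) :
    MulAction (stV G h1 x) (RW 𝓗₁ x) where
  smul g v := ⟨(g : G) • v.1, (v.2.smul h1 (g : G)).trans g.2⟩
  one_smul v := Subtype.ext (one_smul G v.1)
  mul_smul g g' v := Subtype.ext (mul_smul (g : G) (g' : G) v.1)

attribute [local instance] rAct

private theorem r_val (h1 : CutSys G V 𝓗₁) (x : V) (g : stV G h1 x) (v : RW 𝓗₁ x) :
    ((g • v : RW 𝓗₁ x) : V) = (g : G) • (v : V) := rfl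

/-- The trace of a cut. -/
private def rTr (𝓗₁ : Set (Set V)) (x : V) (h : Set V) : Set (RW 𝓗₁ x) := {v | v.1 ∈ h}

/-- The nontrivial traces of the cuts in `𝓗₂`. -/
private def rK (𝓗₁ 𝓗₂ : Set (Set V)) (x : V) : Set (Set (RW 𝓗₁ x)) :=
  {k | ∃ h ∈ 𝓗₂, k = rTr 𝓗₁ x h ∧ (rTr 𝓗₁ x h).Nonempty ∧ (rTr 𝓗₁ x h)ᶜ.Nonempty}

private theorem r_compl (x : V) (h : Set V) : rTr 𝓗₁ x hᶜ = (rTr 𝓗₁ x h)ᶜ := rfl

private theorem r_smul (h1 : CutSys G V 𝓗₁) (x : V) (g : stV G h1 x) (h : Set V) :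
    g • rTr 𝓗₁ x h = rTr 𝓗₁ x ((g : G) • h) := by
  ext v
  rw [Set.mem_smul_set_iff_inv_smul_mem]
  show (g : G)⁻¹ • (v : V) ∈ h ↔ (v : V) ∈ (g : G) • h
  rw [Set.mem_smul_set_iff_inv_smul_mem]

private theorem r_same (h2 : CutSys G V 𝓗₂) (hd : Disjoint 𝓗₁ 𝓗₂) (hs : 𝓗₁ ⊆ 𝓗) {h : Set V}
    (hh : h ∈ 𝓗₂) {a b : V} (hab : Adj 𝓗 h a b) (hc : ∀ k ∈ 𝓗, kᶜ ∈ 𝓗) (k : Set V)
    (hk : k ∈ 𝓗₁) : a ∈ k ↔ b ∈ k := by
  constructor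
  · intro ha
    by_contra hb
    have h3 := hab.2.2 k (hs hk) ha hb
    exact Set.disjoint_left.mp hd hk (h3 ▸ hh)
  · intro hb
    by_contra ha
    have h3 := hab.2.2 kᶜ (hc k (hs hk)) ha (fun h' => h' hb)
    have h4 : k = hᶜ := by rw [← h3, compl_compl]
    exact Set.disjoint_left.mp hd hk (h4 ▸ h2.compl h hh)

/-- The end points of a cut of `𝓗₂` which is not trivial on the class of `x` are in this class. -/
private theorem r_claim (hH : CutSys G V 𝓗) (h1 : CutSys G V 𝓗₁) (h2 : CutSys G V 𝓗₂)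
    (hu : 𝓗 = 𝓗₁ ∪ 𝓗₂) (hd : Disjoint 𝓗₁ 𝓗₂) (x : V) {h : Set V} (hh : h ∈ 𝓗₂)
    (hn : (rTr 𝓗₁ x h).Nonempty) (hn' : (rTr 𝓗₁ x h)ᶜ.Nonempty) {a b : V}
    (hab : Adj 𝓗 h a b) : Eqv 𝓗₁ a x ∧ Eqv 𝓗₁ b x := by
  obtain ⟨v, hv⟩ := hn
  obtain ⟨v', hv'⟩ := hn'
  have hvh : v.1 ∈ h := hv
  have hvh' : v'.1 ∉ h := hv'
  have hs : 𝓗₁ ⊆ 𝓗 := by rw [hu]; exact Set.subset_union_left
  have hs2 : 𝓗₂ ⊆ 𝓗 := by rw [hu]; exact Set.subset_union_right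
  have hab' := r_same h2 hd hs hh hab hH.compl
  have hvv : ∀ k ∈ 𝓗₁, v.1 ∈ k ↔ v'.1 ∈ k := v.2.trans v'.2.symm
  have key : ∀ k ∈ 𝓗₁, a ∈ k → v.1 ∈ k := by
    intro k hk ha
    by_contra hvk
    rcases hH.nest h (hs2 hh) k (hs hk) with h3 | h3 | h3 | h3
    · exact hvk (h3 hvh)
    · exact h3 hab.1 ha
    · exact hvk ((hvv k hk).2 (h3 hvh'))
    · exact h3 hab.2.1 ((hab' k hk).1 ha)
  have hav : Eqv 𝓗₁ a v.1 := by
    intro k hk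
    refine ⟨key k hk, fun hvk => ?_⟩
    by_contra ha
    exact key kᶜ (h1.compl k hk) ha hvk
  have hax : Eqv 𝓗₁ a x := hav.trans v.2
  exact ⟨hax, (Eqv.symm (x := a) (y := b) hab').trans hax⟩

private theorem r_uniq (hH : CutSys G V 𝓗) (h1 : CutSys G V 𝓗₁) (h2 : CutSys G V 𝓗₂)
    (hu : 𝓗 = 𝓗₁ ∪ 𝓗₂) (hd : Disjoint 𝓗₁ 𝓗₂) (x : V) {h k : Set V} (hh : h ∈ 𝓗₂)
    (hk : k ∈ 𝓗₂) (hn : (rTr 𝓗₁ x h).Nonempty) (hn' : (rTr 𝓗₁ x h)ᶜ.Nonempty)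
    (he : rTr 𝓗₁ x h = rTr 𝓗₁ x k) : k = h := by
  have hs2 : 𝓗₂ ⊆ 𝓗 := by rw [hu]; exact Set.subset_union_right
  obtain ⟨a, b, hab⟩ := hH.exists_adj (hs2 hh)
  obtain ⟨ha, hb⟩ := r_claim hH h1 h2 hu hd x hh hn hn' hab
  have h3 : (⟨a, ha⟩ : RW 𝓗₁ x) ∈ rTr 𝓗₁ x k := by
    rw [← he]
    exact hab.1
  have h4 : (⟨b, hb⟩ : RW 𝓗₁ x) ∉ rTr 𝓗₁ x k := by
    rw [← he]
    exact hab.2.1
  exact hab.2.2 k (hs2 hk) h3 h4

private theorem r_memL (h1 : CutSys G V 𝓗₁) (x : V) {v : V} (g : G) (hv : Eqv 𝓗₁ v x)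
    (hg : Eqv 𝓗₁ (g • v) x) : g ∈ stV G h1 x :=
  (Eqv.smul h1 hv.symm g).trans hg

private theorem r_cut (hH : CutSys G V 𝓗) (h1 : CutSys G V 𝓗₁) (h2 : CutSys G V 𝓗₂)
    (hu : 𝓗 = 𝓗₁ ∪ 𝓗₂) (hd : Disjoint 𝓗₁ 𝓗₂) (x : V) :
    CutSys (stV G h1 x) (RW 𝓗₁ x) (rK 𝓗₁ 𝓗₂ x) := by
  have hs2 : 𝓗₂ ⊆ 𝓗 := by rw [hu]; exact Set.subset_union_right
  refine ⟨?_, ?_, ?_, ?_, ?_, ?_⟩
  · rintro _ ⟨h, hh, rfl, hn, hn'⟩
    refine ⟨hᶜ, h2.compl h hh, rfl, hn', ?_⟩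
    rw [r_compl, compl_compl]
    exact hn
  · rintro g _ ⟨h, hh, rfl, hn, hn'⟩
    refine ⟨(g : G) • h, h2.smul g h hh, r_smul h1 x g h, ?_, ?_⟩
    · rw [← r_smul h1 x g h]
      exact hn.smul_set
    · rw [← r_smul h1 x g h, ← Set.smul_set_compl]
      exact hn'.smul_set
  · rintro _ ⟨h, hh, rfl, -, -⟩ _ ⟨k, hk, rfl, -, -⟩
    rcases hH.nest h (hs2 hh) k (hs2 hk) with h3 | h3 | h3 | h3
    · exact Or.inl fun v hv => h3 hv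
    · exact Or.inr (Or.inl fun v hv => h3 hv)
    · exact Or.inr (Or.inr (Or.inl fun v hv => h3 hv))
    · exact Or.inr (Or.inr (Or.inr fun v hv => h3 hv))
  · intro v w
    refine ((hH.fin v.1 w.1).image (rTr 𝓗₁ x)).subset ?_
    rintro _ ⟨⟨h, hh, rfl, -, -⟩, hv, hw⟩
    exact ⟨h, ⟨hs2 hh, hv, hw⟩, rfl⟩
  · rintro g _ ⟨h, hh, rfl, hn, hn'⟩ he
    rw [r_smul h1 x g h, ← r_compl] at he
    have h3 := r_uniq hH h1 h2 hu hd x (h := hᶜ) (k := (g : G) • h) (h2.compl h hh)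
      (h2.smul g h hh) hn' (by rw [r_compl, compl_compl]; exact hn) he.symm
    exact hH.noinv g h (hs2 hh) h3
  · rintro _ ⟨h, hh, rfl, hn, hn'⟩
    obtain ⟨a, b, hab⟩ := hH.exists_adj (hs2 hh)
    obtain ⟨ha, hb⟩ := r_claim hH h1 h2 hu hd x hh hn hn' hab
    refine ⟨⟨a, ha⟩, ⟨b, hb⟩, hab.1, hab.2.1, ?_⟩
    rintro _ ⟨k, hk, rfl, -, -⟩ hak hbk
    rw [hab.2.2 k (hs2 hk) hak hbk]

private theorem r_eqv (hu : 𝓗 = 𝓗₁ ∪ 𝓗₂) (x : V) (v w : RW 𝓗₁ x) :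
    Eqv (rK 𝓗₁ 𝓗₂ x) v w ↔ Eqv 𝓗 v.1 w.1 := by
  constructor
  · intro he h hh
    rw [hu] at hh
    rcases hh with hh | hh
    · exact (v.2.trans w.2.symm) h hh
    · by_cases hn : (rTr 𝓗₁ x h).Nonempty
      · by_cases hn' : (rTr 𝓗₁ x h)ᶜ.Nonempty
        · exact he (rTr 𝓗₁ x h) ⟨h, hh, rfl, hn, hn'⟩
        · rw [Set.not_nonempty_iff_eq_empty, Set.compl_empty_iff] at hn'
          have h3 : ∀ u : RW 𝓗₁ x, u.1 ∈ h := by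
            intro u
            have : u ∈ rTr 𝓗₁ x h := by rw [hn']; trivial
            exact this
          exact ⟨fun _ => h3 w, fun _ => h3 v⟩
      · rw [Set.not_nonempty_iff_eq_empty] at hn
        have h3 : ∀ u : RW 𝓗₁ x, u.1 ∉ h := by
          intro u hu'
          have : u ∈ rTr 𝓗₁ x h := hu'
          rw [hn] at this
          exact this
        exact ⟨fun hv => absurd hv (h3 v), fun hw => absurd hw (h3 w)⟩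
  · rintro he _ ⟨h, hh, rfl, -, -⟩
    exact he h (by rw [hu]; exact Or.inr hh)

/-- A subgroup of the subgroup `L`, as a subgroup of `G`. -/
private def r_iso (L M : Subgroup G) (N : Subgroup L) (hN : ∀ g : L, g ∈ N ↔ (g : G) ∈ M)
    (hL : ∀ g ∈ M, g ∈ L) : N ≃* M where
  toFun g := ⟨g.1.1, (hN g.1).1 g.2⟩
  invFun g := ⟨⟨g.1, hL g.1 g.2⟩, (hN _).2 g.2⟩
  left_inv _ := rfl
  right_inv _ := rfl
  map_mul' _ _ := rfl

theorem restr : S_restr := by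
  intro G V _ _ 𝓗 𝓗₁ 𝓗₂ hH h1 h2 hu hd x
  have hs : 𝓗₁ ⊆ 𝓗 := by rw [hu]; exact Set.subset_union_left
  have hs2 : 𝓗₂ ⊆ 𝓗 := by rw [hu]; exact Set.subset_union_right
  refine ⟨RW 𝓗₁ x, rAct h1 x, ⟨⟨x, Eqv.refl x⟩⟩, rK 𝓗₁ 𝓗₂ x, r_cut hH h1 h2 hu hd x,
    fun z => ⟨z.1, ⟨r_iso _ _ _ ?_ ?_⟩⟩, ?_, ?_⟩
  · intro g
    rw [mem_stV, mem_stV, r_eqv hu x, r_val]
  · intro g hg
    exact r_memL h1 x g z.2 ((Eqv.mono hs hg).trans z.2)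
  · rintro _ ⟨h, hh, rfl, hn, hn'⟩
    refine ⟨h, hs2 hh, ⟨r_iso _ _ _ ?_ ?_⟩⟩
    · intro g
      rw [MulAction.mem_stabilizer_iff, MulAction.mem_stabilizer_iff, r_smul]
      constructor
      · intro he
        exact r_uniq hH h1 h2 hu hd x hh (h2.smul g h hh) hn hn' he.symm
      · intro he
        rw [he]
    · intro g hg
      obtain ⟨a, b, hab⟩ := hH.exists_adj (hs2 hh)
      obtain ⟨ha, hb⟩ := r_claim hH h1 h2 hu hd x hh hn hn' hab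
      have h3 := ((mem_stE_iff hH (hs2 hh) hab g).1 hg).1
      exact r_memL h1 x g ha ((Eqv.mono hs h3).trans ha)
  · intro c n hc
    classical
    obtain ⟨c1, c2, c3, c4⟩ := hc
    have hex : ∀ k : Set (RW 𝓗₁ x), ∃ m : ℕ, ∀ h ∈ 𝓗₂, k = rTr 𝓗₁ x h →
        (rTr 𝓗₁ x h).Nonempty → (rTr 𝓗₁ x h)ᶜ.Nonempty → m = c h := by
      intro k
      by_cases hk : ∃ h ∈ 𝓗₂, k = rTr 𝓗₁ x h ∧ (rTr 𝓗₁ x h).Nonempty ∧ (rTr 𝓗₁ x h)ᶜ.Nonempty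
      · obtain ⟨h, hh, rfl, hn, hn'⟩ := hk
        refine ⟨c h, fun h' hh' he _ _ => ?_⟩
        rw [r_uniq hH h1 h2 hu hd x hh hh' hn hn' he]
      · exact ⟨0, fun h hh he hn hn' => absurd ⟨h, hh, he, hn, hn'⟩ hk⟩
    choose c' hc' using hex
    refine ⟨c', ?_, ?_, ?_, ?_⟩
    · rintro _ ⟨h, hh, rfl, hn, hn'⟩
      rw [hc' _ h hh rfl hn hn']
      exact c1 h hh
    · rintro _ ⟨h, hh, rfl, hn, hn'⟩
      rw [hc' _ h hh rfl hn hn', ← r_compl, hc' _ hᶜ (h2.compl h hh) rfl hn'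
        (by rw [r_compl, compl_compl]; exact hn)]
      exact c2 h hh
    · rintro g _ ⟨h, hh, rfl, hn, hn'⟩
      rw [hc' _ h hh rfl hn hn', r_smul, hc' _ ((g : G) • h) (h2.smul g h hh) rfl
        (by rw [← r_smul h1 x g h]; exact hn.smul_set)
        (by rw [← r_smul h1 x g h, ← Set.smul_set_compl]; exact hn'.smul_set)]
      exact c3 g h hh
    · rintro _ ⟨h, hh, rfl, hn, hn'⟩ _ ⟨k, hk, rfl, hm, hm'⟩ he
      rw [hc' _ h hh rfl hn hn', hc' _ k hk rfl hm hm'] at he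
      obtain ⟨g, hg⟩ := c4 h hh k hk he
      obtain ⟨a, b, hab⟩ := hH.exists_adj (hs2 hh)
      obtain ⟨ha, hb⟩ := r_claim hH h1 h2 hu hd x hh hn hn' hab
      have hgn : (rTr 𝓗₁ x (g • h)).Nonempty ∧ (rTr 𝓗₁ x (g • h))ᶜ.Nonempty := by
        rcases hg with rfl | rfl
        · exact ⟨hm, hm'⟩
        · rw [r_compl] at hm hm'
          rw [compl_compl] at hm'
          exact ⟨hm', hm⟩
      have h3 := (r_claim hH h1 h2 hu hd x (h2.smul g h hh) hgn.1 hgn.2 (hab.smul hH g)).1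
      refine ⟨⟨g, r_memL h1 x g ha h3⟩, ?_⟩
      rw [r_smul]
      rcases hg with rfl | rfl
      · exact Or.inl rfl
      · exact Or.inr rfl

end

end Pool.Agent.TreeC
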