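import Mathlib
import Pool.Agent.Lib.MP_8f66f0_al_Tree.SpecT
import Pool.Agent.Lib.MP_8f66f0_al_Tree.SpecV

/-! Statements: classes of groups which are closed under actions on trees; torsion free subgroups
of `GL_2` over rings of positive characteristic. (These replace `S_desc`, `S_ab`, `S_gl2` of
`SpecD`: they are the same statements for an arbitrary class `P` instead of `KS`.) -/

set_option autoImplicit false

namespace Pool.Agent.TreeC

open Pool.Agent.Wald Pointwise

/-- A class of groups which contains the trivial groups and is closed under isomorphism, directed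
unions and actions on trees with all vertex and edge stabilizers in the class. -/
structure TCl (P : (G : Type) → [Group G] → Prop) : Prop where
  triv : ∀ (G : Type) [Group G] [Subsingleton G], P G
  iso : ∀ (G G' : Type) [Group G] [Group G'], (G ≃* G') → P G → P G'
  directed : ∀ (G : Type) [Group G] (S : Set (Subgroup G)), S.Nonempty →
    DirectedOn (· ≤ ·) S → (∀ g : G, ∃ K ∈ S, g ∈ K) → (∀ K ∈ S, P K) → P G
  tree : ∀ (G V : Type) [Group G] [MulAction G V] [Nonempty V] (𝓗 : Set (Set V))
    (hH : CutSys G V 𝓗), (∀ x : V, P (stV G hH x)) → (∀ h ∈ 𝓗, P (stE G h)) → P G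

/-- Descent along finitely many trees of `GL_2`. -/
def S_descP : Prop :=
  ∀ (P : (G : Type) → [Group G] → Prop), TCl P → ∀ (Γ : Type) [Group Γ] (n : ℕ)
    (F : Fin n → Type) [∀ i, Field (F i)]
    (ρ : ∀ i, Γ →* Matrix.GeneralLinearGroup (Fin 2) (F i)) (w : ∀ i, EVal (F i)),
    (∀ Δ : Subgroup Γ, (∀ g ∈ Δ, ∀ i,
      (w i).w (Matrix.det (ρ i g : Matrix (Fin 2) (Fin 2) (F i))) ≤
        (w i).w (Matrix.trace (ρ i g : Matrix (Fin 2) (Fin 2) (F i))) +
          (w i).w (Matrix.trace (ρ i g : Matrix (Fin 2) (Fin 2) (F i)))) → P Δ) →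
    P Γ

/-- Torsion free abelian groups. Directed unions; a finitely generated one which is not trivial
maps onto `ℤ`, tree property for `V = ℤ` and the cuts `{n | n ≥ k}` and their complements. -/
def S_abP : Prop :=
  ∀ (P : (G : Type) → [Group G] → Prop), TCl P → ∀ (G : Type) [Group G],
    (∀ a b : G, a * b = b * a) → (∀ (g : G) (n : ℕ), 0 < n → g ^ n = 1 → g = 1) → P G

/-- The theorem. -/
def S_gl2P : Prop :=
  ∀ (P : (G : Type) → [Group G] → Prop), TCl P → ∀ (R : Type) [CommRing R] (m : ℕ), 0 < m →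
    (m : R) = 0 → ∀ Γ : Subgroup (Matrix.GeneralLinearGroup (Fin 2) R),
      (∀ g ∈ Γ, ∀ n : ℕ, 0 < n → g ^ n = 1 → g = 1) → P Γ

end Pool.Agent.TreeC
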