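import Mathlib
import Pool.Agent.Lib.MP_8f66f0_al_Tree.SpecT
import Pool.Agent.Lib.MP_8f66f0_al_Tree.Basic

/-! The tree theorem: reduction to finitely many orbits of edges. -/

set_option autoImplicit false

namespace Pool.Agent.TreeC

open Pool.Agent.Wald Pointwise

section

variable {G V : Type} [Group G] [MulAction G V] {𝓗 : Set (Set V)}

private theorem sub_cut (hH : CutSys G V 𝓗) (𝓗' : Set (Set V)) (hs : 𝓗' ⊆ 𝓗)
    (hc : ∀ h ∈ 𝓗', hᶜ ∈ 𝓗') (hm : ∀ (g : G), ∀ h ∈ 𝓗', g • h ∈ 𝓗') : CutSys G V 𝓗' where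
  compl := hc
  smul := hm
  nest := fun h hh k hk => hH.nest h (hs hh) k (hs hk)
  fin := fun x y => (hH.fin x y).subset fun _ hh => ⟨hs hh.1, hh.2⟩
  noinv := fun g h hh => hH.noinv g h (hs hh)
  adj := fun h hh => by
    obtain ⟨x, y, h1, h2, h3⟩ := hH.adj h (hs hh)
    exact ⟨x, y, h1, h2, fun k hk => h3 k (hs hk)⟩

variable (G V) in
/-- Two cuts are equivalent if they are in the same orbit, up to complements. -/
private def orb : Setoid (Set V) where
  r := fun h k => ∃ g : G, k = g • h ∨ k = (g • h)ᶜ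
  iseqv :=
    { refl := fun h => ⟨1, Or.inl (one_smul G h).symm⟩
      symm := by
        rintro h k ⟨g, rfl | rfl⟩
        · exact ⟨g⁻¹, Or.inl (inv_smul_smul g h).symm⟩
        · refine ⟨g⁻¹, Or.inr ?_⟩
          rw [Set.smul_set_compl, inv_smul_smul, compl_compl]
      trans := by
        rintro h k l ⟨g, rfl | rfl⟩ ⟨g', rfl | rfl⟩
        · exact ⟨g' * g, Or.inl (mul_smul g' g h).symm⟩
        · exact ⟨g' * g, Or.inr (by rw [mul_smul])⟩
        · exact ⟨g' * g, Or.inr (by rw [mul_smul, Set.smul_set_compl])⟩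
        · exact ⟨g' * g, Or.inl (by rw [mul_smul, Set.smul_set_compl, compl_compl])⟩ }

private theorem orb_compl (h : Set V) :
    (Quotient.mk (orb G V) hᶜ) = Quotient.mk (orb G V) h :=
  Quotient.sound ⟨1, Or.inr (by rw [one_smul, compl_compl])⟩

private theorem orb_smul (g : G) (h : Set V) :
    (Quotient.mk (orb G V) (g • h)) = Quotient.mk (orb G V) h :=
  Quotient.sound ⟨g⁻¹, Or.inl (inv_smul_smul g h).symm⟩

/-- The cuts whose orbits are in a set. -/
private def part (G : Type) {V : Type} [Group G] [MulAction G V] (𝓗 : Set (Set V))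
    (S : Set (Quotient (orb G V))) : Set (Set V) :=
  {h | h ∈ 𝓗 ∧ Quotient.mk (orb G V) h ∈ S}

private theorem part_cut (hH : CutSys G V 𝓗) (S : Set (Quotient (orb G V))) :
    CutSys G V (part G 𝓗 S) := by
  refine sub_cut hH _ (fun h hh => hh.1) (fun h hh => ⟨hH.compl h hh.1, ?_⟩)
    fun g h hh => ⟨hH.smul g h hh.1, ?_⟩
  · rw [orb_compl]
    exact hh.2
  · rw [orb_smul]
    exact hh.2

end

theorem tree (h3 : S_restr) (h4 : S_fin) : S_tree := by
  classical
  intro P Q hPQ G V _ _ _ 𝓗 hH hP hQ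
  obtain ⟨x⟩ : Nonempty V := inferInstance
  let f : Finset (Quotient (orb G V)) → Subgroup G := fun S =>
    stV G (part_cut hH ((S : Set (Quotient (orb G V)))ᶜ)) x
  have hf : Monotone f := by
    intro S T hST g hg k hk
    exact hg k ⟨hk.1, fun h => hk.2 (hST h)⟩
  refine hPQ.directed G (Set.range f) (Set.range_nonempty f) (directedOn_range.2 hf.directed_le)
    (fun g => ?_) ?_
  · -- the union is the whole group
    have hfin : ({h | h ∈ 𝓗 ∧ x ∈ h ∧ g • x ∉ h} ∪ {h | h ∈ 𝓗 ∧ g • x ∈ h ∧ x ∉ h}).Finite :=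
      (hH.fin x (g • x)).union (hH.fin (g • x) x)
    refine ⟨_, ⟨hfin.toFinset.image (Quotient.mk (orb G V)), rfl⟩, ?_⟩
    rintro k ⟨hk1, hk2⟩
    have h5 : k ∉ ({h | h ∈ 𝓗 ∧ x ∈ h ∧ g • x ∉ h} ∪ {h | h ∈ 𝓗 ∧ g • x ∈ h ∧ x ∉ h}) := by
      intro h6
      exact hk2 (Finset.mem_coe.2 (Finset.mem_image.2 ⟨k, hfin.mem_toFinset.2 h6, rfl⟩))
    rw [Set.mem_union, not_or] at h5
    constructor
    · intro h6
      by_contra h7
      exact h5.2 ⟨hk1, h6, h7⟩
    · intro h6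
      by_contra h7
      exact h5.1 ⟨hk1, h6, h7⟩
  · -- finitely many orbits
    rintro _ ⟨S, rfl⟩
    obtain ⟨W, iA, iN, 𝓚, hK, hv, he, hcol⟩ := h3 G V 𝓗 (part G 𝓗 ((S : Set _)ᶜ)) (part G 𝓗 S) hH
      (part_cut hH _) (part_cut hH _) (by
        ext h
        constructor
        · intro hh
          by_cases h5 : Quotient.mk (orb G V) h ∈ (S : Set (Quotient (orb G V)))
          · exact Or.inr ⟨hh, h5⟩
          · exact Or.inl ⟨hh, h5⟩
        · rintro (h5 | h5)
          · exact h5.1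
          · exact h5.1) (by
        rw [Set.disjoint_left]
        rintro h ⟨-, h5⟩ ⟨-, h6⟩
        exact h5 h6) x
    let d : Quotient (orb G V) → ℕ := fun o => if ho : o ∈ S then (S.equivFin ⟨o, ho⟩ : ℕ) else 0
    have hd1 : ∀ o ∈ S, d o < S.card := by
      intro o ho
      change (if ho : o ∈ S then (S.equivFin ⟨o, ho⟩ : ℕ) else 0) < S.card
      rw [dif_pos ho]
      exact (S.equivFin ⟨o, ho⟩).isLt
    have hd2 : ∀ o ∈ S, ∀ o' ∈ S, d o = d o' → o = o' := by
      intro o ho o' ho' h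
      change (if ho : o ∈ S then (S.equivFin ⟨o, ho⟩ : ℕ) else 0) =
        (if ho : o' ∈ S then (S.equivFin ⟨o', ho⟩ : ℕ) else 0) at h
      rw [dif_pos ho, dif_pos ho'] at h
      have := S.equivFin.injective (Fin.ext h)
      exact Subtype.ext_iff.1 this
    obtain ⟨c', hc'⟩ := hcol (fun h => d (Quotient.mk (orb G V) h)) S.card
      ⟨fun h hh => hd1 _ hh.2, fun h _ => congrArg d (orb_compl h),
        fun g h _ => congrArg d (orb_smul g h),
        fun h hh k hk h5 => Quotient.exact (hd2 _ hh.2 _ hk.2 h5)⟩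
    refine h4 P Q hPQ S.card _ W 𝓚 hK c' hc' (fun z => ?_) fun k hk => ?_
    · obtain ⟨v, ⟨e⟩⟩ := hv z
      exact hPQ.isoP _ _ e.symm (hP v)
    · obtain ⟨h, hh, ⟨e⟩⟩ := he k hk
      exact hPQ.isoQ _ _ e.symm (hQ h hh)

end Pool.Agent.TreeC
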