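import Mathlib
import Pool.Agent.Lib.MP_8f66f0_al_Tree.SpecD
import Pool.Agent.Lib.MP_8f66f0_al_Tree.SpecE
import Pool.Agent.Lib.MP_8f66f0_al_Tree.Am
import Pool.Agent.Lib.MP_8f66f0_al_Tree.Hnn
import Pool.Agent.Lib.MP_8f66f0_al_Tree.Restr
import Pool.Agent.Lib.MP_8f66f0_al_Tree.Fin
import Pool.Agent.Lib.MP_8f66f0_al_Tree.Tree
import Pool.Agent.Lib.MP_8f66f0_al_Tree.Closed
import Pool.Agent.Lib.MP_8f66f0_al_HierZ.FinalS

/-! The class of the groups with `KK` and `SS` is closed under actions on trees. -/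

set_option autoImplicit false

namespace Pool.Agent.TreeC

open Pool.Agent.Wald Pool.Agent.Hier Pool.Agent.WaldL

theorem tree_all : S_tree := tree restr (fin am hnn restr)

theorem ks_tcl : TCl KS where
  triv := fun G _ _ => ⟨Hier.kk_of_kc (Hier.kc_triv G), ss_triv G⟩
  iso := closed.isoP
  directed := closed.directed
  tree := fun G V _ _ _ 𝓗 hH hx hh => tree_all KS KS closed G V 𝓗 hH hx hh

end Pool.Agent.TreeC
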