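import Mathlib
import Pool.Agent.Lib.MP_8f66f0_al_Tree.SpecE

/-! Statements: actions on trees (graphs), hereditary classes, extensions. -/

set_option autoImplicit false

namespace Pool.Agent.TreeC

open Pool.Agent.Wald Pointwise

/-- A group which acts on a tree (a graph) without inversions. The cuts are the half trees
`H(a, b)` for adjacent `a`, `b`: the set of all `z` which are reachable from `a` in the graph
without the edge `s(a, b)`. -/
def S_graph : Prop :=
  ∀ (G V : Type) [Group G] [MulAction G V] (T : SimpleGraph V), T.IsTree →
    (∀ (g : G) (v w : V), T.Adj v w → T.Adj (g • v) (g • w)) →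
    (∀ (g : G) (v w : V), T.Adj v w → ¬ (g • v = w ∧ g • w = v)) →
    ∃ (𝓗 : Set (Set V)) (hH : CutSys G V 𝓗), ∀ v : V, stV G hH v = MulAction.stabilizer G v

/-- A class of groups which is closed under isomorphism, subgroups, directed unions and actions
on trees with all vertex stabilizers in the class, and contains the trivial groups. -/
structure TClv (P : (G : Type) → [Group G] → Prop) : Prop where
  triv : ∀ (G : Type) [Group G] [Subsingleton G], P G
  iso : ∀ (G G' : Type) [Group G] [Group G'], (G ≃* G') → P G → P G'
  sub : ∀ (G : Type) [Group G] (H : Subgroup G), P G → P H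
  directed : ∀ (G : Type) [Group G] (S : Set (Subgroup G)), S.Nonempty →
    DirectedOn (· ≤ ·) S → (∀ g : G, ∃ K ∈ S, g ∈ K) → (∀ K ∈ S, P K) → P G
  tree : ∀ (G V : Type) [Group G] [MulAction G V] [Nonempty V] (𝓗 : Set (Set V))
    (hH : CutSys G V 𝓗), (∀ x : V, P (stV G hH x)) → P G

/-- All subgroups are in the class `P`. -/
def Hd (P : (G : Type) → [Group G] → Prop) (G : Type) [Group G] : Prop :=
  ∀ H : Subgroup G, P H

/-- A subgroup `H` of `G` acts on the tree of `G`, with vertex stabilizers `H ∩ G_x` and edge
stabilizers contained in vertex stabilizers (`mem_stE_iff`). -/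
def S_hd : Prop :=
  ∀ (P : (G : Type) → [Group G] → Prop), TCl P → TClv (Hd P)

/-- Every extension of a group of `P` by a subgroup of `Q` is in `P`. -/
def Star (P : (G : Type) → [Group G] → Prop) (Q : Type) [Group Q] : Prop :=
  ∀ (G : Type) [Group G] (f : G →* Q), P f.ker → P G

/-- `G` acts on the tree of `Q` through `f`, the stabilizers are the preimages of the stabilizers
in `Q`. -/
def S_star : Prop :=
  ∀ (P : (G : Type) → [Group G] → Prop), TClv P → TClv (Star P) ∧
    ∀ (G Q : Type) [Group G] [Group Q] (f : G →* Q), Star P f.ker → Star P Q → Star P G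

end Pool.Agent.TreeC
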