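import Mathlib
import Pool.Agent.Lib.MP_8f66f0_al_Tree.Basic
import Pool.Agent.Lib.MP_8f66f0_al_Tree.SpecF

/-! Hereditary classes: all subgroups are in a class which is closed under actions on trees. -/

set_option autoImplicit false

namespace Pool.Agent.TreeC

open Pool.Agent.Wald Pointwise

section

variable {P : (G : Type) → [Group G] → Prop}

/-- A subgroup of a subgroup. -/
private theorem hd_le (hP : TCl P) {G : Type} [Group G] {K L : Subgroup G} (hKL : K ≤ L)
    (hL : Hd P L) : P K :=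
  hP.iso _ _ (Subgroup.subgroupOfEquivOfLe hKL) (hL (K.subgroupOf L))

/-- A group which embeds into a subgroup. -/
private theorem hd_map (hP : TCl P) {G Γ : Type} [Group G] [Group Γ] (f : Γ →* G)
    (hf : Function.Injective f) (K : Subgroup Γ) {L : Subgroup G} (hKL : K.map f ≤ L)
    (hL : Hd P L) : P K :=
  hP.iso _ _ (K.equivMapOfInjective f hf).symm (hd_le hP hKL hL)

private theorem hd_iso (hP : TCl P) {G G' : Type} [Group G] [Group G'] (e : G ≃* G')
    (h : Hd P G) : Hd P G' := by
  intro H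
  have e1 : (H.map e.symm.toMonoidHom) ≃* H :=
    (H.equivMapOfInjective e.symm.toMonoidHom e.symm.injective).symm
  exact hP.iso _ _ e1 (h _)

private theorem hd_sub (hP : TCl P) {G : Type} [Group G] (H : Subgroup G) (h : Hd P G) :
    Hd P H := by
  intro K
  exact hP.iso _ _ (K.equivMapOfInjective H.subtype H.subtype_injective).symm (h _)

private theorem hd_directed (hP : TCl P) {G : Type} [Group G] (S : Set (Subgroup G))
    (hne : S.Nonempty) (hdir : DirectedOn (· ≤ ·) S) (hcov : ∀ g : G, ∃ K ∈ S, g ∈ K)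
    (hS : ∀ K ∈ S, Hd P K) : Hd P G := by
  intro H
  refine hP.directed H ((fun K : Subgroup G => K.subgroupOf H) '' S) (hne.image _) ?_ ?_ ?_
  · rintro _ ⟨K, hK, rfl⟩ _ ⟨L, hL, rfl⟩
    obtain ⟨M, hM, h1, h2⟩ := hdir K hK L hL
    exact ⟨M.subgroupOf H, ⟨M, hM, rfl⟩, Subgroup.comap_mono h1, Subgroup.comap_mono h2⟩
  · intro g
    obtain ⟨K, hK, hg⟩ := hcov g
    exact ⟨K.subgroupOf H, ⟨K, hK, rfl⟩, Subgroup.mem_subgroupOf.2 hg⟩
  · rintro _ ⟨K, hK, rfl⟩
    refine hd_map hP H.subtype H.subtype_injective (K.subgroupOf H) (L := K) ?_ (hS K hK)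
    rintro _ ⟨g, hg, rfl⟩
    exact hg

/-- The cut system of a subgroup. -/
private theorem hd_cutSys {G V : Type} [Group G] [MulAction G V] {𝓗 : Set (Set V)}
    (hH : CutSys G V 𝓗) (H : Subgroup G) : CutSys H V 𝓗 where
  compl := hH.compl
  smul := fun g h hh => hH.smul (g : G) h hh
  nest := hH.nest
  fin := hH.fin
  noinv := fun g h hh => hH.noinv (g : G) h hh
  adj := hH.adj

private theorem hd_tree (hP : TCl P) {G V : Type} [Group G] [MulAction G V] [Nonempty V]
    (𝓗 : Set (Set V)) (hH : CutSys G V 𝓗) (h : ∀ x : V, Hd P (stV G hH x)) : Hd P G := by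
  intro H
  refine hP.tree H V 𝓗 (hd_cutSys hH H) (fun x => ?_) (fun k hk => ?_)
  · refine hd_map hP H.subtype H.subtype_injective _ (L := stV G hH x) ?_ (h x)
    rintro _ ⟨g, hg, rfl⟩
    exact hg
  · obtain ⟨x, y, hxy⟩ := hH.exists_adj hk
    refine hd_map hP H.subtype H.subtype_injective _ (L := stV G hH x) ?_ (h x)
    rintro _ ⟨g, hg, rfl⟩
    have hg' : (g : G) ∈ stE G k := hg
    exact ((mem_stE_iff hH hk hxy (g : G)).1 hg').1

end

theorem hd : S_hd := by
  intro P hP
  exact
    { triv := fun G _ _ H => hP.triv H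
      iso := fun G G' _ _ e h => hd_iso hP e h
      sub := fun G _ H h => hd_sub hP H h
      directed := fun G _ S hne hdir hcov hS => hd_directed hP S hne hdir hcov hS
      tree := fun G V _ _ _ 𝓗 hH h => hd_tree hP 𝓗 hH h }

end Pool.Agent.TreeC
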