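import Mathlib
import Pool.Agent.Lib.MP_8f66f0_al_Tree.SpecV

/-! The valuation ring of a discrete valuation is a principal ideal ring. -/

set_option autoImplicit false

namespace Pool.Agent.TreeC

open WithZero

private theorem dvr_le {K : Type} [Field K] (v : Valuation K (WithZero (Multiplicative ℤ)))
    (x y : v.integer) (hx : x ≠ 0) (hy : y ≠ 0)
    (h : ¬ (-(log (v (y : K)))).toNat < (-(log (v (x : K)))).toNat) :
    v (y : K) ≤ v (x : K) := by
  have hx1 : v (x : K) ≠ 0 := by
    rw [Valuation.ne_zero_iff]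
    exact fun h0 => hx (Subtype.ext h0)
  have hy1 : v (y : K) ≠ 0 := by
    rw [Valuation.ne_zero_iff]
    exact fun h0 => hy (Subtype.ext h0)
  have hx2 : log (v (x : K)) ≤ 0 := by
    rw [← log_one, log_le_log hx1 one_ne_zero]
    exact x.2
  have hy2 : log (v (y : K)) ≤ 0 := by
    rw [← log_one, log_le_log hy1 one_ne_zero]
    exact y.2
  rw [← log_le_log hy1 hx1]
  omega

theorem dvr : S_dvr := by
  intro K _ v
  refine ⟨fun I => ?_⟩
  by_cases hI : I = ⊥
  · rw [hI]
    exact bot_isPrincipal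
  obtain ⟨x0, hx0I, hx00⟩ := Submodule.exists_mem_ne_zero_of_ne_bot hI
  obtain ⟨x, ⟨hxI, hx0⟩, hmin⟩ := WellFounded.has_min
    (measure (fun x : v.integer => (-(log (v (x : K)))).toNat)).wf
    {x | x ∈ I ∧ x ≠ 0} ⟨x0, hx0I, hx00⟩
  refine ⟨x, le_antisymm ?_ ?_⟩
  · intro y hyI
    by_cases hy0 : y = 0
    · rw [hy0]
      exact Submodule.zero_mem _
    have h1 : v (y : K) ≤ v (x : K) := dvr_le v x y hx0 hy0 (hmin y ⟨hyI, hy0⟩)
    have hxK : (x : K) ≠ 0 := fun h0 => hx0 (Subtype.ext h0)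
    have hx1 : v (x : K) ≠ 0 := by
      rw [Valuation.ne_zero_iff]
      exact hxK
    have h2 : v ((y : K) / (x : K)) ≤ 1 := by
      rw [map_div₀]
      exact div_le_one_of_le₀ h1 zero_le
    rw [Submodule.mem_span_singleton]
    refine ⟨⟨(y : K) / (x : K), h2⟩, ?_⟩
    apply Subtype.ext
    change (y : K) / (x : K) * (x : K) = (y : K)
    exact div_mul_cancel₀ _ hxK
  · rw [Submodule.span_le]
    intro y hy
    rw [Set.mem_singleton_iff] at hy
    rw [hy]
    exact hxI

end Pool.Agent.TreeC
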