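import Pool.Agent.Lib.MP_8f66f0_al_Tree.SpecE
import Pool.Agent.Lib.MP_8f66f0_al_Tree.Basic

/-! Torsion free abelian groups: actions on the line. (helper73) -/

set_option autoImplicit false

namespace Pool.Agent.TreeC

open Pool.Agent.Wald Pointwise

/-- The half lines. -/
private def HL : Set (Set ℤ) := {h | ∃ k : ℤ, h = Set.Ici k ∨ h = Set.Iio k}

section Act

variable {G : Type} [Group G]

/-- The action by translations. -/
private abbrev tact (f : G →* Multiplicative ℤ) : MulAction G ℤ where
  smul g n := Multiplicative.toAdd (f g) + n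
  one_smul n := by
    change Multiplicative.toAdd (f 1) + n = n
    rw [map_one, toAdd_one, zero_add]
  mul_smul a b n := by
    change Multiplicative.toAdd (f (a * b)) + n =
      Multiplicative.toAdd (f a) + (Multiplicative.toAdd (f b) + n)
    rw [map_mul, toAdd_mul, add_assoc]

private theorem smul_Ici (f : G →* Multiplicative ℤ) (g : G) (k : ℤ) :
    letI := tact f
    g • Set.Ici k = Set.Ici (Multiplicative.toAdd (f g) + k) := by
  letI := tact f
  ext n
  rw [Set.mem_smul_set_iff_inv_smul_mem]
  change k ≤ Multiplicative.toAdd (f g⁻¹) + n ↔ Multiplicative.toAdd (f g) + k ≤ n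
  rw [map_inv, toAdd_inv]
  constructor <;> intro h <;> omega

private theorem smul_Iio (f : G →* Multiplicative ℤ) (g : G) (k : ℤ) :
    letI := tact f
    g • Set.Iio k = Set.Iio (Multiplicative.toAdd (f g) + k) := by
  letI := tact f
  ext n
  rw [Set.mem_smul_set_iff_inv_smul_mem]
  change Multiplicative.toAdd (f g⁻¹) + n < k ↔ n < Multiplicative.toAdd (f g) + k
  rw [map_inv, toAdd_inv]
  constructor <;> intro h <;> omega

private theorem Ici_ne_Iio (a b : ℤ) : Set.Ici a ≠ Set.Iio b := by
  intro h
  have h1 : max a b ∈ Set.Ici a := Set.mem_Ici.2 (le_max_left a b)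
  rw [h, Set.mem_Iio] at h1
  exact absurd (le_max_right a b) (not_le.2 h1)

private theorem cut_line (f : G →* Multiplicative ℤ) : @CutSys G ℤ _ (tact f) HL := by
  letI := tact f
  refine ⟨?_, ?_, ?_, ?_, ?_, ?_⟩
  · rintro h ⟨k, rfl | rfl⟩
    · exact ⟨k, Or.inr (Set.compl_Ici)⟩
    · exact ⟨k, Or.inl (Set.compl_Iio)⟩
  · rintro g h ⟨k, rfl | rfl⟩
    · exact ⟨_, Or.inl (smul_Ici f g k)⟩
    · exact ⟨_, Or.inr (smul_Iio f g k)⟩
  · rintro h ⟨k, rfl | rfl⟩ l ⟨m, rfl | rfl⟩
    · rcases le_total k m with h | h
      · right; right; right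
        rw [Set.compl_Ici, Set.compl_Ici]
        exact Set.Iio_subset_Iio h
      · left
        exact Set.Ici_subset_Ici.2 h
    · rcases le_total k m with h | h
      · right; right; left
        rw [Set.compl_Ici]
        exact Set.Iio_subset_Iio h
      · right; left
        rw [Set.compl_Iio]
        exact Set.Ici_subset_Ici.2 h
    · rcases le_total k m with h | h
      · right; left
        rw [Set.compl_Ici]
        exact Set.Iio_subset_Iio h
      · right; right; left
        rw [Set.compl_Iio]
        exact Set.Ici_subset_Ici.2 h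
    · rcases le_total k m with h | h
      · left
        exact Set.Iio_subset_Iio h
      · right; right; right
        rw [Set.compl_Iio, Set.compl_Iio]
        exact Set.Ici_subset_Ici.2 h
  · intro x y
    refine (((Set.finite_Icc (min x y) (max x y)).image Set.Ici).union
      ((Set.finite_Icc (min x y) (max x y)).image Set.Iio)).subset ?_
    rintro h ⟨⟨k, rfl | rfl⟩, hx, hy⟩
    · left
      rw [Set.mem_Ici] at hx hy
      refine ⟨k, Set.mem_Icc.2 ⟨?_, ?_⟩, rfl⟩ <;> omega
    · right
      rw [Set.mem_Iio] at hx hy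
      refine ⟨k, Set.mem_Icc.2 ⟨?_, ?_⟩, rfl⟩ <;> omega
  · rintro g h ⟨k, rfl | rfl⟩
    · rw [smul_Ici f g k, Set.compl_Ici]
      exact Ici_ne_Iio _ _
    · rw [smul_Iio f g k, Set.compl_Iio]
      exact (Ici_ne_Iio _ _).symm
  · rintro h ⟨k, rfl | rfl⟩
    · refine ⟨k, k - 1, Set.mem_Ici.2 le_rfl, fun h => ?_, ?_⟩
      · rw [Set.mem_Ici] at h
        omega
      · rintro l ⟨m, rfl | rfl⟩ h1 h2
        · rw [Set.mem_Ici] at h1 h2
          have : m = k := by omega
          rw [this]
        · rw [Set.mem_Iio] at h1 h2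
          omega
    · refine ⟨k - 1, k, Set.mem_Iio.2 (by omega), fun h => ?_, ?_⟩
      · rw [Set.mem_Iio] at h
        omega
      · rintro l ⟨m, rfl | rfl⟩ h1 h2
        · rw [Set.mem_Ici] at h1 h2
          omega
        · rw [Set.mem_Iio] at h1 h2
          have : m = k := by omega
          rw [this]

private theorem stV_line (f : G →* Multiplicative ℤ) (x : ℤ) :
    @stV G ℤ _ (tact f) HL (cut_line f) x = f.ker := by
  letI := tact f
  ext g
  rw [mem_stV, MonoidHom.mem_ker]
  constructor
  · intro h
    have h1 := (h (Set.Ici x) ⟨x, Or.inl rfl⟩).2 (Set.mem_Ici.2 le_rfl)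
    have h2 := (h (Set.Iio (x + 1)) ⟨x + 1, Or.inr rfl⟩).2 (Set.mem_Iio.2 (by omega))
    change x ≤ Multiplicative.toAdd (f g) + x at h1
    change Multiplicative.toAdd (f g) + x < x + 1 at h2
    have h3 : Multiplicative.toAdd (f g) = 0 := by omega
    exact h3
  · intro h
    have h1 : g • x = x := by
      change Multiplicative.toAdd (f g) + x = x
      rw [h, toAdd_one, zero_add]
    rw [h1]
    exact Eqv.refl x

private theorem stE_line (f : G →* Multiplicative ℤ) {h : Set ℤ} (hh : h ∈ HL) :
    @stE G ℤ _ (tact f) h = f.ker := by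
  letI := tact f
  ext g
  rw [MulAction.mem_stabilizer_iff, MonoidHom.mem_ker]
  obtain ⟨k, rfl | rfl⟩ := hh
  · rw [smul_Ici f g k]
    constructor
    · intro h
      have h1 : Multiplicative.toAdd (f g) + k = k := Set.Ici_injective h
      have h3 : Multiplicative.toAdd (f g) = 0 := by omega
      exact h3
    · intro h
      rw [h, toAdd_one, zero_add]
  · rw [smul_Iio f g k]
    constructor
    · intro h
      have h1 : Multiplicative.toAdd (f g) + k = k := Set.Iio_injective h
      have h3 : Multiplicative.toAdd (f g) = 0 := by omega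
      exact h3
    · intro h
      rw [h, toAdd_one, zero_add]

end Act

/-- A homomorphism to the integers: the kernel is the only stabilizer. -/
theorem TCl.ext_int {P : (G : Type) → [Group G] → Prop} (hP : TCl P) {G : Type} [Group G]
    (f : G →* Multiplicative ℤ) (hK : P f.ker) : P G := by
  letI := tact f
  refine hP.tree G ℤ HL (cut_line f) (fun x => ?_) (fun h hh => ?_)
  · rw [stV_line f x]
    exact hK
  · rw [stE_line f hh]
    exact hK

/-- Groups with finitely many homomorphisms to the integers which are jointly injective. -/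
private theorem ab_joint {P : (G : Type) → [Group G] → Prop} (hP : TCl P) (n : ℕ) :
    ∀ (G : Type) [Group G] (f : Fin n → G →* Multiplicative ℤ),
      (∀ g, (∀ i, f i g = 1) → g = 1) → P G := by
  induction n with
  | zero =>
    intro G _ f h
    haveI : Subsingleton G :=
      ⟨fun a b => (h a fun i => i.elim0).trans (h b fun i => i.elim0).symm⟩
    exact hP.triv G
  | succ n ih =>
    intro G _ f h
    refine hP.ext_int (f (Fin.last n)) (ih _ (fun i => (f i.castSucc).comp
      (f (Fin.last n)).ker.subtype) ?_)
    intro g hg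
    apply Subtype.ext
    refine h g fun i => ?_
    induction i using Fin.lastCases with
    | last => exact g.2
    | cast i => exact hg i

private theorem ab_fg {P : (G : Type) → [Group G] → Prop} (hP : TCl P) {G : Type} [CommGroup G]
    (ht : ∀ (g : G) (n : ℕ), 0 < n → g ^ n = 1 → g = 1) (hG : Group.FG G) : P G := by
  have h1 : Module.Finite ℤ (Additive G) :=
    Module.Finite.iff_addGroup_fg.2 (GroupFG.iff_add_fg.1 hG)
  have h2 : Module.IsTorsionFree ℤ (Additive G) := by
    refine ⟨fun r hr x y hxy => ?_⟩
    have h0 : r ≠ 0 := hr.ne_zero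
    have h3 : r • (x - y) = 0 := by
      rw [smul_sub, sub_eq_zero]
      exact hxy
    have h4 : r.natAbs • (x - y) = 0 := by
      rcases Int.natAbs_eq r with h | h
      · rw [h, natCast_zsmul] at h3
        exact h3
      · rw [h, neg_smul, natCast_zsmul, neg_eq_zero] at h3
        exact h3
    have h5 : x - y = 0 := ht (x - y).toMul r.natAbs (Int.natAbs_pos.2 h0) h4
    exact sub_eq_zero.1 h5
  have h3 : Module.Free ℤ (Additive G) := Module.free_of_finite_type_torsion_free'
  let b := Module.finBasis ℤ (Additive G)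
  refine ab_joint hP _ G (fun i => AddMonoidHom.toMultiplicativeRight
    ((b.coord i : Additive G →ₗ[ℤ] ℤ) : Additive G →+ ℤ)) ?_
  intro g hg
  have h4 : (Additive.ofMul g) = 0 := by
    apply b.repr.injective
    rw [map_zero]
    ext i
    exact hg i
  exact h4

private theorem ab_comm {P : (G : Type) → [Group G] → Prop} (hP : TCl P) {G : Type} [CommGroup G]
    (ht : ∀ (g : G) (n : ℕ), 0 < n → g ^ n = 1 → g = 1) : P G := by
  refine hP.directed G {K | K.FG} ⟨⊥, Subgroup.FG.bot⟩ ?_ ?_ ?_
  · intro K hK L hL
    exact ⟨K ⊔ L, Subgroup.FG.sup hK hL, le_sup_left, le_sup_right⟩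
  · intro g
    exact ⟨Subgroup.zpowers g, ⟨{g}, by
      rw [Finset.coe_singleton, Subgroup.zpowers_eq_closure]⟩, Subgroup.mem_zpowers g⟩
  · intro K hK
    refine ab_fg hP (fun g n hn hg => ?_) ((Group.fg_iff_subgroup_fg K).2 hK)
    apply Subtype.ext
    refine ht g n hn ?_
    have := congrArg Subtype.val hg
    exact this

theorem abP : S_abP := by
  intro P hP G _ hc ht
  letI : CommGroup G := { (inferInstance : Group G) with mul_comm := hc }
  exact ab_comm hP ht

end Pool.Agent.TreeC
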