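import Mathlib
import Pool.Agent.Lib.MP_8f66f0_al_Tree.Basic
import Pool.Agent.Lib.MP_8f66f0_al_Tree.SpecG

/-! The cuts of the tree of `GL_2` are nested; adjacent pairs. -/

set_option autoImplicit false

namespace Pool.Agent.TreeC

open Pool.Agent.Wald Pointwise

variable {F : Type} [Field F]

theorem nest_w_zero (w : EVal F) : w.w 0 = ⊤ := (w.top_iff 0).2 rfl

theorem nest_w_one (w : EVal F) : w.w 1 = 0 := by
  have h1 : w.w 1 = w.w 1 + w.w 1 := by
    have := w.mul 1 1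
    rwa [one_mul] at this
  have h2 : w.w 1 ≠ ⊤ := fun h => one_ne_zero ((w.top_iff 1).1 h)
  obtain ⟨z, hz⟩ := WithTop.ne_top_iff_exists.1 h2
  rw [← hz] at h1 ⊢
  have h3 : z = z + z := by exact_mod_cast h1
  have h4 : z = 0 := by omega
  rw [h4]
  rfl

theorem nest_w_neg_one (w : EVal F) : w.w (-1) = 0 := by
  have h1 : w.w (-1) + w.w (-1) = 0 := by
    rw [← w.mul, neg_mul_neg, one_mul, nest_w_one]
  have h2 : w.w (-1) ≠ ⊤ := fun h => by
    have := (w.top_iff (-1)).1 h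
    exact one_ne_zero (neg_eq_zero.1 this)
  obtain ⟨z, hz⟩ := WithTop.ne_top_iff_exists.1 h2
  rw [← hz] at h1 ⊢
  have h3 : z + z = 0 := by exact_mod_cast h1
  have h4 : z = 0 := by omega
  rw [h4]
  rfl

theorem nest_w_neg (w : EVal F) (a : F) : w.w (-a) = w.w a := by
  rw [← neg_one_mul, w.mul, nest_w_neg_one, zero_add]

theorem nest_e1 (h : S_nm) (w : EVal F) (x : Vx F) : ∃ z : ℤ, Nm w x ![0, 1] = (z : WithTop ℤ) := by
  have h2 : Nm w x ![0, 1] ≠ ⊤ := fun h' => by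
    have h3 := ((h F w x).2.2.1 _).1 h'
    have h4 := congrFun h3 1
    simp at h4
  obtain ⟨z, hz⟩ := WithTop.ne_top_iff_exists.1 h2
  exact ⟨z, hz.symm⟩

/-- If `w (s - s') ≥ n` and `n ≤ n'` then `Ct s' n' ⊆ Ct s n`. -/
theorem nest_Ct_subset (h : S_nm) (w : EVal F) {s s' : F} {n n' : ℤ} (hn : n ≤ n')
    (hs : (n : WithTop ℤ) ≤ w.w (s - s')) : Ct w s' n' ⊆ Ct w s n := by
  intro x hx
  have hx' : Nm w x ![0, 1] + (n' : WithTop ℤ) ≤ Nm w x ![1, -s'] := hx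
  change Nm w x ![0, 1] + (n : WithTop ℤ) ≤ Nm w x ![1, -s]
  have e : (![1, -s] : Fin 2 → F) = ![1, -s'] + (s' - s) • ![0, 1] := by
    ext i
    fin_cases i
    · simp
    · simp
      ring
  have h1 := (h F w x).1 ![1, -s'] ((s' - s) • ![0, 1])
  rw [← e, (h F w x).2.1] at h1
  refine le_trans (le_min ?_ ?_) h1
  · refine le_trans ?_ hx'
    gcongr
    exact_mod_cast hn
  · rw [← neg_sub s s', nest_w_neg, add_comm]
    gcongr

/-- If `x` is in `Ct s n` and in `Ct s' n'`, `n ≤ n'`, then `w (s - s') ≥ n`. -/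
theorem nest_Ct_meet (h : S_nm) (w : EVal F) {s s' : F} {n n' : ℤ} (hn : n ≤ n') {x : Vx F}
    (hx : x ∈ Ct w s n) (hx' : x ∈ Ct w s' n') : (n : WithTop ℤ) ≤ w.w (s - s') := by
  have h1 : Nm w x ![0, 1] + (n : WithTop ℤ) ≤ Nm w x ![1, -s] := hx
  have h2 : Nm w x ![0, 1] + (n' : WithTop ℤ) ≤ Nm w x ![1, -s'] := hx'
  have e : ((s - s') • ![0, 1] : Fin 2 → F) = ![1, -s'] + (-1 : F) • ![1, -s] := by
    ext i
    fin_cases i
    · simp
    · simp
      ring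
  have h3 := (h F w x).1 ![1, -s'] ((-1 : F) • ![1, -s])
  rw [← e, (h F w x).2.1, (h F w x).2.1, nest_w_neg_one, zero_add] at h3
  obtain ⟨z, hz⟩ := nest_e1 h w x
  rw [hz] at h1 h2 h3
  have h4 : (z : WithTop ℤ) + (n : WithTop ℤ) ≤ w.w (s - s') + (z : WithTop ℤ) := by
    refine le_trans (le_min ?_ h1) h3
    refine le_trans ?_ h2
    gcongr
    exact_mod_cast hn
  rw [add_comm] at h4
  exact (WithTop.add_le_add_iff_right (WithTop.coe_ne_top)).1 h4

theorem nest (h : S_nm) : S_nest := by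
  intro F _ w s s' n n'
  by_cases hd : Disjoint (Ct w s n) (Ct w s' n')
  · exact Or.inr (Or.inr hd)
  · obtain ⟨x, hx, hx'⟩ := Set.not_disjoint_iff.1 hd
    rcases le_total n n' with hn | hn
    · exact Or.inr (Or.inl (nest_Ct_subset h w hn (nest_Ct_meet h w hn hx hx')))
    · exact Or.inl (nest_Ct_subset h w hn (nest_Ct_meet h w hn hx' hx))

/-- The matrix `[[1, s], [0, 1]]`. -/
private noncomputable def nestU (s : F) : Matrix.GeneralLinearGroup (Fin 2) F :=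
  Matrix.GeneralLinearGroup.mkOfDetNeZero !![1, s; 0, 1] (by simp)

private theorem nest_Nm_e1 (w : EVal F) (s : F) (k : ℤ) :
    Nm w ⟨nestU s, k, 0⟩ ![0, 1] = 0 := by
  unfold Nm nestU
  have e0 : Matrix.vecMul (![0, 1] : Fin 2 → F) (!![1, s; 0, 1] : Matrix (Fin 2) (Fin 2) F) 0
      = 0 := by
    simp [Matrix.vecMul, dotProduct]
  have e1 : Matrix.vecMul (![0, 1] : Fin 2 → F) (!![1, s; 0, 1] : Matrix (Fin 2) (Fin 2) F) 1
      = 1 := by
    simp [Matrix.vecMul, dotProduct]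
  change min (w.w (Matrix.vecMul (![0, 1] : Fin 2 → F)
    (!![1, s; 0, 1] : Matrix (Fin 2) (Fin 2) F) 0) + (k : WithTop ℤ))
    (w.w (Matrix.vecMul (![0, 1] : Fin 2 → F)
    (!![1, s; 0, 1] : Matrix (Fin 2) (Fin 2) F) 1) + ((0 : ℤ) : WithTop ℤ)) = 0
  rw [e0, e1, nest_w_zero, nest_w_one]
  simp

private theorem nest_Nm_psi (w : EVal F) (s s' : F) (k : ℤ) :
    Nm w ⟨nestU s, k, 0⟩ ![1, -s'] = min (k : WithTop ℤ) (w.w (s - s')) := by
  have e0 : Matrix.vecMul (![1, -s'] : Fin 2 → F) (!![1, s; 0, 1] : Matrix (Fin 2) (Fin 2) F) 0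
      = 1 := by
    simp [Matrix.vecMul, dotProduct]
  have e1 : Matrix.vecMul (![1, -s'] : Fin 2 → F) (!![1, s; 0, 1] : Matrix (Fin 2) (Fin 2) F) 1
      = s - s' := by
    simp [Matrix.vecMul, dotProduct]
    ring
  change min (w.w (Matrix.vecMul (![1, -s'] : Fin 2 → F)
    (!![1, s; 0, 1] : Matrix (Fin 2) (Fin 2) F) 0) + (k : WithTop ℤ))
    (w.w (Matrix.vecMul (![1, -s'] : Fin 2 → F)
    (!![1, s; 0, 1] : Matrix (Fin 2) (Fin 2) F) 1) + ((0 : ℤ) : WithTop ℤ)) = _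
  rw [e0, e1, nest_w_one]
  simp

private theorem nest_mem (w : EVal F) (s s' : F) (k n : ℤ) :
    (⟨nestU s, k, 0⟩ : Vx F) ∈ Ct w s' n ↔ n ≤ k ∧ (n : WithTop ℤ) ≤ w.w (s - s') := by
  change Nm w ⟨nestU s, k, 0⟩ ![0, 1] + (n : WithTop ℤ) ≤ Nm w ⟨nestU s, k, 0⟩ ![1, -s'] ↔ _
  rw [nest_Nm_e1, nest_Nm_psi, zero_add, le_min_iff]
  norm_cast

theorem cadj (h : S_nm) (_ : S_nest) : S_cadj := by
  intro F _ w s n
  refine ⟨⟨nestU s, n, 0⟩, ⟨nestU s, n - 1, 0⟩, ?_, ?_, ?_⟩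
  · rw [nest_mem, sub_self, nest_w_zero]
    exact ⟨le_rfl, le_top⟩
  · rw [nest_mem]
    intro h'
    have := h'.1
    omega
  · rintro k ⟨s', n', rfl | rfl⟩ hx hy
    · rw [nest_mem] at hx hy
      have hn : n' = n := by
        have h1 := hx.1
        have h2 : ¬ n' ≤ n - 1 := fun h' => hy ⟨h', hx.2⟩
        omega
      subst hn
      apply Set.Subset.antisymm
      · exact nest_Ct_subset h w le_rfl hx.2
      · refine nest_Ct_subset h w le_rfl ?_
        rw [← neg_sub, nest_w_neg]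
        exact hx.2
    · exfalso
      rw [Set.mem_compl_iff, nest_mem] at hx
      rw [Set.mem_compl_iff, not_not, nest_mem] at hy
      exact hx ⟨by omega, hy.2⟩

end Pool.Agent.TreeC
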