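import Mathlib
import Pool.Agent.Lib.MP_8f66f0_al_Tree.Nest

/-! Finitely many cuts of the tree of `GL_2` separate two vertices. -/

set_option autoImplicit false

namespace Pool.Agent.TreeC

open Pool.Agent.Wald Pointwise

variable {F : Type} [Field F]

/-- The upper bound for `n` if `x` is in `Ct s n`. -/
private theorem cfin_upper (h : S_nm) (w : EVal F) (x : Vx F) :
    ∃ N : ℤ, ∀ (s : F) (n : ℤ), x ∈ Ct w s n → n ≤ N := by
  obtain ⟨z, hz⟩ := nest_e1 h w x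
  have hdet : w.w (Matrix.det (x.u : Matrix (Fin 2) (Fin 2) F)) ≠ ⊤ := fun h' =>
    Matrix.GeneralLinearGroup.det_ne_zero x.u ((w.top_iff _).1 h')
  obtain ⟨D, hD⟩ := WithTop.ne_top_iff_exists.1 hdet
  refine ⟨D + x.a + x.b - 2 * z, fun s n hx => ?_⟩
  have h1 : Nm w x ![0, 1] + (n : WithTop ℤ) ≤ Nm w x ![1, -s] := hx
  rw [hz] at h1
  -- the four entries
  set M : Matrix (Fin 2) (Fin 2) F := (x.u : Matrix (Fin 2) (Fin 2) F) with hM
  have v0 : Matrix.vecMul (![0, 1] : Fin 2 → F) M 0 = M 1 0 := by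
    simp [Matrix.vecMul, dotProduct, Fin.sum_univ_two]
  have v1 : Matrix.vecMul (![0, 1] : Fin 2 → F) M 1 = M 1 1 := by
    simp [Matrix.vecMul, dotProduct, Fin.sum_univ_two]
  have q0 : Matrix.vecMul (![1, -s] : Fin 2 → F) M 0 = M 0 0 - s * M 1 0 := by
    simp [Matrix.vecMul, dotProduct, Fin.sum_univ_two]
    ring
  have q1 : Matrix.vecMul (![1, -s] : Fin 2 → F) M 1 = M 0 1 - s * M 1 1 := by
    simp [Matrix.vecMul, dotProduct, Fin.sum_univ_two]
    ring
  have hz' : min (w.w (M 1 0) + (x.a : WithTop ℤ)) (w.w (M 1 1) + (x.b : WithTop ℤ)) =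
      (z : WithTop ℤ) := by
    rw [← hz]
    unfold Nm
    rw [← hM, v0, v1]
  have hq : (z : WithTop ℤ) + (n : WithTop ℤ) ≤
      min (w.w (M 0 0 - s * M 1 0) + (x.a : WithTop ℤ))
        (w.w (M 0 1 - s * M 1 1) + (x.b : WithTop ℤ)) := by
    refine le_trans h1 (le_of_eq ?_)
    unfold Nm
    rw [← hM, q0, q1]
  have a1 : (z : WithTop ℤ) ≤ w.w (M 1 0) + (x.a : WithTop ℤ) := hz' ▸ min_le_left _ _
  have a2 : (z : WithTop ℤ) ≤ w.w (M 1 1) + (x.b : WithTop ℤ) := hz' ▸ min_le_right _ _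
  have b1 := le_trans hq (min_le_left _ _)
  have b2 := le_trans hq (min_le_right _ _)
  have e : Matrix.det M = M 1 1 * (M 0 0 - s * M 1 0) + -(M 1 0 * (M 0 1 - s * M 1 1)) := by
    rw [Matrix.det_fin_two]
    ring
  have c := w.add (M 1 1 * (M 0 0 - s * M 1 0)) (-(M 1 0 * (M 0 1 - s * M 1 1)))
  rw [← e, nest_w_neg, w.mul, w.mul, ← hD] at c
  have key : ((2 * z + n - x.a - x.b : ℤ) : WithTop ℤ) ≤
      min (w.w (M 1 1) + w.w (M 0 0 - s * M 1 0)) (w.w (M 1 0) + w.w (M 0 1 - s * M 1 1)) := by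
    have gen : ∀ (p q : WithTop ℤ) (α β : ℤ), (z : WithTop ℤ) ≤ p + (β : WithTop ℤ) →
        (z : WithTop ℤ) + (n : WithTop ℤ) ≤ q + (α : WithTop ℤ) →
        ((2 * z + n - α - β : ℤ) : WithTop ℤ) ≤ p + q := by
      intro p q α β hp hq
      induction p with
      | top => rw [top_add]; exact le_top
      | coe p =>
        induction q with
        | top => rw [add_top]; exact le_top
        | coe q =>
          have h1 : z ≤ p + β := by exact_mod_cast hp
          have h2 : z + n ≤ q + α := by exact_mod_cast hq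
          have h3 : 2 * z + n - α - β ≤ p + q := by omega
          exact_mod_cast h3
    refine le_min (gen _ _ x.a x.b a2 b1) ?_
    have := gen _ _ x.b x.a a1 b2
    rwa [show 2 * z + n - x.b - x.a = 2 * z + n - x.a - x.b by ring] at this
  have h5 := le_trans key c
  have h6 : 2 * z + n - x.a - x.b ≤ D := by exact_mod_cast h5
  omega

/-- `x` is in `Ct 0 n` for small `n`. -/
private theorem cfin_lower (h : S_nm) (w : EVal F) (x : Vx F) :
    ∃ N : ℤ, ∀ n : ℤ, n ≤ N → x ∈ Ct w 0 n := by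
  obtain ⟨z, hz⟩ := nest_e1 h w x
  have h2 : Nm w x ![1, -0] ≠ ⊤ := fun h' => by
    have h3 := ((h F w x).2.2.1 _).1 h'
    have h4 := congrFun h3 0
    simp at h4
  obtain ⟨y, hy⟩ := WithTop.ne_top_iff_exists.1 h2
  refine ⟨y - z, fun n hn => ?_⟩
  change Nm w x ![0, 1] + (n : WithTop ℤ) ≤ Nm w x ![1, -0]
  rw [hz, ← hy]
  have : z + n ≤ y := by omega
  exact_mod_cast this

private theorem cfin_eq (h : S_nm) (w : EVal F) {s s' : F} {n : ℤ} {x : Vx F}
    (hx : x ∈ Ct w s n) (hx' : x ∈ Ct w s' n) : Ct w s n = Ct w s' n :=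
  Set.Subset.antisymm (nest_Ct_subset h w le_rfl (nest_Ct_meet h w le_rfl hx' hx))
    (nest_Ct_subset h w le_rfl (nest_Ct_meet h w le_rfl hx hx'))

theorem cfin (h : S_nm) (_ : S_nest) : S_cfin := by
  intro F _ w x y
  obtain ⟨N, hN⟩ := cfin_upper h w x
  obtain ⟨Lx, hLx⟩ := cfin_lower h w x
  obtain ⟨Ly, hLy⟩ := cfin_lower h w y
  have hsub : {k | (∃ (s : F) (n : ℤ), k = Ct w s n) ∧ x ∈ k ∧ y ∉ k} ⊆
      ⋃ n ∈ Set.Icc (min Lx Ly) N, {k | (∃ s : F, k = Ct w s n) ∧ x ∈ k} := by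
    rintro k ⟨⟨s, n, rfl⟩, hx, hy⟩
    have h1 := hN s n hx
    have h2 : min Lx Ly ≤ n := by
      by_contra hlt
      have hlt' : n < min Lx Ly := not_le.1 hlt
      have hx0 : x ∈ Ct w 0 n := hLx n (le_trans hlt'.le (min_le_left _ _))
      have hy0 : y ∈ Ct w 0 n := hLy n (le_trans hlt'.le (min_le_right _ _))
      rw [← cfin_eq h w hx hx0] at hy0
      exact hy hy0
    exact Set.mem_biUnion (Set.mem_Icc.2 ⟨h2, h1⟩) ⟨⟨s, rfl⟩, hx⟩
  refine Set.Finite.subset (Set.Finite.biUnion (Set.finite_Icc _ _) fun n _ => ?_) hsub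
  apply Set.Subsingleton.finite
  rintro k ⟨⟨s, rfl⟩, hx⟩ k' ⟨⟨s', rfl⟩, hx'⟩
  exact cfin_eq h w hx hx'

end Pool.Agent.TreeC
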