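import Mathlib
import Pool.Agent.Lib.MP_8f66f0_al_Tree.SpecG

set_option autoImplicit false

namespace Pool.Agent.TreeC

open Pool.Agent.Wald Pointwise

private lemma fin_w {F : Type} [Field F] (w : EVal F) {z : F} (hz : z ≠ 0) :
    ∃ i : ℤ, w.w z = (i : WithTop ℤ) := by
  obtain ⟨n, hn⟩ := w.even z hz
  exact ⟨_, hn⟩

private lemma fin_N (h : S_nm) {F : Type} [Field F] (w : EVal F) (x : Vx F) {φ : Fin 2 → F}
    (hφ : φ ≠ 0) : ∃ i : ℤ, Nm w x φ = (i : WithTop ℤ) := by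
  have h1 : Nm w x φ ≠ ⊤ := fun h' => hφ (((h F w x).2.2.1 φ).1 h')
  obtain ⟨i, hi⟩ := WithTop.ne_top_iff_exists.1 h1
  exact ⟨i, hi.symm⟩

private lemma ne1 {F : Type} [Field F] : (![0, 1] : Fin 2 → F) ≠ 0 := by
  intro h
  have := congrFun h 1
  simp at this

private lemma ne2 {F : Type} [Field F] (s : F) : (![1, s] : Fin 2 → F) ≠ 0 := by
  intro h
  have := congrFun h 0
  simp at this

theorem cut (h : S_nm) : S_cut := by
  intro F _ w φ ψ n hdet
  have hsm : ∀ (x : Vx F) (c : F) (v : Fin 2 → F), Nm w x (c • v) = w.w c + Nm w x v :=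
    fun x c v => (h F w x).2.1 c v
  by_cases hr : ψ 0 = 0
  · -- `r = 0`
    rw [hr, mul_zero, sub_zero] at hdet
    have hp : φ 0 ≠ 0 := fun h' => hdet (by rw [h', zero_mul])
    have ht : ψ 1 ≠ 0 := fun h' => hdet (by rw [h', mul_zero])
    obtain ⟨i, hi⟩ := fin_w w hp
    obtain ⟨j, hj⟩ := fin_w w ht
    have h1 : φ = φ 0 • ![1, -(-(φ 1) / φ 0)] := by
      ext a
      fin_cases a
      · simp
      · simp
        field_simp
    have h2 : ψ = ψ 1 • ![0, 1] := by
      ext a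
      fin_cases a
      · simp [hr]
      · simp
    refine ⟨-(φ 1) / φ 0, j - i - n + 1, Or.inr ?_⟩
    ext x
    rw [Set.mem_setOf_eq, Set.mem_compl_iff]
    change _ ↔ ¬ (Nm w x ![0, 1] + ((j - i - n + 1 : ℤ) : WithTop ℤ) ≤
      Nm w x ![1, -(-(φ 1) / φ 0)])
    rw [h2, hsm, hj]
    conv_lhs => rw [h1, hsm, hi]
    obtain ⟨A, hA⟩ := fin_N h w x (ne2 (-(-(φ 1) / φ 0)))
    obtain ⟨B, hB⟩ := fin_N h w x (ne1 (F := F))
    rw [hA, hB]
    simp only [← WithTop.coe_add, WithTop.coe_le_coe]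
    omega
  by_cases hp : φ 0 = 0
  · rw [hp, zero_mul, zero_sub] at hdet
    have hq : φ 1 ≠ 0 := fun h' => hdet (by rw [h', zero_mul, neg_zero])
    obtain ⟨i, hi⟩ := fin_w w hq
    obtain ⟨j, hj⟩ := fin_w w hr
    have h1 : ψ = ψ 0 • ![1, -(-(ψ 1) / ψ 0)] := by
      ext a
      fin_cases a
      · simp
      · simp
        field_simp
    have h2 : φ = φ 1 • ![0, 1] := by
      ext a
      fin_cases a
      · simp [hp]
      · simp
    refine ⟨-(ψ 1) / ψ 0, i + n - j, Or.inl ?_⟩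
    ext x
    rw [Set.mem_setOf_eq]
    change _ ↔ (Nm w x ![0, 1] + ((i + n - j : ℤ) : WithTop ℤ) ≤
      Nm w x ![1, -(-(ψ 1) / ψ 0)])
    rw [h2, hsm, hi]
    conv_lhs => rw [h1, hsm, hj]
    obtain ⟨A, hA⟩ := fin_N h w x (ne2 (-(-(ψ 1) / ψ 0)))
    obtain ⟨B, hB⟩ := fin_N h w x (ne1 (F := F))
    rw [hA, hB]
    simp only [← WithTop.coe_add, WithTop.coe_le_coe]
    omega
  -- the general case
  obtain ⟨i, hi⟩ := fin_w w hp
  obtain ⟨j, hj⟩ := fin_w w hr
  set al : F := -(φ 1) / φ 0 with hal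
  set be : F := -(ψ 1) / ψ 0 with hbe
  have h1 : φ = φ 0 • ![1, -al] := by
    ext a
    fin_cases a
    · simp
    · simp [hal]
      field_simp
  have h2 : ψ = ψ 0 • ![1, -be] := by
    ext a
    fin_cases a
    · simp
    · simp [hbe]
      field_simp
  have hne : al - be ≠ 0 := by
    intro h'
    apply hdet
    have h3 : al = be := sub_eq_zero.1 h'
    have h4 : φ 1 = -(φ 0 * al) := by
      rw [hal]
      field_simp
    have h5 : ψ 1 = -(ψ 0 * be) := by
      rw [hbe]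
      field_simp
    rw [h4, h5, h3]
    ring
  obtain ⟨l, hl⟩ := fin_w w hne
  have hl' : w.w (-(al - be)) = (l : WithTop ℤ) := by
    have h3 : w.w (-1 : F) = 0 := by
      obtain ⟨m, hm⟩ := fin_w w (neg_ne_zero.2 (one_ne_zero (α := F)))
      obtain ⟨m', hm'⟩ := fin_w w (one_ne_zero (α := F))
      have h4 := w.mul 1 1
      rw [mul_one, hm', ← WithTop.coe_add, WithTop.coe_inj] at h4
      have h5 := w.mul (-1) (-1)
      rw [neg_mul_neg, mul_one, hm', hm, ← WithTop.coe_add, WithTop.coe_inj] at h5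
      rw [hm]
      have h6 : m = 0 := by omega
      rw [h6]
      rfl
    rw [← neg_one_mul, w.mul, h3, zero_add, hl]
  -- the three norms
  have three : ∀ x : Vx F, ∃ A B C : ℤ, Nm w x ![1, -al] = (A : WithTop ℤ) ∧
      Nm w x ![1, -be] = (B : WithTop ℤ) ∧ Nm w x ![0, 1] = (C : WithTop ℤ) ∧
      min A B ≤ l + C ∧ min A (l + C) ≤ B ∧ min B (l + C) ≤ A := by
    intro x
    obtain ⟨A, hA⟩ := fin_N h w x (ne2 (-al))
    obtain ⟨B, hB⟩ := fin_N h w x (ne2 (-be))
    obtain ⟨C, hC⟩ := fin_N h w x (ne1 (F := F))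
    have e1 : (![1, -be] : Fin 2 → F) = ![1, -al] + (al - be) • ![0, 1] := by
      ext a
      fin_cases a
      · simp
      · simp
        ring
    have e2 : (![1, -al] : Fin 2 → F) = ![1, -be] + (-(al - be)) • ![0, 1] := by
      ext a
      fin_cases a
      · simp
      · simp
        ring
    have e3 : (al - be) • (![0, 1] : Fin 2 → F) = ![1, -be] + (-1 : F) • ![1, -al] := by
      ext a
      fin_cases a
      · simp
      · simp
        ring
    have hm1 : w.w (-1 : F) = 0 := by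
      obtain ⟨m, hm⟩ := fin_w w (neg_ne_zero.2 (one_ne_zero (α := F)))
      obtain ⟨m', hm'⟩ := fin_w w (one_ne_zero (α := F))
      have h4 := w.mul 1 1
      rw [mul_one, hm', ← WithTop.coe_add, WithTop.coe_inj] at h4
      have h5 := w.mul (-1) (-1)
      rw [neg_mul_neg, mul_one, hm', hm, ← WithTop.coe_add, WithTop.coe_inj] at h5
      rw [hm]
      have h6 : m = 0 := by omega
      rw [h6]
      rfl
    have u1 := (h F w x).1 (![1, -al]) ((al - be) • ![0, 1])
    rw [← e1, hsm, hA, hB, hC, hl, ← WithTop.coe_add, ← WithTop.coe_min, WithTop.coe_le_coe] at u1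
    have u2 := (h F w x).1 (![1, -be]) ((-(al - be)) • ![0, 1])
    rw [← e2, hsm, hA, hB, hC, hl', ← WithTop.coe_add, ← WithTop.coe_min,
      WithTop.coe_le_coe] at u2
    have u3 := (h F w x).1 (![1, -be]) ((-1 : F) • ![1, -al])
    rw [← e3, hsm, hsm, hA, hB, hC, hl, hm1, zero_add, ← WithTop.coe_add, ← WithTop.coe_min,
      WithTop.coe_le_coe] at u3
    exact ⟨A, B, C, hA, hB, hC, by rw [min_comm]; exact u3, u1, u2⟩
  by_cases hpos : 0 < i + n - j
  · refine ⟨be, l + (i + n - j), Or.inl ?_⟩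
    ext x
    rw [Set.mem_setOf_eq]
    change _ ↔ (Nm w x ![0, 1] + ((l + (i + n - j) : ℤ) : WithTop ℤ) ≤ Nm w x ![1, -be])
    obtain ⟨A, B, C, hA, hB, hC, t1, t2, t3⟩ := three x
    conv_lhs => rw [h1, h2, hsm, hsm, hi, hj]
    rw [hA, hB, hC]
    simp only [← WithTop.coe_add, WithTop.coe_le_coe]
    omega
  · refine ⟨al, l + (1 - (i + n - j)), Or.inr ?_⟩
    ext x
    rw [Set.mem_setOf_eq, Set.mem_compl_iff]
    change _ ↔ ¬ (Nm w x ![0, 1] + ((l + (1 - (i + n - j)) : ℤ) : WithTop ℤ) ≤ Nm w x ![1, -al])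
    obtain ⟨A, B, C, hA, hB, hC, t1, t2, t3⟩ := three x
    conv_lhs => rw [h1, h2, hsm, hsm, hi, hj]
    rw [hA, hB, hC]
    simp only [← WithTop.coe_add, WithTop.coe_le_coe]
    omega

end Pool.Agent.TreeC
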