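import Pool.Agent.Lib.MP_8f66f0_al_Tree.SpecD
import Pool.Agent.Lib.MP_8f66f0_al_Tree.Basic

/-! The restriction of an action on a tree to a group which maps to `G`. -/

set_option autoImplicit false

namespace Pool.Agent.TreeC

open Pointwise

theorem comp : S_comp := by
  intro G Γ V _ _ _ ρ 𝓗 hH
  exact
    @CutSys.mk Γ V _ (MulAction.compHom V ρ) 𝓗 hH.compl (fun g h hh => hH.smul (ρ g) h hh)
      hH.nest hH.fin (fun g h hh => hH.noinv (ρ g) h hh) hH.adj

theorem stV_comp {G Γ V : Type} [Group G] [Group Γ] [MulAction G V] (ρ : Γ →* G)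
    (𝓗 : Set (Set V)) (hH : CutSys G V 𝓗) (x : V) :
    @stV Γ V _ (MulAction.compHom V ρ) 𝓗 (comp G Γ V ρ 𝓗 hH) x = (stV G hH x).comap ρ := by
  ext g
  exact Iff.rfl

theorem stE_comp {G Γ V : Type} [Group G] [Group Γ] [MulAction G V] (ρ : Γ →* G) (h : Set V) :
    @stE Γ V _ (MulAction.compHom V ρ) h = (stE G h).comap ρ := by
  ext g
  exact Iff.rfl

end Pool.Agent.TreeC
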