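import Mathlib
import Pool.Agent.Lib.MP_8f66f0_al_Tree.SpecE
import Pool.Agent.Lib.MP_8f66f0_al_Tree.Comp
import Pool.Agent.Lib.MP_8f66f0_al_Tree.Basic

/-! Descent along finitely many trees of `GL_2`, for a class of groups which is closed under
actions on trees. -/

set_option autoImplicit false

namespace Pool.Agent.TreeC

open Pool.Agent.Wald Pointwise

private theorem descP_step (P : (G : Type) → [Group G] → Prop) (hP : TCl P) (h2 : S_gl)
    (h3 : S_glst) (Γ : Type) [Group Γ] (F : Type) [Field F]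
    (ρ : Γ →* Matrix.GeneralLinearGroup (Fin 2) F) (w : EVal F) (Δ : Subgroup Γ)
    (H : ∀ Δ' : Subgroup Γ, Δ' ≤ Δ → (∀ g ∈ Δ',
      w.w (Matrix.det (ρ g : Matrix (Fin 2) (Fin 2) F)) ≤
        w.w (Matrix.trace (ρ g : Matrix (Fin 2) (Fin 2) F)) +
          w.w (Matrix.trace (ρ g : Matrix (Fin 2) (Fin 2) F))) → P Δ') : P Δ := by
  letI act : MulAction Δ (Vx F) := MulAction.compHom (Vx F) (ρ.comp Δ.subtype)
  have hK : CutSys Δ (Vx F) (cuts w) := comp _ _ _ (ρ.comp Δ.subtype) (cuts w) (h2 F w)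
  haveI : Nonempty (Vx F) := ⟨⟨1, 0, 0⟩⟩
  have key : ∀ K : Subgroup Δ, (∀ g ∈ K,
      w.w (Matrix.det (ρ (g : Γ) : Matrix (Fin 2) (Fin 2) F)) ≤
        w.w (Matrix.trace (ρ (g : Γ) : Matrix (Fin 2) (Fin 2) F)) +
          w.w (Matrix.trace (ρ (g : Γ) : Matrix (Fin 2) (Fin 2) F))) → P K := by
    intro K hKc
    have h6 : P (K.map Δ.subtype) := by
      refine H _ ?_ ?_
      · rintro _ ⟨g, _, rfl⟩
        exact g.2
      · rintro _ ⟨g, hg, rfl⟩
        exact hKc g hg
    exact hP.iso _ _ (K.equivMapOfInjective Δ.subtype Δ.subtype_injective).symm h6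
  refine hP.tree Δ (Vx F) (cuts w) hK ?_ ?_
  · intro x
    refine key _ fun g hg => ?_
    exact h3 F w (ρ (g : Γ)) x hg
  · intro h hh
    obtain ⟨x, y, hxy⟩ := hK.exists_adj hh
    refine key _ fun g hg => ?_
    have h7 := ((mem_stE_iff hK hh hxy g).1 hg).1
    exact h3 F w (ρ (g : Γ)) x h7

theorem descP (h2 : S_gl) (h3 : S_glst) : S_descP := by
  intro P hP Γ _ n F _ ρ w H
  classical
  have key : ∀ s : Finset (Fin n), ∀ Δ : Subgroup Γ,
      (∀ Δ' : Subgroup Γ, Δ' ≤ Δ → (∀ g ∈ Δ', ∀ i ∈ s,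
        (w i).w (Matrix.det (ρ i g : Matrix (Fin 2) (Fin 2) (F i))) ≤
          (w i).w (Matrix.trace (ρ i g : Matrix (Fin 2) (Fin 2) (F i))) +
            (w i).w (Matrix.trace (ρ i g : Matrix (Fin 2) (Fin 2) (F i)))) → P Δ') →
      P Δ := by
    intro s
    induction s using Finset.induction_on with
    | empty =>
      intro Δ hΔ
      exact hΔ Δ le_rfl fun g _ i hi => absurd hi (Finset.notMem_empty i)
    | insert i s _ ih =>
      intro Δ hΔ
      refine ih Δ fun Δ' hΔ' hs => ?_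
      refine descP_step P hP h2 h3 Γ (F i) (ρ i) (w i) Δ' fun Δ'' hle hi => ?_
      refine hΔ Δ'' (hle.trans hΔ') fun g hg j hj => ?_
      rcases Finset.mem_insert.1 hj with rfl | hj
      · exact hi g hg
      · exact hs g (hle hg) j hj
  have h6 : P (⊤ : Subgroup Γ) := by
    refine key Finset.univ ⊤ fun Δ' _ hs => H Δ' fun g hg i => hs g hg i (Finset.mem_univ i)
  exact hP.iso _ _ Subgroup.topEquiv h6

end Pool.Agent.TreeC
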