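import Mathlib
import Pool.Agent.Lib.MP_8f66f0_al_Tree.SpecV
import Pool.Agent.Lib.MP_8f66f0_al_Tree.Basic

/-! Twice a discrete valuation, written additively. -/

set_option autoImplicit false

namespace Pool.Agent.TreeC

open WithZero

private theorem log_add_le {F : Type} [Field F] (v : Valuation F (WithZero (Multiplicative ℤ)))
    (x y : F) (hx : x ≠ 0) (hy : y ≠ 0) (hxy : x + y ≠ 0) :
    log (v (x + y)) ≤ max (log (v x)) (log (v y)) := by
  have hvx : v x ≠ 0 := (Valuation.ne_zero_iff v).2 hx
  have hvy : v y ≠ 0 := (Valuation.ne_zero_iff v).2 hy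
  have hvs : v (x + y) ≠ 0 := (Valuation.ne_zero_iff v).2 hxy
  have h := v.map_add x y
  rcases le_max_iff.1 h with h1 | h1
  · exact le_max_of_le_left ((log_le_log hvs hvx).2 h1)
  · exact le_max_of_le_right ((log_le_log hvs hvy).2 h1)

open Classical in
private noncomputable def wv {F : Type} [Field F]
    (v : Valuation F (WithZero (Multiplicative ℤ))) (x : F) : WithTop ℤ :=
  if x = 0 then ⊤ else ((2 * (- log (v x)) : ℤ) : WithTop ℤ)

private theorem wv_zero {F : Type} [Field F] (v : Valuation F (WithZero (Multiplicative ℤ))) :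
    wv v 0 = ⊤ := by
  unfold wv
  rw [if_pos rfl]

private theorem wv_ne {F : Type} [Field F] (v : Valuation F (WithZero (Multiplicative ℤ)))
    {x : F} (hx : x ≠ 0) : wv v x = ((2 * (- log (v x)) : ℤ) : WithTop ℤ) := by
  unfold wv
  rw [if_neg hx]

/-- Twice a discrete valuation. -/
theorem eval : S_eval := by
  intro F _ v
  refine ⟨⟨wv v, ?_, ?_, ?_, ?_⟩, ?_⟩
  · intro x
    constructor
    · intro h
      by_contra hx
      rw [wv_ne v hx] at h
      exact WithTop.coe_ne_top h
    · intro h
      rw [h]
      exact wv_zero v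
  · intro x y
    by_cases hx : x = 0
    · rw [hx, zero_mul, wv_zero, WithTop.top_add]
    by_cases hy : y = 0
    · rw [hy, mul_zero, wv_zero, WithTop.add_top]
    rw [wv_ne v hx, wv_ne v hy, wv_ne v (mul_ne_zero hx hy), map_mul,
      log_mul ((Valuation.ne_zero_iff v).2 hx) ((Valuation.ne_zero_iff v).2 hy),
      ← WithTop.coe_add]
    congr 1
    ring
  · intro x y
    by_cases hx : x = 0
    · rw [hx, zero_add]
      exact min_le_right _ _
    by_cases hy : y = 0
    · rw [hy, add_zero]
      exact min_le_left _ _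
    by_cases hxy : x + y = 0
    · rw [hxy, wv_zero]
      exact le_top
    rw [wv_ne v hx, wv_ne v hy, wv_ne v hxy, ← WithTop.coe_min, WithTop.coe_le_coe]
    have h := log_add_le v x y hx hy hxy
    rcases le_max_iff.1 h with h1 | h1
    · exact (min_le_left _ _).trans (by linarith)
    · exact (min_le_right _ _).trans (by linarith)
  · intro x hx
    exact ⟨- log (v x), wv_ne v hx⟩
  · intro x
    change 0 ≤ wv v x ↔ v x ≤ 1
    by_cases hx : x = 0
    · rw [hx, wv_zero, map_zero]
      exact ⟨fun _ => zero_le_one, fun _ => le_top⟩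
    rw [wv_ne v hx, ← WithTop.coe_zero, WithTop.coe_le_coe,
      ← log_le_log ((Valuation.ne_zero_iff v).2 hx) one_ne_zero, log_one]
    constructor
    · intro h
      linarith
    · intro h
      linarith

end Pool.Agent.TreeC
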