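import Mathlib
import Pool.Agent.Lib.MP_8f66f0_al_Tree.SpecV

/-! Extensions of a discrete valuation to a finite separable extension. -/

set_option autoImplicit false

namespace Pool.Agent.TreeC

open IsDedekindDomain

private theorem ext_finite (A B : Type) [CommRing A] [IsDomain A] [IsPrincipalIdealRing A]
    [IsLocalRing A] [CommRing B] [IsDedekindDomain B] [Algebra A B]
    [Algebra.IsIntegral A B] (hinj : Function.Injective (algebraMap A B)) :
    Finite (HeightOneSpectrum B) := by
  have hQ : ∀ P : HeightOneSpectrum B,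
      P.asIdeal.comap (algebraMap A B) ≠ ⊥ ∧
        P.asIdeal.comap (algebraMap A B) = IsLocalRing.maximalIdeal A := by
    intro P
    obtain ⟨x, hx, hx0⟩ := Submodule.exists_mem_ne_zero_of_ne_bot P.ne_bot
    have h1 : P.asIdeal.comap (algebraMap A B) ≠ ⊥ :=
      Ideal.comap_ne_bot_of_integral_mem hx0 hx (Algebra.IsIntegral.isIntegral x)
    refine ⟨h1, ?_⟩
    haveI : P.asIdeal.IsPrime := P.isPrime
    haveI : (P.asIdeal.comap (algebraMap A B)).IsPrime := Ideal.comap_isPrime _ _
    exact IsLocalRing.eq_maximalIdeal (IsPrime.to_maximal_ideal h1)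
  by_cases hm : IsLocalRing.maximalIdeal A = ⊥
  · haveI : IsEmpty (HeightOneSpectrum B) := ⟨fun P => (hQ P).1 ((hQ P).2.trans hm)⟩
    infer_instance
  · obtain ⟨π, hπ, hπ0⟩ := Submodule.exists_mem_ne_zero_of_ne_bot hm
    have h2 : algebraMap A B π ≠ 0 := fun h => hπ0 (hinj (by rw [h, map_zero]))
    have h3 : Ideal.span {algebraMap A B π} ≠ 0 := by
      intro h
      exact h2 (by simpa using h)
    have h4 := Ideal.finite_factors h3
    have h5 : {v : HeightOneSpectrum B | v.asIdeal ∣ Ideal.span {algebraMap A B π}} =
        Set.univ := by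
      ext P
      simp only [Set.mem_setOf_eq, Set.mem_univ, iff_true]
      rw [Ideal.dvd_span_singleton]
      have h6 : π ∈ P.asIdeal.comap (algebraMap A B) := by
        rw [(hQ P).2]
        exact hπ
      exact h6
    rw [h5] at h4
    exact Set.finite_univ_iff.1 h4

private theorem ext_aux (A K L : Type) [CommRing A] [IsDomain A] [IsPrincipalIdealRing A]
    [IsLocalRing A] [Field K] [Algebra A K] [IsFractionRing A K] [Field L] [Algebra K L]
    [FiniteDimensional K L] [Algebra.IsSeparable K L] :
    ∃ (n : ℕ) (w : Fin n → Valuation L (WithZero (Multiplicative ℤ))),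
      ∀ a : L, (∀ i, w i a ≤ 1) → ∃ P : Polynomial A, P.Monic ∧
        Polynomial.eval₂ ((algebraMap K L).comp (algebraMap A K)) a P = 0 := by
  letI : Algebra A L := ((algebraMap K L).comp (algebraMap A K)).toAlgebra
  haveI : IsScalarTower A K L := IsScalarTower.of_algebraMap_eq fun _ => rfl
  haveI hD : IsDedekindDomain (integralClosure A L) := integralClosure.isDedekindDomain A K L
  haveI hF : IsFractionRing (integralClosure A L) L :=
    integralClosure.isFractionRing_of_finite_extension K L
  have hinjL : Function.Injective (algebraMap A L) :=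
    (algebraMap K L).injective.comp (IsFractionRing.injective A K)
  have hinj : Function.Injective (algebraMap A (integralClosure A L)) := by
    intro x y h
    exact hinjL (congrArg (fun z : integralClosure A L => (z : L)) h)
  haveI : Finite (HeightOneSpectrum (integralClosure A L)) :=
    ext_finite A (integralClosure A L) hinj
  let e := Finite.equivFin (HeightOneSpectrum (integralClosure A L))
  refine ⟨_, fun i => (e.symm i).valuation L, fun a ha => ?_⟩
  have h1 : a ∈ (algebraMap (integralClosure A L) L).range := by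
    refine HeightOneSpectrum.mem_integers_of_valuation_le_one L a fun P => ?_
    have h2 : (HeightOneSpectrum.valuation L (e.symm (e P))) a ≤ 1 := ha (e P)
    rwa [e.symm_apply_apply] at h2
  obtain ⟨b, rfl⟩ := h1
  obtain ⟨P, hP, hP'⟩ := b.2
  exact ⟨P, hP, hP'⟩

theorem ext (h : S_dvr) : S_ext := by
  intro K L _ _ _ _ _ v
  haveI hP : IsPrincipalIdealRing v.valuationSubring := h K v
  obtain ⟨n, w, hw⟩ := ext_aux v.valuationSubring K L
  refine ⟨n, w, fun a ha => ?_⟩
  obtain ⟨P, hPm, hP0⟩ := hw a ha
  refine ⟨P.map (algebraMap v.valuationSubring K), hPm.map _, fun j => ?_, ?_⟩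
  · rw [Polynomial.coeff_map]
    exact (P.coeff j).2
  · rw [Polynomial.aeval_def, Polynomial.eval₂_map]
    exact hP0

end Pool.Agent.TreeC
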