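import Mathlib
import Pool.Agent.Lib.MP_8f66f0_al_Tree.SpecV

/-! More statements on valuations. -/

set_option autoImplicit false

namespace Pool.Agent.TreeC

/-- A power of Frobenius maps a finite extension to the separable part. -/
def S_frob : Prop :=
  ∀ (K L : Type) [Field K] [Field L] [Algebra K L] [FiniteDimensional K L] (p : ℕ)
    [Fact p.Prime] [CharP K p], ∃ n : ℕ, ∀ a : L, a ^ (p ^ n) ∈ separableClosure K L

/-- An element which is integral over `k[x_1, …, x_d]` and over the valuation ring of a valuation
for which only the constants are integral polynomials is algebraic over `k`: the coefficients of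
its minimal polynomial are in both rings (both are integrally closed in `k(x_1, …, x_d)`). -/
def S_coef : Prop :=
  ∀ (k : Type) [Field k] (d : ℕ)
    (v : Valuation (FractionRing (MvPolynomial (Fin d) k)) (WithZero (Multiplicative ℤ))),
    (∀ f : MvPolynomial (Fin d) k, v (algebraMap _ _ f) ≤ 1 → ∃ c : k, f = MvPolynomial.C c) →
    ∀ (L : Type) [Field L] [Algebra (FractionRing (MvPolynomial (Fin d) k)) L] (a : L)
      (Q : Polynomial (MvPolynomial (Fin d) k)) (P : Polynomial
        (FractionRing (MvPolynomial (Fin d) k))), Q.Monic → P.Monic →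
      Polynomial.eval₂ ((algebraMap (FractionRing (MvPolynomial (Fin d) k)) L).comp
        (algebraMap _ _)) a Q = 0 →
      (∀ j, v (P.coeff j) ≤ 1) → Polynomial.aeval a P = 0 →
      ∃ T : Polynomial k, T.Monic ∧ Polynomial.eval₂ (((algebraMap (FractionRing
        (MvPolynomial (Fin d) k)) L).comp (algebraMap (MvPolynomial (Fin d) k)
        (FractionRing (MvPolynomial (Fin d) k)))).comp MvPolynomial.C) a T = 0

end Pool.Agent.TreeC
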