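import Mathlib
import Pool.Agent.Lib.MP_8f66f0_al_Tree.SpecW

/-! A power of Frobenius maps a finite extension to the separable part. -/

set_option autoImplicit false

namespace Pool.Agent.TreeC

theorem frob : S_frob := by
  intro K L _ _ _ _ p _ _
  have : CharP (separableClosure K L) p :=
    charP_of_injective_algebraMap (algebraMap K (separableClosure K L)).injective p
  have : FiniteDimensional (separableClosure K L) L := by infer_instance
  have : IsPurelyInseparable (separableClosure K L) L := by infer_instance
  refine ⟨IsPurelyInseparable.exponent (separableClosure K L) L, fun a => ?_⟩
  obtain ⟨b, hb⟩ := IsPurelyInseparable.exponent_def' (separableClosure K L) p a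
  rw [← hb]
  exact b.2

end Pool.Agent.TreeC
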