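import Mathlib
import Pool.Agent.Lib.MP_8f66f0_al_Tree.Basic
import Pool.Agent.Lib.MP_8f66f0_al_Tree.SpecG

/-! The tree of `GL_2`: assembly. -/

set_option autoImplicit false

namespace Pool.Agent.TreeC

open Pool.Agent.Wald Pointwise

variable {F : Type} [Field F]

private theorem gl_compl (w : EVal F) : ∀ h ∈ cuts w, hᶜ ∈ cuts w := by
  rintro h ⟨s, n, rfl | rfl⟩
  · exact ⟨s, n, Or.inr rfl⟩
  · exact ⟨s, n, Or.inl (compl_compl _)⟩

private theorem gl_smul_Ct (h1 : S_nm) (h2 : S_cut) (w : EVal F)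
    (g : Matrix.GeneralLinearGroup (Fin 2) F) (s : F) (n : ℤ) : g • Ct w s n ∈ cuts w := by
  have e : g • Ct w s n = {x : Vx F |
      Nm w x (Matrix.vecMul ![0, 1] ((g⁻¹ : Matrix.GeneralLinearGroup (Fin 2) F) :
        Matrix (Fin 2) (Fin 2) F)) + (n : WithTop ℤ) ≤
      Nm w x (Matrix.vecMul ![1, -s] ((g⁻¹ : Matrix.GeneralLinearGroup (Fin 2) F) :
        Matrix (Fin 2) (Fin 2) F))} := by
    ext x
    rw [Set.mem_smul_set_iff_inv_smul_mem]
    change Nm w (g⁻¹ • x) ![0, 1] + (n : WithTop ℤ) ≤ Nm w (g⁻¹ • x) ![1, -s] ↔ _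
    rw [(h1 F w x).2.2.2, (h1 F w x).2.2.2]
    rfl
  rw [e]
  apply h2
  have hd : Matrix.det ((g⁻¹ : Matrix.GeneralLinearGroup (Fin 2) F) :
      Matrix (Fin 2) (Fin 2) F) ≠ 0 := Matrix.GeneralLinearGroup.det_ne_zero g⁻¹
  intro h0
  apply hd
  rw [Matrix.det_fin_two]
  simp only [Matrix.vecMul, dotProduct, Fin.sum_univ_two, Matrix.cons_val_zero,
    Matrix.cons_val_one, zero_mul, one_mul, zero_add] at h0
  linear_combination -h0

private theorem gl_smul_compl (g : Matrix.GeneralLinearGroup (Fin 2) F) (h : Set (Vx F)) :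
    g • hᶜ = (g • h)ᶜ := Set.smul_set_compl

theorem gl (h1 : S_nm) (h2 : S_cut) (h3 : S_noinv) (h4 : S_nest) (h5 : S_cfin) (h6 : S_cadj) :
    S_gl := by
  intro F _ w
  refine ⟨gl_compl w, ?_, ?_, ?_, ?_, ?_⟩
  · rintro g h ⟨s, n, rfl | rfl⟩
    · exact gl_smul_Ct h1 h2 w g s n
    · rw [gl_smul_compl]
      exact gl_compl w _ (gl_smul_Ct h1 h2 w g s n)
  · -- nested
    rintro h ⟨s, n, rfl | rfl⟩ k ⟨s', n', rfl | rfl⟩
    · rcases h4 F w s s' n n' with h | h | h
      · exact Or.inl h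
      · exact Or.inr (Or.inr (Or.inr (Set.compl_subset_compl.2 h)))
      · exact Or.inr (Or.inl (Set.subset_compl_iff_disjoint_right.2 h))
    · rcases h4 F w s s' n n' with h | h | h
      · exact Or.inr (Or.inl (by rw [compl_compl]; exact h))
      · exact Or.inr (Or.inr (Or.inl (Set.compl_subset_compl.2 h)))
      · exact Or.inl (Set.subset_compl_iff_disjoint_right.2 h)
    · rcases h4 F w s s' n n' with h | h | h
      · exact Or.inr (Or.inr (Or.inl (by rw [compl_compl]; exact h)))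
      · exact Or.inr (Or.inl (Set.compl_subset_compl.2 h))
      · exact Or.inr (Or.inr (Or.inr (by
          rw [compl_compl]; exact Set.subset_compl_iff_disjoint_right.2 h)))
    · rcases h4 F w s s' n n' with h | h | h
      · exact Or.inr (Or.inr (Or.inr (by rw [compl_compl, compl_compl]; exact h)))
      · exact Or.inl (Set.compl_subset_compl.2 h)
      · exact Or.inr (Or.inr (Or.inl (by
          rw [compl_compl]; exact Set.subset_compl_iff_disjoint_right.2 h)))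
  · -- finiteness
    intro x y
    have hsub : {h | h ∈ cuts w ∧ x ∈ h ∧ y ∉ h} ⊆
        {h | (∃ (s : F) (n : ℤ), h = Ct w s n) ∧ x ∈ h ∧ y ∉ h} ∪
        compl '' {h | (∃ (s : F) (n : ℤ), h = Ct w s n) ∧ y ∈ h ∧ x ∉ h} := by
      rintro h ⟨⟨s, n, rfl | rfl⟩, hx, hy⟩
      · exact Or.inl ⟨⟨s, n, rfl⟩, hx, hy⟩
      · exact Or.inr ⟨Ct w s n, ⟨⟨s, n, rfl⟩, by simpa using hy, hx⟩, rfl⟩
    exact ((h5 F w x y).union ((h5 F w y x).image _)).subset hsub
  · -- no inversions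
    rintro g h ⟨s, n, rfl | rfl⟩
    · exact h3 F w g s n
    · rw [gl_smul_compl]
      intro h'
      exact h3 F w g s n (compl_injective h')
  · -- adjacent pairs
    rintro h ⟨s, n, rfl | rfl⟩
    · obtain ⟨x, y, hx, hy, hk⟩ := h6 F w s n
      exact ⟨x, y, hx, hy, hk⟩
    · obtain ⟨x, y, hx, hy, hk⟩ := h6 F w s n
      refine ⟨y, x, hy, fun h' => h' hx, fun k hk' hyk hxk => ?_⟩
      have := hk kᶜ (gl_compl w k hk') hxk (fun h' => h' hyk)
      rw [← this, compl_compl]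

end Pool.Agent.TreeC
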