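import Mathlib
import Pool.Agent.Lib.MP_8f66f0_al_Tree.SpecE
import Pool.Agent.Lib.MP_8f66f0_al_Tree.SpecD
import Pool.Agent.Lib.MP_8f66f0_al_Tree.Basic

/-! Torsion free subgroups of `GL_2` over rings of positive characteristic: assembly. -/

set_option autoImplicit false

namespace Pool.Agent.TreeC

open Pool.Agent.Wald Pointwise

private theorem eval_one {F : Type} [Field F] (w : EVal F) : w.w 1 = 0 := by
  have h1 : w.w 1 ≠ ⊤ := fun h => one_ne_zero ((w.top_iff 1).1 h)
  have h2 := w.mul 1 1
  rw [mul_one] at h2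
  obtain ⟨n, hn⟩ := WithTop.ne_top_iff_exists.1 h1
  rw [← hn] at h2 ⊢
  have h3 : n = n + n := by exact_mod_cast h2
  have h4 : n = 0 := by omega
  rw [h4]
  rfl

private theorem nonneg_of_add {x : WithTop ℤ} (h : 0 ≤ x + x) : 0 ≤ x := by
  induction x using WithTop.recTopCoe with
  | top => exact le_top
  | coe n =>
    have h1 : (0 : ℤ) ≤ n + n := by exact_mod_cast h
    have h2 : (0 : ℤ) ≤ n := by omega
    exact_mod_cast h2

private theorem core (h2 : S_descP) (h3 : S_abP) (h4 : S_tr) (h5 : S_valR)
    (P : (G : Type) → [Group G] → Prop) (hP : TCl P) (R : Type) [CommRing R] (m : ℕ) (hm : 0 < m)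
    (hR : (m : R) = 0) (G : Type) [Group G] (hfg : Group.FG G)
    (ι : G →* Matrix.GeneralLinearGroup (Fin 2) R) (hι : Function.Injective ι)
    (htf : ∀ (g : G) (n : ℕ), 0 < n → g ^ n = 1 → g = 1) : P G := by
  classical
  obtain ⟨S, hS⟩ := Group.fg_def.1 hfg
  -- the entries of the generators
  let T : Finset R := S.biUnion fun s => (Finset.univ : Finset (Fin 2 × Fin 2)).biUnion fun q =>
    {(ι s : Matrix (Fin 2) (Fin 2) R) q.1 q.2, (ι s⁻¹ : Matrix (Fin 2) (Fin 2) R) q.1 q.2}
  let R0 : Subalgebra ℤ R := Algebra.adjoin ℤ (T : Set R)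
  have hmem : ∀ g : G, ∀ i j, (ι g : Matrix (Fin 2) (Fin 2) R) i j ∈ R0 ∧
      (ι g⁻¹ : Matrix (Fin 2) (Fin 2) R) i j ∈ R0 := by
    intro g
    have hg : g ∈ Subgroup.closure (S : Set G) := by
      rw [hS]
      exact Subgroup.mem_top g
    induction hg using Subgroup.closure_induction with
    | mem x hx =>
      intro i j
      constructor
      · apply Algebra.subset_adjoin
        simp only [T, Finset.coe_biUnion, Set.mem_iUnion]
        exact ⟨x, hx, (i, j), by simp, by simp⟩
      · apply Algebra.subset_adjoin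
        simp only [T, Finset.coe_biUnion, Set.mem_iUnion]
        exact ⟨x, hx, (i, j), by simp, by simp⟩
    | one =>
      intro i j
      rw [inv_one, map_one]
      have h1 : ((1 : Matrix.GeneralLinearGroup (Fin 2) R) : Matrix (Fin 2) (Fin 2) R) i j ∈
          R0 := by
        rw [Units.val_one, Matrix.one_apply]
        split_ifs
        · exact R0.one_mem
        · exact R0.zero_mem
      exact ⟨h1, h1⟩
    | mul x y _ _ hx hy =>
      intro i j
      rw [mul_inv_rev, map_mul, map_mul, Units.val_mul, Units.val_mul, Matrix.mul_apply,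
        Matrix.mul_apply]
      exact ⟨R0.sum_mem fun k _ => R0.mul_mem (hx i k).1 (hy k j).1,
        R0.sum_mem fun k _ => R0.mul_mem (hy i k).2 (hx k j).2⟩
    | inv x _ hx =>
      intro i j
      rw [inv_inv]
      exact ⟨(hx i j).2, (hx i j).1⟩
  let j : G →* Matrix (Fin 2) (Fin 2) R0 :=
    { toFun := fun g => Matrix.of fun i k => ⟨(ι g : Matrix (Fin 2) (Fin 2) R) i k, (hmem g i k).1⟩
      map_one' := by
        ext i k
        change (ι 1 : Matrix (Fin 2) (Fin 2) R) i k = (((1 : Matrix (Fin 2) (Fin 2) R0) i k : R0) : R)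
        rw [map_one, Units.val_one, Matrix.one_apply, Matrix.one_apply]
        split_ifs <;> rfl
      map_mul' := by
        intro x y
        ext i k
        have e1 : (ι (x * y) : Matrix (Fin 2) (Fin 2) R) i k =
            ∑ l, (ι x : Matrix (Fin 2) (Fin 2) R) i l * (ι y : Matrix (Fin 2) (Fin 2) R) l k := by
          rw [map_mul, Units.val_mul, Matrix.mul_apply]
        refine e1.trans ?_
        rw [Matrix.mul_apply, AddSubmonoidClass.coe_finset_sum]
        rfl }
  have hj : ∀ g : G, j g = 1 → g = 1 := by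
    intro g hg
    apply hι
    rw [map_one]
    apply Units.ext
    ext i k
    have h1 := congrArg (fun M : Matrix (Fin 2) (Fin 2) R0 => ((M i k : R0) : R)) hg
    have h2 : ((j g i k : R0) : R) = (ι g : Matrix (Fin 2) (Fin 2) R) i k := rfl
    rw [Units.val_one]
    rw [← h2]
    refine h1.trans ?_
    simp only [Matrix.one_apply]
    split_ifs <;> rfl
  let u : G →* Matrix.GeneralLinearGroup (Fin 2) R0 := j.toHomUnits
  have hu : ∀ g : G, u g = 1 → g = 1 := by
    intro g hg
    apply hj
    have h1 := congrArg Units.val hg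
    exact h1
  have hft : Algebra.FiniteType ℤ R0 := by
    rw [← Subalgebra.fg_iff_finiteType]
    exact Subalgebra.fg_adjoin_finset T
  have hm0 : (m : R0) = 0 := by
    apply Subtype.ext
    have e1 : ((m : R0) : R) = (m : R) := map_natCast R0.val m
    rw [e1, hR]
    rfl
  obtain ⟨n, F, hF, f, w, hw⟩ := h5 R0 m hm hm0 hft
  refine h2 P hP G n F (fun i => (Matrix.GeneralLinearGroup.map (f i)).comp u) w ?_
  intro Δ hΔ
  refine h3 P hP Δ ?_ ?_
  · intro a b
    have hc : (a * b * a⁻¹ * b⁻¹ : Δ) = 1 := by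
      apply Subtype.ext
      set c : G := ((a * b * a⁻¹ * b⁻¹ : Δ) : G) with hcdef
      have hcm : c ∈ Δ := (a * b * a⁻¹ * b⁻¹ : Δ).2
      have hdet : Matrix.GeneralLinearGroup.det (u c) = 1 := by
        have h1 : c = (a : G) * b * (a : G)⁻¹ * (b : G)⁻¹ := rfl
        rw [h1, map_mul, map_mul, map_mul, map_inv, map_inv, map_mul, map_mul, map_mul, map_inv,
          map_inv]
        rw [mul_comm (Matrix.GeneralLinearGroup.det (u (a : G)))
          (Matrix.GeneralLinearGroup.det (u (b : G)))]
        group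
      have hdet' : Matrix.det ((u c : Matrix.GeneralLinearGroup (Fin 2) R0) :
          Matrix (Fin 2) (Fin 2) R0) = 1 := by
        have h1 := congrArg Units.val hdet
        exact h1
      have hint : IsIntegral ℤ (Matrix.trace ((u c : Matrix.GeneralLinearGroup (Fin 2) R0) :
          Matrix (Fin 2) (Fin 2) R0)) := by
        apply hw
        intro i
        have h1 := hΔ c hcm i
        have e1 : ((((Matrix.GeneralLinearGroup.map (f i)).comp u) c :
            Matrix.GeneralLinearGroup (Fin 2) (F i)) : Matrix (Fin 2) (Fin 2) (F i)) =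
            ((u c : Matrix.GeneralLinearGroup (Fin 2) R0) : Matrix (Fin 2) (Fin 2) R0).map
              (f i) := rfl
        rw [e1] at h1
        have e2 : Matrix.det (((u c : Matrix.GeneralLinearGroup (Fin 2) R0) :
            Matrix (Fin 2) (Fin 2) R0).map (f i)) = 1 := by
          have := RingHom.map_det (f i) ((u c : Matrix.GeneralLinearGroup (Fin 2) R0) :
            Matrix (Fin 2) (Fin 2) R0)
          rw [hdet', map_one] at this
          exact this.symm
        have e3 : Matrix.trace (((u c : Matrix.GeneralLinearGroup (Fin 2) R0) :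
            Matrix (Fin 2) (Fin 2) R0).map (f i)) = f i (Matrix.trace
            ((u c : Matrix.GeneralLinearGroup (Fin 2) R0) : Matrix (Fin 2) (Fin 2) R0)) := by
          simp [Matrix.trace]
        rw [e2, e3, eval_one] at h1
        exact nonneg_of_add h1
      obtain ⟨k, hk, hk1⟩ := h4 R0 m hm hm0 (u c) hdet' hint
      rw [← map_pow] at hk1
      exact htf c k hk (hu _ hk1)
    have h1 : a * b = a * b * a⁻¹ * b⁻¹ * (b * a) := by group
    rw [h1, hc, one_mul]
  · intro g k hk hg
    apply Subtype.ext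
    apply htf (g : G) k hk
    have := congrArg Subtype.val hg
    exact this

theorem gl2P (h2 : S_descP) (h3 : S_abP) (h4 : S_tr) (h5 : S_valR) : S_gl2P := by
  intro P hP R _ m hm hR Γ hΓ
  refine hP.directed Γ {K | K.FG} ⟨⊥, Subgroup.FG.bot⟩ ?_ ?_ ?_
  · intro K hK K' hK'
    exact ⟨K ⊔ K', Subgroup.FG.sup hK hK', le_sup_left, le_sup_right⟩
  · intro g
    exact ⟨Subgroup.closure {g}, ⟨{g}, by simp⟩, Subgroup.subset_closure rfl⟩
  · intro K hK
    refine core h2 h3 h4 h5 P hP R m hm hR K ((Group.fg_iff_subgroup_fg K).2 hK)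
      (Γ.subtype.comp K.subtype) ?_ ?_
    · exact Γ.subtype_injective.comp K.subtype_injective
    · intro g n hn hg
      apply Subtype.ext
      apply Subtype.ext
      apply hΓ _ (g : Γ).2 n hn
      have h1 := congrArg (fun x : K => ((x : Γ) : Matrix.GeneralLinearGroup (Fin 2) R)) hg
      exact h1

end Pool.Agent.TreeC
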