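import Mathlib
import Pool.Agent.Lib.MP_8f66f0_al_Tree.SpecG

/-! The vertex stabilizers of the tree of `GL_2`. -/

set_option autoImplicit false

namespace Pool.Agent.TreeC

open Matrix

variable {F : Type} [Field F]

private theorem glst_one (w : EVal F) : w.w 1 = 0 := by
  have h1 : w.w 1 ≠ ⊤ := fun h => one_ne_zero ((w.top_iff 1).1 h)
  obtain ⟨n, hn⟩ := WithTop.ne_top_iff_exists.1 h1
  have h2 := w.mul 1 1
  rw [mul_one, ← hn] at h2
  have h3 : n = n + n := by exact_mod_cast h2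
  have h4 : n = 0 := by omega
  rw [← hn, h4]
  rfl

private theorem glst_neg_one (w : EVal F) : w.w (-1) = 0 := by
  have h1 : w.w (-1) ≠ ⊤ := fun h => (neg_ne_zero.2 one_ne_zero) ((w.top_iff (-1)).1 h)
  obtain ⟨n, hn⟩ := WithTop.ne_top_iff_exists.1 h1
  have h2 := w.mul (-1) (-1)
  rw [neg_one_mul, neg_neg, glst_one, ← hn] at h2
  have h3 : 0 = n + n := by exact_mod_cast h2
  have h4 : n = 0 := by omega
  rw [← hn, h4]
  rfl

private theorem glst_neg (w : EVal F) (x : F) : w.w (-x) = w.w x := by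
  rw [← neg_one_mul, w.mul, glst_neg_one, zero_add]

private theorem glst_le {A : WithTop ℤ} {a b k : ℤ}
    (h : (a : WithTop ℤ) + (k : WithTop ℤ) ≤ A + (b : WithTop ℤ)) :
    ((a + k - b : ℤ) : WithTop ℤ) ≤ A := by
  induction A using WithTop.recTopCoe with
  | top => exact le_top
  | coe n =>
    have h1 : a + k ≤ n + b := by exact_mod_cast h
    have h2 : a + k - b ≤ n := by omega
    exact_mod_cast h2

private theorem glst_add {A B : WithTop ℤ} {a b c : ℤ} (hA : (a : WithTop ℤ) ≤ A)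
    (hB : (b : WithTop ℤ) ≤ B) (hc : c ≤ a + b) : (c : WithTop ℤ) ≤ A + B := by
  refine le_trans ?_ (add_le_add hA hB)
  exact_mod_cast hc

private theorem glst_row (w : EVal F) (x : Vx F) (G : Matrix (Fin 2) (Fin 2) F) (i : Fin 2) :
    Nm w x (vecMul (vecMul (Pi.single i 1) ((x.u⁻¹ : GL (Fin 2) F) : Matrix (Fin 2) (Fin 2) F)) G) =
      min (w.w ((((x.u⁻¹ : GL (Fin 2) F) : Matrix (Fin 2) (Fin 2) F) * G *
          (x.u : Matrix (Fin 2) (Fin 2) F)) i 0) + (x.a : WithTop ℤ))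
        (w.w ((((x.u⁻¹ : GL (Fin 2) F) : Matrix (Fin 2) (Fin 2) F) * G *
          (x.u : Matrix (Fin 2) (Fin 2) F)) i 1) + (x.b : WithTop ℤ)) := by
  unfold Nm
  rw [vecMul_vecMul, vecMul_vecMul, single_one_vecMul, ← mul_assoc]
  rfl

private theorem glst_main (w : EVal F) (x : Vx F) (g : GL (Fin 2) F) (k : ℤ)
    (h : ∀ φ, Nm w x (vecMul φ (g : Matrix (Fin 2) (Fin 2) F)) = Nm w x φ + (k : WithTop ℤ)) :
    ((2 * k : ℤ) : WithTop ℤ) ≤ w.w (det (g : Matrix (Fin 2) (Fin 2) F)) ∧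
      (k : WithTop ℤ) ≤ w.w (trace (g : Matrix (Fin 2) (Fin 2) F)) := by
  have hz : w.w 0 = ⊤ := (w.top_iff 0).2 rfl
  set G' : Matrix (Fin 2) (Fin 2) F := ((x.u⁻¹ : GL (Fin 2) F) : Matrix (Fin 2) (Fin 2) F) *
    (g : Matrix (Fin 2) (Fin 2) F) * (x.u : Matrix (Fin 2) (Fin 2) F) with hG'
  have hu : ((x.u⁻¹ : GL (Fin 2) F) : Matrix (Fin 2) (Fin 2) F) * 1 *
      (x.u : Matrix (Fin 2) (Fin 2) F) = 1 := by
    rw [mul_one]
    exact x.u.inv_mul
  have htr : trace (g : Matrix (Fin 2) (Fin 2) F) = G' 0 0 + G' 1 1 := by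
    rw [← trace_fin_two, hG', trace_units_conj']
  have hdet : det (g : Matrix (Fin 2) (Fin 2) F) = G' 0 0 * G' 1 1 - G' 0 1 * G' 1 0 := by
    rw [← det_fin_two, hG', det_units_conj']
  have h0 := h (vecMul (Pi.single 0 1) ((x.u⁻¹ : GL (Fin 2) F) : Matrix (Fin 2) (Fin 2) F))
  have h1 := h (vecMul (Pi.single 1 1) ((x.u⁻¹ : GL (Fin 2) F) : Matrix (Fin 2) (Fin 2) F))
  have e0 := glst_row w x 1 0
  have e1 := glst_row w x 1 1
  rw [vecMul_one, hu] at e0 e1
  rw [glst_row, e0, ← hG'] at h0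
  rw [glst_row, e1, ← hG'] at h1
  rw [one_apply_eq, one_apply_ne (by decide), glst_one, hz, zero_add, top_add,
    min_eq_left le_top] at h0
  rw [one_apply_eq, one_apply_ne (by decide), glst_one, hz, zero_add, top_add,
    min_eq_right le_top] at h1
  have g00 : ((x.a + k - x.a : ℤ) : WithTop ℤ) ≤ w.w (G' 0 0) :=
    glst_le (h0.ge.trans (min_le_left _ _))
  have g01 : ((x.a + k - x.b : ℤ) : WithTop ℤ) ≤ w.w (G' 0 1) :=
    glst_le (h0.ge.trans (min_le_right _ _))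
  have g10 : ((x.b + k - x.a : ℤ) : WithTop ℤ) ≤ w.w (G' 1 0) :=
    glst_le (h1.ge.trans (min_le_left _ _))
  have g11 : ((x.b + k - x.b : ℤ) : WithTop ℤ) ≤ w.w (G' 1 1) :=
    glst_le (h1.ge.trans (min_le_right _ _))
  rw [add_sub_cancel_left] at g00 g11
  constructor
  · rw [hdet, sub_eq_add_neg]
    refine le_trans (le_min ?_ ?_) (w.add _ _)
    · rw [w.mul]
      exact glst_add g00 g11 (by omega)
    · rw [glst_neg, w.mul]
      exact glst_add g01 g10 (by omega)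
  · rw [htr]
    exact le_trans (le_min g00 g11) (w.add _ _)

/-- A fixed vertex: the norm is multiplied by a constant. -/
private theorem glst_kappa (hN : S_nm) (w : EVal F) (x y : Vx F) (h : Eqv (cuts w) y x) :
    ∃ k : ℤ, ∀ φ, Nm w y φ = Nm w x φ + (k : WithTop ℤ) := by
  obtain ⟨-, hx2, hx3, -⟩ := hN F w x
  obtain ⟨-, hy2, hy3, -⟩ := hN F w y
  have e1 : (![0, 1] : Fin 2 → F) ≠ 0 := by
    intro h0
    have := congrFun h0 1
    simp at this
  have es : ∀ s : F, (![1, -s] : Fin 2 → F) ≠ 0 := by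
    intro s h0
    have := congrFun h0 0
    simp at this
  obtain ⟨p, hp⟩ := WithTop.ne_top_iff_exists.1 (fun h0 => e1 ((hx3 _).1 h0))
  obtain ⟨q, hq⟩ := WithTop.ne_top_iff_exists.1 (fun h0 => e1 ((hy3 _).1 h0))
  have key : ∀ s : F, Nm w y ![1, -s] = Nm w x ![1, -s] + ((q - p : ℤ) : WithTop ℤ) := by
    intro s
    obtain ⟨r, hr⟩ := WithTop.ne_top_iff_exists.1 (fun h0 => es s ((hx3 _).1 h0))
    obtain ⟨r', hr'⟩ := WithTop.ne_top_iff_exists.1 (fun h0 => es s ((hy3 _).1 h0))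
    have h1 : ∀ n : ℤ, q + n ≤ r' ↔ p + n ≤ r := by
      intro n
      have h2 := h (Ct w s n) ⟨s, n, Or.inl rfl⟩
      change (Nm w y ![0, 1] + (n : WithTop ℤ) ≤ Nm w y ![1, -s]) ↔
        (Nm w x ![0, 1] + (n : WithTop ℤ) ≤ Nm w x ![1, -s]) at h2
      rw [← hp, ← hq, ← hr, ← hr'] at h2
      exact_mod_cast h2
    have h2 := h1 (r - p)
    have h3 := h1 (r' - q)
    have h4 : r' = r + (q - p) := by
      have h5 : q + (r - p) ≤ r' := h2.2 (by omega)
      have h6 : p + (r' - q) ≤ r := h3.1 (by omega)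
      omega
    rw [← hr, ← hr', h4]
    push_cast
    rfl
  have key1 : Nm w y ![0, 1] = Nm w x ![0, 1] + ((q - p : ℤ) : WithTop ℤ) := by
    rw [← hp, ← hq]
    have : q = p + (q - p) := by omega
    conv_lhs => rw [this]
    push_cast
    rfl
  refine ⟨q - p, fun φ => ?_⟩
  by_cases h0 : φ 0 = 0
  · have h1 : φ = φ 1 • (![0, 1] : Fin 2 → F) := by
      funext i
      fin_cases i
      · simp [h0]
      · simp
    rw [h1, hx2, hy2, key1, add_assoc]
  · have h1 : φ = φ 0 • (![1, -(-(φ 1 / φ 0))] : Fin 2 → F) := by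
      funext i
      fin_cases i
      · simp
      · simp [mul_div_cancel₀ _ h0]
    rw [h1, hx2, hy2, key, add_assoc]

theorem glst (hN : S_nm) : S_glst := by
  intro F _ w g x h
  obtain ⟨k, hk⟩ := glst_kappa hN w x (g • x) h
  obtain ⟨-, hx2, hx3, hx4⟩ := hN F w x
  have h1 : ∀ φ, Nm w x (vecMul φ (g : Matrix (Fin 2) (Fin 2) F)) =
      Nm w x φ + (k : WithTop ℤ) := by
    intro φ
    rw [← hx4, hk]
  have h2 : ∀ φ, Nm w x (vecMul φ ((g⁻¹ : GL (Fin 2) F) : Matrix (Fin 2) (Fin 2) F)) =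
      Nm w x φ + ((-k : ℤ) : WithTop ℤ) := by
    intro φ
    have h3 := h1 (vecMul φ ((g⁻¹ : GL (Fin 2) F) : Matrix (Fin 2) (Fin 2) F))
    have h4 : ((g⁻¹ : GL (Fin 2) F) : Matrix (Fin 2) (Fin 2) F) *
        (g : Matrix (Fin 2) (Fin 2) F) = 1 := g.inv_mul
    rw [vecMul_vecMul, h4, vecMul_one] at h3
    rw [h3, add_assoc]
    have h5 : (k : WithTop ℤ) + ((-k : ℤ) : WithTop ℤ) = 0 := by
      rw [← WithTop.coe_add, add_neg_cancel]
      rfl
    rw [h5, add_zero]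
  obtain ⟨-, m2⟩ := glst_main w x g k h1
  obtain ⟨m3, -⟩ := glst_main w x g⁻¹ (-k) h2
  have hdet : w.w (det (g : Matrix (Fin 2) (Fin 2) F)) +
      w.w (det ((g⁻¹ : GL (Fin 2) F) : Matrix (Fin 2) (Fin 2) F)) = 0 := by
    have h4 : (g : Matrix (Fin 2) (Fin 2) F) *
        ((g⁻¹ : GL (Fin 2) F) : Matrix (Fin 2) (Fin 2) F) = 1 := g.mul_inv
    rw [← w.mul, ← det_mul, h4, det_one, glst_one]
  have hle : w.w (det (g : Matrix (Fin 2) (Fin 2) F)) ≤ ((2 * k : ℤ) : WithTop ℤ) := by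
    generalize w.w (det (g : Matrix (Fin 2) (Fin 2) F)) = A at hdet ⊢
    generalize w.w (det ((g⁻¹ : GL (Fin 2) F) : Matrix (Fin 2) (Fin 2) F)) = B at hdet m3
    induction A using WithTop.recTopCoe with
    | top =>
      rw [top_add] at hdet
      exact absurd hdet (by exact WithTop.top_ne_zero)
    | coe a =>
      induction B using WithTop.recTopCoe with
      | top =>
        rw [add_top] at hdet
        exact absurd hdet (by exact WithTop.top_ne_zero)
      | coe b =>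
        have h6 : a + b = 0 := by exact_mod_cast hdet
        have h7 : 2 * (-k) ≤ b := by exact_mod_cast m3
        have h8 : a ≤ 2 * k := by omega
        exact_mod_cast h8
  exact hle.trans (glst_add m2 m2 (by omega))

end Pool.Agent.TreeC
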