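import Mathlib
import Pool.Agent.Lib.MP_8f66f0_al_Tree.SpecG

set_option autoImplicit false

namespace Pool.Agent.TreeC

open Pool.Agent.Wald Pointwise

theorem nm : S_nm := by
  intro F _ w x
  refine ⟨?_, ?_, ?_, ?_⟩
  · intro φ ψ
    unfold Nm
    rw [Matrix.add_vecMul]
    simp only [Pi.add_apply]
    have h0 := w.add (Matrix.vecMul φ (x.u : Matrix (Fin 2) (Fin 2) F) 0)
      (Matrix.vecMul ψ (x.u : Matrix (Fin 2) (Fin 2) F) 0)
    have h1 := w.add (Matrix.vecMul φ (x.u : Matrix (Fin 2) (Fin 2) F) 1)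
      (Matrix.vecMul ψ (x.u : Matrix (Fin 2) (Fin 2) F) 1)
    refine le_min ?_ ?_
    · refine le_trans ?_ (add_le_add_left h0 (x.a : WithTop ℤ))
      rw [← min_add_add_right]
      exact min_le_min (min_le_left _ _) (min_le_left _ _)
    · refine le_trans ?_ (add_le_add_left h1 (x.b : WithTop ℤ))
      rw [← min_add_add_right]
      exact min_le_min (min_le_right _ _) (min_le_right _ _)
  · intro c φ
    unfold Nm
    rw [Matrix.smul_vecMul]
    simp only [Pi.smul_apply, smul_eq_mul, w.mul]
    rw [← min_add_add_left, add_assoc, add_assoc]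
  · intro φ
    unfold Nm
    rw [min_eq_top, WithTop.add_eq_top, WithTop.add_eq_top, w.top_iff, w.top_iff]
    constructor
    · rintro ⟨h0, h1⟩
      have h0' := h0.resolve_right (WithTop.coe_ne_top)
      have h1' := h1.resolve_right (WithTop.coe_ne_top)
      have h2 : Matrix.vecMul φ (x.u : Matrix (Fin 2) (Fin 2) F) = 0 := by
        ext i
        fin_cases i
        · exact h0'
        · exact h1'
      have h3 := congrArg (fun v => Matrix.vecMul v ((x.u⁻¹ : Matrix.GeneralLinearGroup (Fin 2) F) :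
        Matrix (Fin 2) (Fin 2) F)) h2
      simp only [Matrix.vecMul_vecMul, Matrix.zero_vecMul] at h3
      rw [← Matrix.GeneralLinearGroup.coe_mul, mul_inv_cancel, Matrix.GeneralLinearGroup.coe_one,
        Matrix.vecMul_one] at h3
      exact h3
    · rintro rfl
      rw [Matrix.zero_vecMul]
      exact ⟨Or.inl rfl, Or.inl rfl⟩
  · intro g φ
    unfold Nm
    rw [Vx.smul_def]
    simp only [Matrix.GeneralLinearGroup.coe_mul, Matrix.vecMul_vecMul]

end Pool.Agent.TreeC
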