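import Mathlib
import Pool.Agent.Lib.MP_8f66f0_al_Tree.SpecG

set_option autoImplicit false

namespace Pool.Agent.TreeC

open Pool.Agent.Wald Pointwise

private lemma w_one {F : Type} [Field F] (w : EVal F) : w.w 1 = 0 := by
  have h := w.mul 1 1
  rw [mul_one] at h
  obtain ⟨n, hn⟩ := w.even 1 one_ne_zero
  rw [hn] at h ⊢
  rw [← WithTop.coe_add] at h
  have h2 := WithTop.coe_inj.1 h
  have h3 : (2 * n : ℤ) = 0 := by linarith
  rw [h3]
  rfl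

private lemma w_zero {F : Type} [Field F] (w : EVal F) : w.w 0 = ⊤ := (w.top_iff 0).2 rfl

/-- The matrix `u_s`. -/
private noncomputable def us {F : Type} [Field F] (s : F) : Matrix.GeneralLinearGroup (Fin 2) F :=
  Matrix.GeneralLinearGroup.mkOfDetNeZero !![1, s; 0, 1] (by simp [Matrix.det_fin_two])

private lemma us_coe {F : Type} [Field F] (s : F) :
    ((us s : Matrix.GeneralLinearGroup (Fin 2) F) : Matrix (Fin 2) (Fin 2) F) = !![1, s; 0, 1] :=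
  rfl

private lemma mem_iff {F : Type} [Field F] (w : EVal F) (s : F) (n k : ℤ) :
    (⟨us s, k, 0⟩ : Vx F) ∈ Ct w s n ↔ n ≤ k := by
  have h1 : Nm w (⟨us s, k, 0⟩ : Vx F) ![0, 1] = 0 := by
    unfold Nm
    simp only [us_coe]
    rw [show Matrix.vecMul ![0, 1] !![1, s; 0, 1] 0 = 0 by simp [Matrix.vecMul, dotProduct],
      show Matrix.vecMul ![0, 1] !![1, s; 0, 1] 1 = 1 by simp [Matrix.vecMul, dotProduct],
      w_zero, w_one]
    simp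
  have h2 : Nm w (⟨us s, k, 0⟩ : Vx F) ![1, -s] = (k : WithTop ℤ) := by
    unfold Nm
    simp only [us_coe]
    rw [show Matrix.vecMul ![1, -s] !![1, s; 0, 1] 0 = 1 by simp [Matrix.vecMul, dotProduct],
      show Matrix.vecMul ![1, -s] !![1, s; 0, 1] 1 = 0 by simp [Matrix.vecMul, dotProduct],
      w_zero, w_one]
    simp
  change Nm w (⟨us s, k, 0⟩ : Vx F) ![0, 1] + (n : WithTop ℤ) ≤
    Nm w (⟨us s, k, 0⟩ : Vx F) ![1, -s] ↔ _
  rw [h1, h2, zero_add, WithTop.coe_le_coe]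

private lemma arith (a b c d : WithTop ℤ) (n : ℤ)
    (ha : a = ⊤ ∨ ∃ i : ℤ, a = ((2 * i : ℤ) : WithTop ℤ))
    (hb : b = ⊤ ∨ ∃ i : ℤ, b = ((2 * i : ℤ) : WithTop ℤ))
    (hc : c = ⊤ ∨ ∃ i : ℤ, c = ((2 * i : ℤ) : WithTop ℤ))
    (hd : d = ⊤ ∨ ∃ i : ℤ, d = ((2 * i : ℤ) : WithTop ℤ))
    (h1 : ¬ (min (c + (n : WithTop ℤ)) (d + ((0 : ℤ) : WithTop ℤ)) + (n : WithTop ℤ) ≤
      min (a + (n : WithTop ℤ)) (b + ((0 : ℤ) : WithTop ℤ))))
    (h2 : min (c + ((n - 1 : ℤ) : WithTop ℤ)) (d + ((0 : ℤ) : WithTop ℤ)) + (n : WithTop ℤ) ≤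
      min (a + ((n - 1 : ℤ) : WithTop ℤ)) (b + ((0 : ℤ) : WithTop ℤ))) : False := by
  rw [not_le] at h1
  rcases ha with rfl | ⟨i, rfl⟩ <;> rcases hb with rfl | ⟨j, rfl⟩ <;>
    rcases hc with rfl | ⟨k, rfl⟩ <;> rcases hd with rfl | ⟨l, rfl⟩ <;>
    simp only [WithTop.top_add, WithTop.add_top, min_top_left, min_top_right, ← WithTop.coe_add,
      ← WithTop.coe_min, WithTop.coe_le_coe, WithTop.coe_lt_coe, top_le_iff, WithTop.coe_ne_top,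
      not_top_lt, le_top, min_self, lt_self_iff_false] at h1 h2 <;> omega

theorem noinv (h : S_nm) : S_noinv := by
  intro F _ w g s n heq
  have key : ∀ k : ℤ, (g⁻¹ • (⟨us s, k, 0⟩ : Vx F)) ∈ Ct w s n ↔ ¬ n ≤ k := by
    intro k
    rw [← Set.mem_smul_set_iff_inv_smul_mem, heq, Set.mem_compl_iff, mem_iff]
  have h1 := (key n).not.2 (not_not.2 le_rfl)
  have h2 := (key (n - 1)).2 (by omega)
  change ¬ (Nm w (g⁻¹ • (⟨us s, n, 0⟩ : Vx F)) ![0, 1] + (n : WithTop ℤ) ≤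
    Nm w (g⁻¹ • (⟨us s, n, 0⟩ : Vx F)) ![1, -s]) at h1
  change (Nm w (g⁻¹ • (⟨us s, n - 1, 0⟩ : Vx F)) ![0, 1] + (n : WithTop ℤ) ≤
    Nm w (g⁻¹ • (⟨us s, n - 1, 0⟩ : Vx F)) ![1, -s]) at h2
  rw [(h F w _).2.2.2, (h F w _).2.2.2] at h1 h2
  have hev : ∀ z : F, w.w z = ⊤ ∨ ∃ i : ℤ, w.w z = ((2 * i : ℤ) : WithTop ℤ) := by
    intro z
    by_cases hz : z = 0
    · left
      rw [hz, w_zero]
    · right
      exact w.even z hz
  unfold Nm at h1 h2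
  exact arith _ _ _ _ n (hev _) (hev _) (hev _) (hev _) h1 h2

end Pool.Agent.TreeC
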