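import Pool.Agent.Lib.MP_8f66f0_al_Tree.SpecD

/-! Matrices of determinant one with an integral trace have finite order in positive
characteristic. (helper73) -/

set_option autoImplicit false

namespace Pool.Agent.TreeC

/-- The ring generated by an integral element is finite. -/
private theorem tr_fin {R : Type} [CommRing R] {m : ℕ} (hm : 0 < m) (h : (m : R) = 0) (t : R)
    (ht : IsIntegral ℤ t) : ∃ S : Subalgebra ℤ R, t ∈ S ∧ (S : Set R).Finite := by
  refine ⟨Algebra.adjoin ℤ {t}, Algebra.subset_adjoin rfl, ?_⟩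
  have hfg : (Subalgebra.toSubmodule (Algebra.adjoin ℤ {t})).FG := ht.fg_adjoin_singleton
  have h1 : Module.Finite ℤ (Subalgebra.toSubmodule (Algebra.adjoin ℤ ({t} : Set R))) :=
    Module.Finite.iff_fg.2 hfg
  have h2 : Module.IsTorsion ℤ (Subalgebra.toSubmodule (Algebra.adjoin ℤ ({t} : Set R))) := by
    intro x
    refine ⟨⟨(m : ℤ), mem_nonZeroDivisors_of_ne_zero (by exact_mod_cast hm.ne')⟩, ?_⟩
    apply Subtype.ext
    change (m : ℤ) • (x : R) = 0
    rw [zsmul_eq_mul]
    push_cast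
    rw [h, zero_mul]
  have h3 := Module.finite_of_fg_torsion _ h2
  exact Set.toFinite _

private theorem tr_sq {R : Type} [CommRing R] (c : Matrix (Fin 2) (Fin 2) R)
    (h : c.det = 1) : c * c = c.trace • c - 1 := by
  rw [Matrix.det_fin_two] at h
  ext i j
  fin_cases i <;> fin_cases j
  · simp [Matrix.mul_apply, Fin.sum_univ_two, Matrix.trace_fin_two]
    linear_combination -h
  · simp [Matrix.mul_apply, Fin.sum_univ_two, Matrix.trace_fin_two]
    ring
  · simp [Matrix.mul_apply, Fin.sum_univ_two, Matrix.trace_fin_two]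
    ring
  · simp [Matrix.mul_apply, Fin.sum_univ_two, Matrix.trace_fin_two]
    linear_combination -h

private theorem tr_pow {R : Type} [CommRing R] (S : Subalgebra ℤ R)
    (c : Matrix (Fin 2) (Fin 2) R) (h : c.det = 1) (hS : c.trace ∈ S) (n : ℕ) :
    ∃ a ∈ S, ∃ b ∈ S, c ^ n = a • (1 : Matrix (Fin 2) (Fin 2) R) + b • c := by
  induction n with
  | zero =>
    refine ⟨1, S.one_mem, 0, S.zero_mem, ?_⟩
    rw [pow_zero, one_smul, zero_smul, add_zero]
  | succ n ih =>
    obtain ⟨a, ha, b, hb, hab⟩ := ih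
    refine ⟨-b, S.neg_mem hb, a + b * c.trace, S.add_mem ha (S.mul_mem hb hS), ?_⟩
    rw [pow_succ, hab, add_mul, smul_mul_assoc, one_mul, smul_mul_assoc, tr_sq c h, add_smul,
      mul_smul, smul_sub, neg_smul]
    abel

theorem tr : S_tr := by
  intro R _ m hm h c hd ht
  obtain ⟨S, htS, hS⟩ := tr_fin hm h _ ht
  rw [← isOfFinOrder_iff_pow_eq_one]
  by_contra hc
  have hinj : Function.Injective fun n : ℕ => c ^ n := injective_pow_iff_not_isOfFinOrder.2 hc
  have hfin : (Set.range fun n : ℕ => ((c ^ n : Matrix.GeneralLinearGroup (Fin 2) R) :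
      Matrix (Fin 2) (Fin 2) R)).Finite := by
    refine (Set.Finite.image2 (fun a b => a • (1 : Matrix (Fin 2) (Fin 2) R) +
      b • (c : Matrix (Fin 2) (Fin 2) R)) hS hS).subset ?_
    rintro _ ⟨n, rfl⟩
    obtain ⟨a, ha, b, hb, hab⟩ := tr_pow S (c : Matrix (Fin 2) (Fin 2) R) hd htS n
    refine ⟨a, ha, b, hb, ?_⟩
    change _ = ((c ^ n : Matrix.GeneralLinearGroup (Fin 2) R) : Matrix (Fin 2) (Fin 2) R)
    rw [Units.val_pow_eq_pow_val]
    exact hab.symm
  have hinj' : Function.Injective fun n : ℕ => ((c ^ n : Matrix.GeneralLinearGroup (Fin 2) R) :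
      Matrix (Fin 2) (Fin 2) R) := fun i j hij => hinj (Units.ext hij)
  exact Set.infinite_range_of_injective hinj' hfin

end Pool.Agent.TreeC
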