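import Mathlib
import Pool.Agent.Lib.MP_8f66f0_al_Tree.SpecW

/-! Finitely many discrete valuations detect the constants (proof of `S_val`). -/

set_option autoImplicit false

namespace Pool.Agent.TreeC

open Polynomial nonZeroDivisors

/-- extension of a discrete valuation to a finite extension, up to a power of Frobenius -/
private theorem val_ext (h2 : S_ext) (h3 : S_frob) (K L : Type) [Field K] [Field L] [Algebra K L]
    [FiniteDimensional K L] (p : ℕ) [Fact p.Prime] [CharP K p]
    (v : Valuation K (WithZero (Multiplicative ℤ))) :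
    ∃ (n m : ℕ) (w : Fin m → Valuation L (WithZero (Multiplicative ℤ))), ∀ a : L,
      (∀ i, w i a ≤ 1) → ∃ P : K[X], P.Monic ∧ (∀ j, v (P.coeff j) ≤ 1) ∧ aeval (a ^ (p ^ n)) P = 0 := by
  obtain ⟨n, hn⟩ := h3 K L p
  obtain ⟨m, w, hw⟩ := h2 K (separableClosure K L) v
  have : CharP L p := charP_of_injective_algebraMap (algebraMap K L).injective p
  have : ExpChar L p := inferInstance
  let φ : L →+* (separableClosure K L) := (iterateFrobenius L p n).codRestrict _ hn
  refine ⟨n, m, fun i => (w i).comap φ, fun a ha => ?_⟩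
  obtain ⟨P, hP1, hP2, hP3⟩ := hw (φ a) ha
  refine ⟨P, hP1, hP2, ?_⟩
  have h5 : ((φ a : separableClosure K L) : L) = a ^ (p ^ n) := rfl
  rw [← h5, ← IntermediateField.algebraMap_apply, aeval_algebraMap_apply, hP3, map_zero]

attribute [local instance] FractionRing.liftAlgebra

private theorem val_aux (h1 : S_vinf) (h2 : S_ext) (h3 : S_frob) (h4 : S_coef) (A : Type) [CommRing A]
    [IsDomain A] (p d : ℕ) [Fact p.Prime] [Algebra (ZMod p) A]
    [Algebra (MvPolynomial (Fin d) (ZMod p)) A] [IsScalarTower (ZMod p) (MvPolynomial (Fin d) (ZMod p)) A]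
    [FaithfulSMul (MvPolynomial (Fin d) (ZMod p)) A] [Module.Finite (MvPolynomial (Fin d) (ZMod p)) A] :
    ∃ (n : ℕ) (w : Fin n → Valuation (FractionRing A) (WithZero (Multiplicative ℤ))),
      ∀ a : A, (∀ i, w i (algebraMap A (FractionRing A) a) ≤ 1) → IsIntegral (ZMod p) a := by
  have : IsLocalization (Algebra.algebraMapSubmonoid A (MvPolynomial (Fin d) (ZMod p))⁰)
    (FractionRing A) := inferInstance
  have hfin : FiniteDimensional (FractionRing (MvPolynomial (Fin d) (ZMod p))) (FractionRing A) :=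
    Module.Finite.of_isLocalization (MvPolynomial (Fin d) (ZMod p)) A (MvPolynomial (Fin d) (ZMod p))⁰
  have : CharP (FractionRing (MvPolynomial (Fin d) (ZMod p))) p := inferInstance
  obtain ⟨v, hv⟩ := h1 (ZMod p) d
  obtain ⟨n, m, w, hw⟩ := val_ext h2 h3 (FractionRing (MvPolynomial (Fin d) (ZMod p))) (FractionRing A) p v
  refine ⟨m, w, fun a ha => ?_⟩
  obtain ⟨P, hP1, hP2, hP3⟩ := hw _ ha
  obtain ⟨Q, hQ1, hQ2⟩ := Algebra.IsIntegral.isIntegral (R := MvPolynomial (Fin d) (ZMod p)) (a ^ (p ^ n))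
  obtain ⟨T, hT1, hT2⟩ := h4 (ZMod p) d v hv (FractionRing A) (algebraMap A (FractionRing A) a ^ (p ^ n))
    Q P hQ1 hP1 (by
      rw [← IsScalarTower.algebraMap_eq (MvPolynomial (Fin d) (ZMod p)), IsScalarTower.algebraMap_eq _ A,
        ← map_pow, ← Polynomial.hom_eval₂, hQ2, map_zero]) hP2 hP3
  have h5 : IsIntegral (ZMod p) (a ^ (p ^ n)) := by
    refine ⟨T, hT1, ?_⟩
    apply FaithfulSMul.algebraMap_injective A (FractionRing A)
    rw [map_zero, Polynomial.hom_eval₂, ← hT2, map_pow]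
    congr 1
    exact Subsingleton.elim _ _
  exact IsIntegral.of_pow (pow_pos (Fact.out : p.Prime).pos n) h5

theorem val (h1 : S_vinf) (h2 : S_ext) (h3 : S_frob) (h4 : S_coef) : S_val := by
  intro A _ _ p _ _ hA
  let _ : Algebra (ZMod p) A := ZMod.algebra A p
  have : IsScalarTower ℤ (ZMod p) A := .of_algebraMap_eq' (RingHom.ext_int _ _)
  have : Algebra.FiniteType (ZMod p) A := Algebra.FiniteType.of_restrictScalars_finiteType ℤ (ZMod p) A
  obtain ⟨d, g, hg, hint⟩ := exists_integral_inj_algHom_of_fg (ZMod p) A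
  let _ : Algebra (MvPolynomial (Fin d) (ZMod p)) A := g.toRingHom.toAlgebra
  have : IsScalarTower (ZMod p) (MvPolynomial (Fin d) (ZMod p)) A :=
    .of_algebraMap_eq' g.comp_algebraMap.symm
  have : FaithfulSMul (MvPolynomial (Fin d) (ZMod p)) A :=
    (faithfulSMul_iff_algebraMap_injective (MvPolynomial (Fin d) (ZMod p)) A).2 hg
  have : Algebra.IsIntegral (MvPolynomial (Fin d) (ZMod p)) A := ⟨hint⟩
  have : Algebra.FiniteType (MvPolynomial (Fin d) (ZMod p)) A :=
    Algebra.FiniteType.of_restrictScalars_finiteType (ZMod p) (MvPolynomial (Fin d) (ZMod p)) A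
  have : Module.Finite (MvPolynomial (Fin d) (ZMod p)) A := Algebra.IsIntegral.finite
  obtain ⟨n, w, hw⟩ := val_aux h1 h2 h3 h4 A p d
  refine ⟨n, w, fun a ha => ?_⟩
  have h5 : IsIntegral (ZMod p) a := hw a ha
  have : Algebra.IsIntegral ℤ (ZMod p) := inferInstance
  exact isIntegral_trans a h5

end Pool.Agent.TreeC
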