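import Mathlib
import Pool.Agent.Lib.MP_8f66f0_al_Tree.Gl2
import Pool.Agent.Lib.MP_8f66f0_al_Tree.DescP
import Pool.Agent.Lib.MP_8f66f0_al_Tree.Ab
import Pool.Agent.Lib.MP_8f66f0_al_Tree.Tr
import Pool.Agent.Lib.MP_8f66f0_al_Tree.ValR
import Pool.Agent.Lib.MP_8f66f0_al_Tree.Val
import Pool.Agent.Lib.MP_8f66f0_al_Tree.Vinf
import Pool.Agent.Lib.MP_8f66f0_al_Tree.Dvr
import Pool.Agent.Lib.MP_8f66f0_al_Tree.Ext
import Pool.Agent.Lib.MP_8f66f0_al_Tree.Frob
import Pool.Agent.Lib.MP_8f66f0_al_Tree.Coef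
import Pool.Agent.Lib.MP_8f66f0_al_Tree.Eval
import Pool.Agent.Lib.MP_8f66f0_al_Tree.Nm
import Pool.Agent.Lib.MP_8f66f0_al_Tree.Cut
import Pool.Agent.Lib.MP_8f66f0_al_Tree.Noinv
import Pool.Agent.Lib.MP_8f66f0_al_Tree.Nest
import Pool.Agent.Lib.MP_8f66f0_al_Tree.Cfin
import Pool.Agent.Lib.MP_8f66f0_al_Tree.Gl
import Pool.Agent.Lib.MP_8f66f0_al_Tree.Glst

/-! Torsion free subgroups of `GL_2` over rings of positive characteristic belong to every class
of groups which is closed under actions on trees. -/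

set_option autoImplicit false

namespace Pool.Agent.TreeC

theorem gl_all : S_gl := gl nm (cut nm) (noinv nm) (nest nm) (cfin nm (nest nm)) (cadj nm (nest nm))

theorem val_all : S_val := val vinf (ext dvr) frob coef

theorem gl2_all : S_gl2P := gl2P (descP gl_all (glst nm)) abP tr (valR val_all eval)

end Pool.Agent.TreeC
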