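import Mathlib
import Pool.Agent.Lib.MP_8f66f0_al_Tree.SpecF
import Pool.Agent.Lib.MP_8f66f0_al_Tree.Basic

/-! Graph trees to cut systems. -/

set_option autoImplicit false

namespace Pool.Agent.TreeC

open Pool.Agent.Wald Pointwise

section Half

variable {V : Type}

/-- The half tree of `a` without the edge from `a` to `b`. -/
private def half (T : SimpleGraph V) (a b : V) : Set V :=
  {z | (T.deleteEdges {s(a, b)}).Reachable a z}

private theorem reach_closed (T : SimpleGraph V) (S : Set V)
    (hS : ∀ u v, T.Adj u v → u ∈ S → v ∈ S) {x y : V} (h : T.Reachable x y) (hx : x ∈ S) :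
    y ∈ S := by
  obtain ⟨p⟩ := h
  induction p with
  | nil => exact hx
  | cons hadj p ih => exact ih (hS _ _ hadj hx)

private theorem half_self (T : SimpleGraph V) (a b : V) : a ∈ half T a b :=
  SimpleGraph.Reachable.refl a

private theorem half_step {T : SimpleGraph V} {a b x y : V} (hxy : T.Adj x y)
    (hne : s(x, y) ≠ s(a, b)) (hx : x ∈ half T a b) : y ∈ half T a b := by
  have h1 : (T.deleteEdges {s(a, b)}).Adj x y := by
    rw [SimpleGraph.deleteEdges_adj]
    exact ⟨hxy, fun h => hne (Set.mem_singleton_iff.1 h)⟩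
  exact SimpleGraph.Reachable.trans hx h1.reachable

/-- An edge which leaves the half tree is the edge itself. -/
private theorem half_cross {T : SimpleGraph V} {a b x y : V} (hxy : T.Adj x y)
    (hx : x ∈ half T a b) (hy : y ∉ half T a b) : x = a ∧ y = b := by
  by_cases hne : s(x, y) = s(a, b)
  · rcases Sym2.eq_iff.1 hne with h | ⟨-, h⟩
    · exact h
    · rw [h] at hy
      exact absurd (half_self T a b) hy
  · exact absurd (half_step hxy hne hx) hy

private theorem half_not {T : SimpleGraph V} (hT : T.IsTree) {a b : V} (hab : T.Adj a b) :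
    b ∉ half T a b :=
  SimpleGraph.isBridge_iff.1 (SimpleGraph.isAcyclic_iff_forall_adj_isBridge.1 hT.isAcyclic hab)

private theorem half_compl {T : SimpleGraph V} (hT : T.IsTree) {a b : V} (hab : T.Adj a b) :
    (half T a b)ᶜ = half T b a := by
  have hsw : s(b, a) = s(a, b) := Sym2.eq_swap
  ext z
  constructor
  · intro hz
    have h1 : z ∈ half T a b ∪ half T b a := by
      refine reach_closed T _ ?_ (hT.connected.preconnected a z) (Or.inl (half_self T a b))
      intro u v huv hu
      by_cases hne : s(u, v) = s(a, b)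
      · rcases Sym2.eq_iff.1 hne with ⟨-, h⟩ | ⟨-, h⟩
        · right
          rw [h]
          exact half_self T b a
        · left
          rw [h]
          exact half_self T a b
      · rcases hu with hu | hu
        · exact Or.inl (half_step huv hne hu)
        · exact Or.inr (half_step huv (by rw [hsw]; exact hne) hu)
    rcases h1 with h1 | h1
    · exact absurd h1 hz
    · exact h1
  · intro hz hz'
    apply half_not hT hab
    have h1 : (T.deleteEdges {s(a, b)}).Reachable b z := by
      rw [← hsw]
      exact hz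
    exact SimpleGraph.Reachable.trans hz' h1.symm

/-- A half tree which contains no end point of an edge is on one side of this edge. -/
private theorem half_side {T : SimpleGraph V} {a b c d : V} (hc : c ∉ half T a b) :
    half T a b ⊆ half T c d ∨ half T a b ⊆ (half T c d)ᶜ := by
  by_cases ha : a ∈ half T c d
  · left
    intro z hz
    have key : z ∈ half T c d ∩ half T a b := by
      refine reach_closed (T.deleteEdges {s(a, b)}) _ ?_ hz ⟨ha, half_self T a b⟩
      rintro u v huv ⟨hu1, hu2⟩
      have hv2 : v ∈ half T a b := SimpleGraph.Reachable.trans hu2 huv.reachable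
      refine ⟨?_, hv2⟩
      by_contra hv
      rw [SimpleGraph.deleteEdges_adj] at huv
      obtain ⟨h1, -⟩ := half_cross huv.1 hu1 hv
      rw [h1] at hu2
      exact hc hu2
    exact key.1
  · right
    intro z hz
    have key : z ∈ (half T c d)ᶜ ∩ half T a b := by
      refine reach_closed (T.deleteEdges {s(a, b)}) _ ?_ hz ⟨ha, half_self T a b⟩
      rintro u v huv ⟨hu1, hu2⟩
      have hv2 : v ∈ half T a b := SimpleGraph.Reachable.trans hu2 huv.reachable
      refine ⟨?_, hv2⟩
      intro hv
      rw [SimpleGraph.deleteEdges_adj] at huv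
      obtain ⟨h1, -⟩ := half_cross huv.1.symm hv hu1
      rw [h1] at hv2
      exact hc hv2
    exact key.1

private theorem half_nest {T : SimpleGraph V} (hT : T.IsTree) {a b c d : V} (hab : T.Adj a b)
    (hcd : T.Adj c d) : half T a b ⊆ half T c d ∨ half T a b ⊆ (half T c d)ᶜ ∨
      (half T a b)ᶜ ⊆ half T c d ∨ (half T a b)ᶜ ⊆ (half T c d)ᶜ := by
  by_cases hc : c ∈ half T a b
  · by_cases hd : d ∈ half T a b
    · -- both end points are in the half tree
      right; right
      rw [half_compl hT hab]
      refine half_side ?_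
      rw [← half_compl hT hab]
      exact fun h => h hc
    · obtain ⟨rfl, rfl⟩ := half_cross hcd hc hd
      exact Or.inl subset_rfl
  · by_cases hd : d ∈ half T a b
    · obtain ⟨rfl, rfl⟩ := half_cross hcd.symm hd hc
      right; left
      rw [half_compl hT hcd]
    · rcases half_side hc with h | h
      · exact Or.inl h
      · exact Or.inr (Or.inl h)

/-- The first edge of the path from `u` to `v` separates `u` from `v`. -/
private theorem half_sep {T : SimpleGraph V} (hT : T.IsTree) {u v : V} (hne : u ≠ v) :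
    ∃ w, T.Adj w u ∧ v ∈ half T w u := by
  classical
  obtain ⟨q⟩ := hT.connected.preconnected u v
  obtain ⟨p, hp⟩ : ∃ p : T.Walk u v, p.IsPath := ⟨_, q.bypass_isPath⟩
  cases p with
  | nil => exact absurd rfl hne
  | @cons _ w _ hadj p =>
    rw [SimpleGraph.Walk.cons_isPath_iff] at hp
    have h2 : ∀ e ∈ p.edges, e ∉ ({s(w, u)} : Set (Sym2 V)) := by
      intro e he he'
      rw [Set.mem_singleton_iff] at he'
      rw [he'] at he
      exact hp.2 (p.snd_mem_support_of_mem_edges he)
    exact ⟨w, hadj.symm, ⟨p.toDeleteEdges _ h2⟩⟩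

end Half

section Act

variable {G V : Type} [Group G] [MulAction G V]

private theorem half_map {T : SimpleGraph V}
    (hg : ∀ (g : G) (v w : V), T.Adj v w → T.Adj (g • v) (g • w)) (g : G) (a b z : V)
    (hz : z ∈ half T a b) : g • z ∈ half T (g • a) (g • b) := by
  refine reach_closed (T.deleteEdges {s(a, b)}) {z | g • z ∈ half T (g • a) (g • b)} ?_ hz
    (half_self T (g • a) (g • b))
  intro u v huv hu
  rw [SimpleGraph.deleteEdges_adj] at huv
  refine half_step (hg g u v huv.1) ?_ hu
  intro he
  apply huv.2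
  rw [Set.mem_singleton_iff]
  rcases Sym2.eq_iff.1 he with ⟨h1, h2⟩ | ⟨h1, h2⟩
  · rw [MulAction.injective g h1, MulAction.injective g h2]
  · rw [MulAction.injective g h1, MulAction.injective g h2]
    exact Sym2.eq_swap

private theorem half_smul {T : SimpleGraph V}
    (hg : ∀ (g : G) (v w : V), T.Adj v w → T.Adj (g • v) (g • w)) (g : G) (a b : V) :
    g • half T a b = half T (g • a) (g • b) := by
  ext z
  rw [Set.mem_smul_set_iff_inv_smul_mem]
  constructor
  · intro hz
    have := half_map hg g a b _ hz
    rwa [smul_inv_smul] at this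
  · intro hz
    have := half_map hg g⁻¹ _ _ _ hz
    rwa [inv_smul_smul, inv_smul_smul] at this

end Act

theorem graph : S_graph := by
  intro G V _ _ T hT hg hinv
  classical
  obtain ⟨𝓗, h𝓗⟩ : ∃ 𝓗 : Set (Set V), ∀ h, h ∈ 𝓗 ↔ ∃ a b, T.Adj a b ∧ h = half T a b :=
    ⟨{h | ∃ a b, T.Adj a b ∧ h = half T a b}, fun h => Iff.rfl⟩
  have hH : CutSys G V 𝓗 := by
    refine ⟨?_, ?_, ?_, ?_, ?_, ?_⟩
    · intro h hh
      obtain ⟨a, b, hab, rfl⟩ := (h𝓗 h).1 hh
      exact (h𝓗 _).2 ⟨b, a, hab.symm, half_compl hT hab⟩
    · intro g h hh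
      obtain ⟨a, b, hab, rfl⟩ := (h𝓗 h).1 hh
      exact (h𝓗 _).2 ⟨g • a, g • b, hg g a b hab, half_smul hg g a b⟩
    · intro h hh k hk
      obtain ⟨a, b, hab, rfl⟩ := (h𝓗 h).1 hh
      obtain ⟨c, d, hcd, rfl⟩ := (h𝓗 k).1 hk
      exact half_nest hT hab hcd
    · intro x y
      obtain ⟨p⟩ := hT.connected.preconnected x y
      have hfin : ((fun d : T.Dart => half T d.fst d.snd) '' {d | d ∈ p.darts}).Finite :=
        (List.finite_toSet p.darts).image _
      refine hfin.subset ?_
      rintro h ⟨hh, hx, hy⟩
      obtain ⟨a, b, hab, rfl⟩ := (h𝓗 h).1 hh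
      obtain ⟨d, hd, h1, h2⟩ := p.exists_boundary_dart _ hx hy
      obtain ⟨e1, e2⟩ := half_cross d.adj h1 h2
      exact ⟨d, hd, by simp only [e1, e2]⟩
    · intro g h hh he
      obtain ⟨a, b, hab, rfl⟩ := (h𝓗 h).1 hh
      rw [half_compl hT hab, half_smul hg] at he
      have h1 : g • a ∈ half T b a := by
        rw [← he]
        exact half_self T _ _
      have h2 : g • b ∉ half T b a := by
        rw [← he]
        exact half_not hT (hg g a b hab)
      exact hinv g a b hab (half_cross (hg g a b hab) h1 h2)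
    · intro h hh
      obtain ⟨a, b, hab, rfl⟩ := (h𝓗 h).1 hh
      refine ⟨a, b, half_self T a b, half_not hT hab, ?_⟩
      intro k hk ha hb
      obtain ⟨c, d, hcd, rfl⟩ := (h𝓗 k).1 hk
      obtain ⟨e1, e2⟩ := half_cross hab ha hb
      rw [e1, e2]
  refine ⟨𝓗, hH, fun v => ?_⟩
  ext g
  rw [mem_stV, MulAction.mem_stabilizer_iff]
  constructor
  · intro hE
    by_contra hne
    obtain ⟨w, hw, h1⟩ := half_sep hT hne
    have h3 := (hE (half T w (g • v)) ((h𝓗 _).2 ⟨w, g • v, hw, rfl⟩)).2 h1
    exact half_not hT hw h3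
  · intro h
    rw [h]
    exact Eqv.refl v

end Pool.Agent.TreeC
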