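import Pool.Agent.Lib.MP_8f66f0_al_Tree.SpecF
import Pool.Agent.Lib.MP_8f66f0_al_Tree.Basic

/-! Extensions: the class of all `Q` such that every extension by a group of `P` is in `P`.
(helper73) -/

set_option autoImplicit false

namespace Pool.Agent.TreeC

open Pool.Agent.Wald Pointwise

/-- The preimage of a subgroup `K` with `Star P K`. -/
private theorem star_comap {P : (G : Type) → [Group G] → Prop} (hP : TClv P) {G Q : Type}
    [Group G] [Group Q] (f : G →* Q) (h : P f.ker) (K : Subgroup Q) (hK : Star P K) :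
    P (K.comap f) := by
  refine hK (K.comap f) (f.subgroupComap K) ?_
  have hle : f.ker ≤ K.comap f := by
    intro x hx
    rw [Subgroup.mem_comap, MonoidHom.mem_ker.1 hx]
    exact K.one_mem
  have h1 : (f.subgroupComap K).ker = f.ker.subgroupOf (K.comap f) := by
    ext x
    rw [MonoidHom.mem_ker, Subgroup.mem_subgroupOf, MonoidHom.mem_ker]
    exact Subtype.ext_iff
  rw [h1]
  exact hP.iso _ _ (Subgroup.subgroupOfEquivOfLe hle).symm h

/-- The action through a homomorphism. -/
private theorem star_cut {G Q V : Type} [Group G] [Group Q] [MulAction Q V] (f : G →* Q)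
    {𝓗 : Set (Set V)} (hH : CutSys Q V 𝓗) : @CutSys G V _ (MulAction.compHom V f) 𝓗 := by
  let _ := MulAction.compHom V f
  have hsm : ∀ (g : G) (h : Set V), g • h = f g • h := fun g h => rfl
  refine ⟨hH.compl, fun g h hh => ?_, hH.nest, hH.fin, fun g h hh => ?_, hH.adj⟩
  · rw [hsm]
    exact hH.smul _ _ hh
  · rw [hsm]
    exact hH.noinv _ _ hh

private theorem star_stV {G Q V : Type} [Group G] [Group Q] [MulAction Q V] (f : G →* Q)
    {𝓗 : Set (Set V)} (hH : CutSys Q V 𝓗) (x : V) :
    @stV G V _ (MulAction.compHom V f) 𝓗 (star_cut f hH) x = (stV Q hH x).comap f := rfl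

theorem star : S_star := by
  intro P hP
  refine ⟨⟨?_, ?_, ?_, ?_, ?_⟩, ?_⟩
  · intro Q _ _ G _ f h
    have h1 : f.ker = ⊤ := by
      ext x
      exact ⟨fun _ => Subgroup.mem_top x, fun _ => Subsingleton.elim _ _⟩
    rw [h1] at h
    exact hP.iso _ _ Subgroup.topEquiv h
  · intro Q Q' _ _ e hQ G _ f h
    refine hQ G ((e.symm : Q' →* Q).comp f) ?_
    have h1 : ((e.symm : Q' →* Q).comp f).ker = f.ker := by
      ext x
      rw [MonoidHom.mem_ker, MonoidHom.mem_ker, MonoidHom.comp_apply]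
      exact map_eq_one_iff (e.symm : Q' →* Q) e.symm.injective
    rw [h1]
    exact h
  · intro Q _ H hQ G _ f h
    refine hQ G (H.subtype.comp f) ?_
    have h1 : (H.subtype.comp f).ker = f.ker := by
      ext x
      rw [MonoidHom.mem_ker, MonoidHom.mem_ker, MonoidHom.comp_apply]
      exact map_eq_one_iff H.subtype H.subtype_injective
    rw [h1]
    exact h
  · intro Q _ S hne hd hS hQ G _ f h
    refine hP.directed G ((fun K : Subgroup Q => K.comap f) '' S) (hne.image _) ?_ ?_ ?_
    · rintro _ ⟨K, hK, rfl⟩ _ ⟨L, hL, rfl⟩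
      obtain ⟨M, hM, h1, h2⟩ := hd K hK L hL
      exact ⟨_, ⟨M, hM, rfl⟩, Subgroup.comap_mono h1, Subgroup.comap_mono h2⟩
    · intro g
      obtain ⟨K, hK, hg⟩ := hS (f g)
      exact ⟨_, ⟨K, hK, rfl⟩, hg⟩
    · rintro _ ⟨K, hK, rfl⟩
      exact star_comap hP f h K (hQ K hK)
  · intro Q V _ _ _ 𝓗 hH hQ G _ f h
    let _ := MulAction.compHom V f
    refine hP.tree G V 𝓗 (star_cut f hH) fun x => ?_
    rw [star_stV f hH x]
    exact star_comap hP f h _ (hQ x)
  · intro G Q _ _ f hK hQ G₁ _ g h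
    refine hQ G₁ (f.comp g) ?_
    have h1 := star_comap hP g h f.ker hK
    rw [MonoidHom.comap_ker] at h1
    exact h1

end Pool.Agent.TreeC
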