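import Mathlib
import Pool.Agent.Lib.MP_8f66f0_al_Tree.SpecF
import Pool.Agent.Lib.MP_8f66f0_al_Tree.AllK
import Pool.Agent.Lib.MP_8f66f0_al_Tree.Hd
import Pool.Agent.Lib.MP_8f66f0_al_FH.FinalF

/-! Elementary amenable quotients. -/

set_option autoImplicit false

namespace Pool.Agent.TreeC

open Pool.Agent.Wald Pool.Agent.Hier Pool.Agent.WaldL Pool.Agent.FH Pointwise

theorem star_ea (hA : KSAff) {Γ Q : Type} [Group Γ] [Group Q] (hQ : EAm Q) (θ : Γ →* Q)
    (h : ∀ U : Subgroup Γ, Finite (U.map θ) → Star (Hd KS) U) : Star (Hd KS) Γ := by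
  intro G _ f hf H
  have hT : TClv (Hd KS) := hd KS ks_tcl
  refine ks_rel hA hQ ((θ.comp f).comp H.subtype) fun U hU => ?_
  have hV : Finite (((U.map H.subtype).map f).map θ) := by
    rw [Subgroup.map_map, Subgroup.map_map]
    exact hU
  have h1 := h _ hV
  -- the preimage of the image
  have h2 : Hd KS (((U.map H.subtype).map f).comap f) := by
    refine h1 (((U.map H.subtype).map f).comap f) (f.subgroupComap ((U.map H.subtype).map f)) ?_
    have hle : f.ker ≤ ((U.map H.subtype).map f).comap f := by
      intro x hx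
      rw [Subgroup.mem_comap, MonoidHom.mem_ker.1 hx]
      exact ((U.map H.subtype).map f).one_mem
    have h3 : (f.subgroupComap ((U.map H.subtype).map f)).ker =
        f.ker.subgroupOf (((U.map H.subtype).map f).comap f) := by
      ext x
      rw [MonoidHom.mem_ker, Subgroup.mem_subgroupOf, MonoidHom.mem_ker]
      exact Subtype.ext_iff
    rw [h3]
    exact hT.iso _ _ (Subgroup.subgroupOfEquivOfLe hle).symm hf
  have hle : U.map H.subtype ≤ ((U.map H.subtype).map f).comap f :=
    Subgroup.le_comap_map f (U.map H.subtype)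
  have h4 : KS ((U.map H.subtype).subgroupOf (((U.map H.subtype).map f).comap f)) := h2 _
  have h5 : KS (U.map H.subtype) := ks_tcl.iso _ _ (Subgroup.subgroupOfEquivOfLe hle) h4
  exact ks_tcl.iso _ _ (U.equivMapOfInjective H.subtype H.subtype_injective).symm h5

end Pool.Agent.TreeC
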