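import Mathlib
import Pool.Agent.Lib.MP_8f66f0_al_Tree.SpecW

/-! Elements which are integral over the polynomial ring and over the valuation ring. -/

set_option autoImplicit false

namespace Pool.Agent.TreeC

private theorem coef_min (A K L : Type) [CommRing A] [IsDomain A] [IsIntegrallyClosed A]
    [Field K] [Algebra A K] [IsFractionRing A K] [Field L] [Algebra K L] (a : L)
    (Q : Polynomial A) (hQ : Q.Monic)
    (h : Polynomial.eval₂ ((algebraMap K L).comp (algebraMap A K)) a Q = 0) :
    ∃ M : Polynomial A, M.Monic ∧ M.map (algebraMap A K) = minpoly K a := by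
  letI : Algebra A L := ((algebraMap K L).comp (algebraMap A K)).toAlgebra
  haveI : IsScalarTower A K L := IsScalarTower.of_algebraMap_eq fun _ => rfl
  have hi : IsIntegral A a := ⟨Q, hQ, h⟩
  exact ⟨minpoly A a, minpoly.monic hi,
    (minpoly.isIntegrallyClosed_eq_field_fractions' K hi).symm⟩

theorem coef : S_coef := by
  intro k _ d v hv L _ _ a Q P hQ hP h1 h2 h3
  obtain ⟨M, hM, hM'⟩ := coef_min (MvPolynomial (Fin d) k)
    (FractionRing (MvPolynomial (Fin d) k)) L a Q hQ h1
  -- the polynomial `P` over the valuation ring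
  have hP' : ∃ P' : Polynomial v.valuationSubring, P'.Monic ∧
      P'.map (algebraMap v.valuationSubring (FractionRing (MvPolynomial (Fin d) k))) = P := by
    have h4 : P ∈ Polynomial.lifts
        (algebraMap v.valuationSubring (FractionRing (MvPolynomial (Fin d) k))) := by
      rw [Polynomial.lifts_iff_coeff_lifts]
      intro n
      exact ⟨⟨P.coeff n, h2 n⟩, rfl⟩
    obtain ⟨P', h5, _, h6⟩ := Polynomial.lifts_and_degree_eq_and_monic h4 hP
    exact ⟨P', h6, h5⟩
  obtain ⟨P', hP'm, hP'⟩ := hP'
  obtain ⟨N, _, hN'⟩ := coef_min v.valuationSubring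
    (FractionRing (MvPolynomial (Fin d) k)) L a P' hP'm (by
      rw [← Polynomial.eval₂_map, hP']
      exact h3)
  -- all coefficients of `M` are constants
  have hc : ∀ n, ∃ c : k, M.coeff n = MvPolynomial.C c := by
    intro n
    apply hv
    have h5 : algebraMap (MvPolynomial (Fin d) k) (FractionRing (MvPolynomial (Fin d) k))
        (M.coeff n) = algebraMap v.valuationSubring (FractionRing (MvPolynomial (Fin d) k))
          (N.coeff n) := by
      rw [← Polynomial.coeff_map, ← Polynomial.coeff_map, hM', hN']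
    rw [h5]
    exact (N.coeff n).2
  have h6 : M ∈ Polynomial.lifts (MvPolynomial.C : k →+* MvPolynomial (Fin d) k) := by
    rw [Polynomial.lifts_iff_coeff_lifts]
    intro n
    obtain ⟨c, hc⟩ := hc n
    exact ⟨c, hc.symm⟩
  obtain ⟨T, hT, _, hTm⟩ := Polynomial.lifts_and_degree_eq_and_monic h6 hM
  refine ⟨T, hTm, ?_⟩
  rw [← Polynomial.eval₂_map, hT, ← Polynomial.eval₂_map, hM']
  exact minpoly.aeval _ a

end Pool.Agent.TreeC
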