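import Mathlib
import Pool.Agent.Lib.MP_8f66f0_al_Tree.FinalV
import Pool.Agent.Lib.MP_8f66f0_al_Tree.FinalTS
import Pool.Agent.Lib.MP_8f66f0_al_Tree.StarE
import Pool.Agent.Lib.MP_8f66f0_al_TreeQ.AllQ
import Pool.Agent.Lib.MP_8f66f0_al_TreeQ.AllRed
import Pool.Agent.Lib.MP_8f66f0_al_Cx.Comp

/-! The theorem on actions on trees and 2-complexes, with elementary amenable quotients. -/

set_option autoImplicit false

namespace Pool.Agent.WhVan

open Pool.Agent Pool.Agent.TreeC Pool.Agent.Cx2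

/-- The preimage of a subgroup `K` with `Star P K`. -/
private theorem star_comap' {P : (G : Type) → [Group G] → Prop} (hP : TClv P) {G Q : Type}
    [Group G] [Group Q] (f : G →* Q) (h : P f.ker) (K : Subgroup Q) (hK : Star P K) :
    P (K.comap f) := by
  refine hK (K.comap f) (f.subgroupComap K) ?_
  have hle : f.ker ≤ K.comap f := by
    intro x hx
    rw [Subgroup.mem_comap, MonoidHom.mem_ker.1 hx]
    exact K.one_mem
  have h1 : (f.subgroupComap K).ker = f.ker.subgroupOf (K.comap f) := by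
    ext x
    rw [MonoidHom.mem_ker, Subgroup.mem_subgroupOf, MonoidHom.mem_ker]
    exact Subtype.ext_iff
  rw [h1]
  exact hP.iso _ _ (Subgroup.subgroupOfEquivOfLe hle).symm h

/-- All extensions of a group of the class by a group whose subgroups have `KS` have the same
property. -/
theorem tv_star (hA : FH.KSAff) (h1 : S_wm) (h2 : S_geo) (h3 : S_ch) (h4 : S_gen) (h5 : S_orb)
    (h6 : S_res) {Γ : Type} [Group Γ] (h : TV Γ) : Star (Hd KS) Γ := by
  have g1 : TClv (Hd KS) := hd KS ks_tcl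
  have g2 : TClv (Star (Hd KS)) := (star (Hd KS) g1).1
  have g3 := (star (Hd KS) g1).2
  have g4 : TCl (Star (Hd KS)) :=
    ⟨g2.triv, g2.iso, g2.directed, fun G V _ _ _ 𝓗 hH hx _ => g2.tree G V 𝓗 hH hx⟩
  induction h with
  | gl2 R m Γ hm hR hΓ => exact gl2_all _ g4 R m hm hR Γ hΓ
  | gl2Q σ R j Γ hj hΓ => exact TreeQ.glQ_all _ g4 σ R j hj Γ hΓ
  | iso e _ ih => exact g2.iso _ _ e ih
  | sub H _ ih => exact g2.sub _ H ih
  | directed S hne hd hS _ ih => exact g2.directed _ S hne hd hS ih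
  | ext f _ _ ih1 ih2 => exact g3 _ _ f ih1 ih2
  | @tree Γ V _ _ T hT hadj hinv _ ih =>
    obtain ⟨𝓗, hH, hst⟩ := graph Γ V T hT hadj hinv
    have : Nonempty V := hT.connected.nonempty
    refine g2.tree Γ V 𝓗 hH fun x => ?_
    rw [hst x]
    exact ih x
  | ea θ hQ _ ih => exact star_ea hA (eam_of_EA hQ) θ ih
  | red ρ _ ih => exact TreeQ.red_all _ g4 _ _ ρ ih
  | @cplx Γ V C _ _ _ X hX _ ih =>
    intro G _ f hf
    exact X.hd_comp h1 h2 h3 h4 h5 h6 hX f fun v => star_comap' g1 f hf _ (ih v)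

theorem tv_ks (hA : FH.KSAff) (h1 : S_wm) (h2 : S_geo) (h3 : S_ch) (h4 : S_gen) (h5 : S_orb)
    (h6 : S_res) {Γ : Type} [Group Γ] (h : TV Γ) : KS Γ := by
  have g1 : TClv (Hd KS) := hd KS ks_tcl
  have g2 : Hd KS Γ := by
    refine tv_star hA h1 h2 h3 h4 h5 h6 h Γ (MonoidHom.id Γ) ?_
    have : Subsingleton (MonoidHom.id Γ).ker := by
      constructor
      rintro ⟨a, ha⟩ ⟨b, hb⟩
      apply Subtype.ext
      rw [MonoidHom.mem_ker] at ha hb
      exact ha.trans hb.symm
    exact g1.triv _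
  exact ks_tcl.iso _ _ Subgroup.topEquiv (g2 ⊤)

/-- The main theorem, for the statement of the theorem on affine actions and the six statements of
`Cx`. -/
theorem tv_main (hA : FH.KSAff) (h1 : S_wm) (h2 : S_geo) (h3 : S_ch) (h4 : S_gen) (h5 : S_orb)
    (h6 : S_res) {Γ : Type} [Group Γ] (h : TV Γ) (L : Type) [CommRing L] [IsDomain L]
    (hL : IsEuc L) : K1Units L Γ :=
  (WaldL.k1Units_iff L Γ).2 ((tv_ks hA h1 h2 h3 h4 h5 h6 h).1 L hL)

end Pool.Agent.WhVan
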