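import Mathlib
import Pool.Agent.Lib.MP_8f66f0_al_Tree.FinalVS
import Pool.Agent.Lib.MP_8f66f0_al_FH.KAll
import Pool.Agent.Lib.MP_8f66f0_al_Cx.All

/-! The theorem on actions on trees and 2-complexes, with elementary amenable quotients:
unconditional form. -/

set_option autoImplicit false

namespace Pool.Agent.WhVan

open Pool.Agent.Cx2

/-- The main theorem. -/
theorem tv_all {Γ : Type} [Group Γ] (h : TV Γ) (L : Type) [CommRing L] [IsDomain L]
    (hL : IsEuc L) : K1Units L Γ :=
  tv_main FH.ksAff wm geo ch all_gen all_orb all_res h L hL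

/-- Torsion free elementary amenable groups are in the class. -/
theorem tv_ea {Γ : Type} [Group Γ] (h : EA Γ)
    (ht : ∀ g : Γ, ∀ n : ℕ, 0 < n → g ^ n = 1 → g = 1) : TV Γ := by
  refine TV.ea (MonoidHom.id Γ) h fun U hU => ?_
  rw [Subgroup.map_id] at hU
  have h2 : ∀ a : U, a = 1 := by
    intro a
    obtain ⟨n, hn, h3⟩ := (isOfFinOrder_of_finite a).exists_pow_eq_one
    exact Subtype.ext (ht a n hn (by simpa using congrArg Subtype.val h3))
  -- the trivial group is isomorphic to the trivial subgroup of `GL_2(0)`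
  have h3 : TV (⊥ : Subgroup (Matrix.GeneralLinearGroup (Fin 2) (ZMod 1))) := by
    refine TV.gl2 (ZMod 1) 1 ⊥ one_pos (by simp) fun g hg n _ _ => ?_
    exact (Subgroup.mem_bot).1 hg
  have e : (⊥ : Subgroup (Matrix.GeneralLinearGroup (Fin 2) (ZMod 1))) ≃* U :=
    { toFun := fun _ => 1
      invFun := fun _ => 1
      left_inv := fun x => Subsingleton.elim _ _
      right_inv := fun x => (h2 x).symm
      map_mul' := fun _ _ => (mul_one _).symm }
  exact TV.iso e h3

end Pool.Agent.WhVan
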