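import Mathlib
import Pool.Agent.Lib.MP_8f66f0_al_Tree.FinalX
import Pool.Agent.Lib.MP_8f66f0_al_Tree.FinalTS
import Pool.Agent.Lib.MP_8f66f0_al_Tree.StarE
import Pool.Agent.Lib.MP_8f66f0_al_TreeQ.Spec

/-! The theorem on actions on trees, with elementary amenable quotients. -/

set_option autoImplicit false

namespace Pool.Agent.WhVan

open Pool.Agent Pool.Agent.TreeC

/-- All extensions of a group of the class by a group whose subgroups have `KS` have the same
property. -/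
theorem ta_star (hA : FH.KSAff) (hGL : TreeQ.S_glQ) {Γ : Type} [Group Γ] (h : TA Γ) :
    Star (Hd KS) Γ := by
  have h1 : TClv (Hd KS) := hd KS ks_tcl
  have h2 : TClv (Star (Hd KS)) := (star (Hd KS) h1).1
  have h3 := (star (Hd KS) h1).2
  have h4 : TCl (Star (Hd KS)) :=
    ⟨h2.triv, h2.iso, h2.directed, fun G V _ _ _ 𝓗 hH hx _ => h2.tree G V 𝓗 hH hx⟩
  induction h with
  | gl2 R m Γ hm hR hΓ => exact gl2_all _ h4 R m hm hR Γ hΓ
  | gl2Q σ R j Γ hj hΓ => exact hGL _ h4 σ R j hj Γ hΓ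
  | iso e _ ih => exact h2.iso _ _ e ih
  | sub H _ ih => exact h2.sub _ H ih
  | directed S hne hd hS _ ih => exact h2.directed _ S hne hd hS ih
  | ext f _ _ ih1 ih2 => exact h3 _ _ f ih1 ih2
  | @tree Γ V _ _ T hT hadj hinv _ ih =>
    obtain ⟨𝓗, hH, hst⟩ := graph Γ V T hT hadj hinv
    haveI : Nonempty V := hT.connected.nonempty
    refine h2.tree Γ V 𝓗 hH fun x => ?_
    rw [hst x]
    exact ih x
  | ea θ hQ _ ih => exact star_ea hA (eam_of_EA hQ) θ ih

theorem ta_ks (hA : FH.KSAff) (hGL : TreeQ.S_glQ) {Γ : Type} [Group Γ] (h : TA Γ) : KS Γ := by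
  have h1 : TClv (Hd KS) := hd KS ks_tcl
  have h2 : Hd KS Γ := by
    refine ta_star hA hGL h Γ (MonoidHom.id Γ) ?_
    haveI : Subsingleton (MonoidHom.id Γ).ker := by
      constructor
      rintro ⟨a, ha⟩ ⟨b, hb⟩
      apply Subtype.ext
      rw [MonoidHom.mem_ker] at ha hb
      exact ha.trans hb.symm
    exact h1.triv _
  exact ks_tcl.iso _ _ Subgroup.topEquiv (h2 ⊤)

/-- The main theorem. -/
theorem ta_main (hA : FH.KSAff) (hGL : TreeQ.S_glQ) {Γ : Type} [Group Γ] (h : TA Γ) (L : Type)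
    [CommRing L] [IsDomain L] (hL : IsEuc L) : K1Units L Γ :=
  (WaldL.k1Units_iff L Γ).2 ((ta_ks hA hGL h).1 L hL)

end Pool.Agent.WhVan
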