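import Mathlib
import Pool.Agent.Lib.MP_8f66f0_al_Tree.FinalYS
import Pool.Agent.Lib.MP_8f66f0_al_TreeQ.AllQ

/-! The theorem on actions on trees, with `GL_2` over purely transcendental extensions:
unconditional form. -/

set_option autoImplicit false

namespace Pool.Agent.WhVan

/-- The main theorem. -/
theorem tb_all {Γ : Type} [Group Γ] (h : TB Γ) (L : Type) [CommRing L] [IsDomain L]
    (hL : IsEuc L) : K1Units L Γ :=
  tb_main TreeQ.glQ_all h L hL

end Pool.Agent.WhVan
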